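import Pool.Agent.Lib.MP_725e58_gt.FR.MomLem

/-! Null sets, integrability and moments for the product measures. -/

set_option autoImplicit false

namespace Pool.Agent.FR

open MeasureTheory Set Filter Topology
open scoped ENNReal NNReal

namespace Frame

variable {V : Type*} [NormedAddCommGroup V] [NormedSpace ℝ V] (F : Frame V)
variable [FiniteDimensional ℝ V] [MeasurableSpace V] [BorelSpace V] (ν : Measure V)
  [ν.IsAddHaarMeasure]

lemma ae_diff_affine {c : ℝ} (hc : c ≠ 0) (w : V) :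
    ∀ᵐ a ∂ν, DifferentiableAt ℝ F.N (c • a + w) := by
  have h0 := F.ae_diff ν
  rw [ae_iff] at h0 ⊢
  have h1 : ν ((fun a => a + w) ⁻¹' {y | ¬DifferentiableAt ℝ F.N y}) = 0 := by
    rw [measure_preimage_add_right]; exact h0
  have h2 : ν ((fun a => c • a) ⁻¹' ((fun a => a + w) ⁻¹' {y | ¬DifferentiableAt ℝ F.N y})) = 0 := by
    rw [Measure.addHaar_preimage_smul ν hc, h1, mul_zero]
  exact h2

lemma measurableSet_diff_comp {W : Type*} [MeasurableSpace W] {f : W → V} (hf : Measurable f) :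
    MeasurableSet {p | DifferentiableAt ℝ F.N (f p)} :=
  hf (measurableSet_of_differentiableAt ℝ F.N)

lemma ae_prod_diff {t : ℝ} (ht : 1 + t ≠ 0) :
    ∀ᵐ p ∂(ν.prod ν), DifferentiableAt ℝ F.N (p.1 - p.2 + t • (p.1 + p.2)) := by
  have hm : Measurable (fun p : V × V => p.1 - p.2 + t • (p.1 + p.2)) := by fun_prop
  -- swap so that the inner variable is the first one
  have key : ∀ᵐ p ∂(ν.prod ν), DifferentiableAt ℝ F.N (p.2 - p.1 + t • (p.2 + p.1)) := by
    have hm' : Measurable (fun p : V × V => p.2 - p.1 + t • (p.2 + p.1)) := by fun_prop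
    rw [Measure.ae_prod_iff_ae_ae (F.measurableSet_diff_comp hm')]
    refine Filter.Eventually.of_forall fun b => ?_
    filter_upwards [F.ae_diff_affine ν ht (-b + t • b)] with a ha
    have e : (1 + t) • a + (-b + t • b) = a - b + t • (a + b) := by
      rw [add_smul, one_smul, smul_add]; abel
    rw [e] at ha
    exact ha
  have hs : (ν.prod ν).map Prod.swap = ν.prod ν := Measure.prod_swap
  have h2 : ∀ᵐ p ∂((ν.prod ν).map Prod.swap), DifferentiableAt ℝ F.N (p.1 - p.2 + t • (p.1 + p.2)) := by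
    rw [ae_map_iff measurable_swap.aemeasurable (F.measurableSet_diff_comp hm)]
    exact key
  rwa [hs] at h2

lemma ae_PP_diff {t : ℝ} (ht : 1 + t ≠ 0) (r s : ℝ) :
    ∀ᵐ p ∂((F.ex ν r).prod (F.ex ν s)), DifferentiableAt ℝ F.N (p.1 - p.2 + t • (p.1 + p.2)) :=
  ((F.ex_ac ν r).prod (F.ex_ac ν s)).ae_le (F.ae_prod_diff ν ht)

omit [FiniteDimensional ℝ V] [ν.IsAddHaarMeasure] in
lemma ae_mem_prod (r s : ℝ) [SFinite (F.ex ν r)] [SFinite (F.ex ν s)] :
    ∀ᵐ p ∂((F.ex ν r).prod (F.ex ν s)), p.1 ∈ F.G ∧ p.2 ∈ F.G := by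
  have h1 : ∀ᵐ p ∂((F.ex ν r).prod (F.ex ν s)), p.1 ∈ F.G :=
    Measure.quasiMeasurePreserving_fst.ae (F.ex_ae_mem ν r)
  have h2 : ∀ᵐ p ∂((F.ex ν r).prod (F.ex ν s)), p.2 ∈ F.G :=
    Measure.quasiMeasurePreserving_snd.ae (F.ex_ae_mem ν s)
  exact h1.and h2

variable {ν} {n : ℕ} {Z : ℝ}

omit [ν.IsAddHaarMeasure] in
lemma Mom.integrable_PP (hM : F.Mom ν n Z) (k l : ℕ) {r s : ℝ} (hr : 0 < r) (hs : 0 < s) :
    Integrable (fun p : V × V => F.h p.1 ^ k * F.h p.2 ^ l) ((F.ex ν r).prod (F.ex ν s)) := by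
  have := Mom.finite_ex F hM hr
  have := Mom.finite_ex F hM hs
  exact (Mom.integrable_pow F hM k hr).mul_prod (Mom.integrable_pow F hM l hs)

omit [ν.IsAddHaarMeasure] in
lemma Mom.integral_PP (hM : F.Mom ν n Z) (k l : ℕ) {r s : ℝ} (hr : 0 < r) (hs : 0 < s) :
    ∫ p : V × V, F.h p.1 ^ k * F.h p.2 ^ l ∂((F.ex ν r).prod (F.ex ν s)) =
      (Z * (n.ascFactorial k : ℝ) / r ^ (n + k)) * (Z * (n.ascFactorial l : ℝ) / s ^ (n + l)) := by
  have := Mom.finite_ex F hM hr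
  have := Mom.finite_ex F hM hs
  rw [integral_prod_mul (fun a => F.h a ^ k) (fun a => F.h a ^ l), Mom.integral_pow F hM k hr,
    Mom.integral_pow F hM l hs]

end Frame

end Pool.Agent.FR
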