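import Pool.Agent.Lib.MP_725e58_gt.FR.MomLem
import Pool.Agent.Lib.MP_725e58_gt.Tow.Basic

/-! The concrete frame: the cone over a convex body. -/

set_option autoImplicit false

namespace Pool.Agent.FR

open MeasureTheory Set Filter Topology
open scoped ENNReal NNReal

section K1

variable {E : Type*} [NormedAddCommGroup E] [NormedSpace ℝ E]

/-- the cone over `K × {1}` -/
def coneOf (K : Set E) : Set (E × ℝ) := {p | 0 ≤ p.2 ∧ ∃ x ∈ K, p.1 = p.2 • x}

/-- the norm generated by the cone over `K × {1}` -/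
noncomputable def conN (K : Set E) (y : E × ℝ) : ℝ :=
  sInf {s : ℝ | ∃ a ∈ coneOf K, ∃ b ∈ coneOf K, y = a - b ∧ s = a.2 + b.2}

lemma coneOf_closed {K : Set E} (hc : IsCompact K) : IsClosed (coneOf K) := by
  refine IsSeqClosed.isClosed ?_
  intro p q hp hq
  have h2 : Tendsto (fun n => (p n).2) atTop (𝓝 q.2) :=
    (continuous_snd.tendsto q).comp hq
  have h1 : Tendsto (fun n => (p n).1) atTop (𝓝 q.1) :=
    (continuous_fst.tendsto q).comp hq
  refine ⟨ge_of_tendsto' h2 fun n => (hp n).1, ?_⟩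
  choose x hx hpx using fun n => (hp n).2
  obtain ⟨z, hz, φ, hφ, hlim⟩ := hc.tendsto_subseq hx
  refine ⟨z, hz, ?_⟩
  have h3 : Tendsto (fun n => (p (φ n)).2 • x (φ n)) atTop (𝓝 (q.2 • z)) :=
    (h2.comp hφ.tendsto_atTop).smul hlim
  have h4 : Tendsto (fun n => (p (φ n)).1) atTop (𝓝 q.1) := h1.comp hφ.tendsto_atTop
  refine tendsto_nhds_unique h4 ?_
  refine h3.congr fun n => ?_
  rw [hpx]

lemma coneOf_add {K : Set E} (hv : Convex ℝ K) {a b : E × ℝ} (ha : a ∈ coneOf K)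
    (hb : b ∈ coneOf K) : a + b ∈ coneOf K := by
  obtain ⟨a0, x, hx, hax⟩ := ha
  obtain ⟨b0, y, hy, hby⟩ := hb
  refine ⟨add_nonneg a0 b0, ?_⟩
  have h0 : 0 ≤ a.2 + b.2 := add_nonneg a0 b0
  rcases h0.eq_or_lt with h | h
  · have h1 : a.2 = 0 := by linarith
    have h2 : b.2 = 0 := by linarith
    refine ⟨x, hx, ?_⟩
    rw [Prod.fst_add, Prod.snd_add, hax, hby, h1, h2]
    simp
  · refine ⟨(a.2 / (a.2 + b.2)) • x + (b.2 / (a.2 + b.2)) • y,
      hv hx hy (by positivity) (by positivity) (by field_simp), ?_⟩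
    rw [Prod.fst_add, Prod.snd_add, hax, hby, smul_add, smul_smul, smul_smul,
      mul_div_cancel₀ _ h.ne', mul_div_cancel₀ _ h.ne']

lemma coneOf_smul {K : Set E} {r : ℝ} {a : E × ℝ} (hr : 0 ≤ r) (ha : a ∈ coneOf K) :
    r • a ∈ coneOf K := by
  obtain ⟨a0, x, hx, hax⟩ := ha
  refine ⟨mul_nonneg hr a0, x, hx, ?_⟩
  show r • a.1 = (r * a.2) • x
  rw [hax, smul_smul]

lemma conN_bdd (K : Set E) (y : E × ℝ) :
    BddBelow {s : ℝ | ∃ a ∈ coneOf K, ∃ b ∈ coneOf K, y = a - b ∧ s = a.2 + b.2} := by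
  refine ⟨0, ?_⟩
  rintro s ⟨a, ha, b, hb, -, rfl⟩
  exact add_nonneg ha.1 hb.1

lemma coneOf_gen {K : Set E} (hi : (interior K).Nonempty) (y : E × ℝ) :
    ∃ b ∈ coneOf K, y + b ∈ coneOf K := by
  obtain ⟨x0, hx0⟩ := hi
  obtain ⟨r, r0, hr⟩ := Metric.mem_nhds_iff.mp (mem_interior_iff_mem_nhds.mp hx0)
  set w : E := y.1 - y.2 • x0 with hw
  set s : ℝ := |y.2| + ‖w‖ / r + 1 with hs
  have hs0 : 0 < s := by positivity
  have hys : ‖w‖ / r + 1 ≤ y.2 + s := by
    have := neg_abs_le y.2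
    rw [hs]; linarith
  have hpos : 0 < y.2 + s := lt_of_lt_of_le (by positivity) hys
  refine ⟨(s • x0, s), ⟨hs0.le, x0, interior_subset hx0, rfl⟩, hpos.le, x0 + (y.2 + s)⁻¹ • w, ?_, ?_⟩
  · apply hr
    rw [Metric.mem_ball, dist_eq_norm, add_sub_cancel_left, norm_smul, norm_inv,
      Real.norm_of_nonneg hpos.le, inv_mul_lt_iff₀ hpos]
    have : ‖w‖ < (y.2 + s) * r := by
      calc ‖w‖ = ‖w‖ / r * r := by field_simp
        _ < (y.2 + s) * r := by
            apply mul_lt_mul_of_pos_right _ r0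
            linarith
    exact this
  · show y.1 + s • x0 = (y.2 + s) • (x0 + (y.2 + s)⁻¹ • w)
    rw [smul_add, smul_smul, mul_inv_cancel₀ hpos.ne', one_smul, hw]
    module

lemma conN_dec {K : Set E} (hc : IsCompact K) (hi : (interior K).Nonempty) (y : E × ℝ) :
    ∃ a ∈ coneOf K, ∃ b ∈ coneOf K, y = a - b ∧ conN K y = a.2 + b.2 := by
  obtain ⟨b0, hb0, hyb0⟩ := coneOf_gen hi y
  set B : Set (E × ℝ) := {b | b ∈ coneOf K ∧ y + b ∈ coneOf K ∧ b.2 ≤ b0.2} with hB
  have hBne : B.Nonempty := ⟨b0, hb0, hyb0, le_rfl⟩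
  have hBc : IsCompact B := by
    have hbig : IsCompact ((fun q : ℝ × E => (q.1 • q.2, q.1)) '' (Icc 0 b0.2 ×ˢ K)) := by
      refine (isCompact_Icc.prod hc).image ?_
      exact (continuous_fst.smul continuous_snd).prodMk continuous_fst
    refine hbig.of_isClosed_subset ?_ ?_
    · refine IsClosed.inter (coneOf_closed hc) (IsClosed.inter ?_ ?_)
      · exact (coneOf_closed hc).preimage (continuous_const.add continuous_id)
      · exact isClosed_le continuous_snd continuous_const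
    · rintro b ⟨⟨h0, x, hx, hbx⟩, -, hle⟩
      exact ⟨(b.2, x), ⟨⟨h0, hle⟩, hx⟩, Prod.ext hbx.symm rfl⟩
  obtain ⟨b, hb, hmin⟩ := hBc.exists_isMinOn hBne (f := fun b : E × ℝ => b.2)
    continuous_snd.continuousOn
  refine ⟨y + b, hb.2.1, b, hb.1, by abel, ?_⟩
  refine le_antisymm ?_ ?_
  · exact csInf_le (conN_bdd K y) ⟨y + b, hb.2.1, b, hb.1, by abel, rfl⟩
  · refine le_csInf ⟨_, y + b, hb.2.1, b, hb.1, by abel, rfl⟩ ?_
    rintro s ⟨a', ha', b', hb', hy', rfl⟩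
    have ha'' : a' = y + b' := by rw [hy']; abel
    have hbb : b.2 ≤ b'.2 := by
      rcases le_total b'.2 b0.2 with h | h
      · exact hmin (show b' ∈ B from ⟨hb', ha'' ▸ ha', h⟩)
      · exact hb.2.2.trans h
    rw [ha'', Prod.snd_add, Prod.snd_add]
    linarith

/-- (K1) the frame given by the cone over a convex body -/
noncomputable def frameOf (K : Set E) (hc : IsCompact K) (hv : Convex ℝ K)
    (hi : (interior K).Nonempty) : Frame (E × ℝ) where
  G := coneOf K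
  h := ContinuousLinearMap.snd ℝ E ℝ
  N := conN K
  closed := coneOf_closed hc
  add_mem := fun ha hb => coneOf_add hv ha hb
  smul_mem := fun hr ha => coneOf_smul hr ha
  h_nonneg := fun ha => ha.1
  N_le := fun {a b} ha hb => csInf_le (conN_bdd K (a - b)) ⟨a, ha, b, hb, rfl, rfl⟩
  dec := fun y => conN_dec hc hi y

end K1

end Pool.Agent.FR
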