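import Pool.Agent.Lib.MP_725e58_gt.FR.Line41

/-! The volume of the reflection body is at most the flux of the norm (step (1)). -/

set_option autoImplicit false

namespace Pool.Agent.FR

open MeasureTheory Set Filter Topology
open scoped ENNReal NNReal Pointwise

namespace Frame

open Pool.Agent.Lib.MP_725e58_gt.Tow (RB)

variable {E : Type*} [NormedAddCommGroup E] [NormedSpace ℝ E] [FiniteDimensional ℝ E]
  (F : Frame (E × ℝ))

omit [FiniteDimensional ℝ E] in
lemma abs_h_le (y : E × ℝ) : |F.h y| ≤ F.N y := by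
  obtain ⟨a, ha, b, hb, rfl, h⟩ := F.dec y
  have h1 := F.h_nonneg ha
  have h2 := F.h_nonneg hb
  rw [h, map_sub, abs_le]
  constructor <;> linarith

omit [FiniteDimensional ℝ E] in
/-- the projection of the unit ball of `N` along `(x, 1)` contains the reflection body -/
lemma exists_shift {K : Set E} (hK : ∀ k ∈ K, ((k, 1) : E × ℝ) ∈ F.G) (hh : ∀ p, F.h p = p.2)
    {x p : E} (hp : p ∈ RB K x) : ∃ s : ℝ, F.N ((p - x) + s • x, s) ≤ 1 := by
  have hconv : Convex ℝ {p : E | ∃ s : ℝ, F.N ((p - x) + s • x, s) ≤ 1} := by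
    rintro p ⟨s, hs⟩ q ⟨s', hs'⟩ a b ha hb hab
    refine ⟨a * s + b * s', ?_⟩
    have h1 := F.convexOn_N.2 (mem_univ ((p - x) + s • x, s)) (mem_univ ((q - x) + s' • x, s'))
      ha hb hab
    have h2 : a • (((p - x) + s • x, s) : E × ℝ) + b • (((q - x) + s' • x, s') : E × ℝ) =
        ((a • p + b • q - x) + (a * s + b * s') • x, a * s + b * s') := by
      ext
      · simp only [Prod.smul_mk, Prod.mk_add_mk]
        have : x = (a + b) • x := by rw [hab, one_smul]
        calc a • (p - x + s • x) + b • (q - x + s' • x)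
            = a • p + b • q - (a + b) • x + (a * s + b * s') • x := by module
          _ = a • p + b • q - x + (a * s + b * s') • x := by rw [hab, one_smul]
      · simp
    rw [h2] at h1
    refine h1.trans ?_
    rw [smul_eq_mul, smul_eq_mul]
    nlinarith
  have hsub : K ∪ (fun y => (2 : ℝ) • x - y) '' K ⊆
      {p : E | ∃ s : ℝ, F.N ((p - x) + s • x, s) ≤ 1} := by
    rintro p (hp | ⟨k, hk, rfl⟩)
    · refine ⟨1, ?_⟩
      rw [one_smul, sub_add_cancel]
      refine (F.N_le_h (hK p hp)).trans ?_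
      rw [hh]
    · refine ⟨-1, ?_⟩
      have : (((2 : ℝ) • x - k - x + (-1 : ℝ) • x, (-1 : ℝ)) : E × ℝ) = -(k, 1) := by
        ext
        · simp only [Prod.neg_mk]; module
        · simp
      rw [this, F.N_neg]
      refine (F.N_le_h (hK k hk)).trans ?_
      rw [hh]
  exact convexHull_min hsub hconv hp

omit [FiniteDimensional ℝ E] in
lemma exists_shift_smul {K : Set E} (hK : ∀ k ∈ K, ((k, 1) : E × ℝ) ∈ F.G)
    (hh : ∀ p, F.h p = p.2) {x z : E} {r : ℝ} (hr : 0 < r) (hp : x + r⁻¹ • z ∈ RB K x) :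
    ∃ s : ℝ, F.N (z + s • x, s) ≤ r := by
  obtain ⟨s, hs⟩ := F.exists_shift hK hh hp
  refine ⟨r * s, ?_⟩
  have h1 : ((z + (r * s) • x, r * s) : E × ℝ) = r • ((x + r⁻¹ • z - x) + s • x, s) := by
    ext
    · simp only [Prod.smul_mk, add_sub_cancel_left, smul_add, smul_smul,
        mul_inv_cancel₀ hr.ne', one_smul]
    · simp
  rw [h1, F.N_smul hr.le]
  nlinarith

variable [MeasurableSpace E] [BorelSpace E] (μ : Measure E) [μ.IsAddHaarMeasure]

/-- flux along the line through `(z, 0)` in direction `(x, 1)` -/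
noncomputable def flux (x z : E) : ℝ≥0∞ :=
  ∫⁻ s : ℝ, ENNReal.ofReal |F.gr (z + s • x, s) (x, 1)| *
    ENNReal.ofReal (Real.exp (-F.N (z + s • x, s)))

lemma measurable_integrand (x : E) : Measurable (fun y : E × ℝ =>
    ENNReal.ofReal |F.gr y (x, 1)| * ENNReal.ofReal (Real.exp (-F.N y))) := by
  have hm1 : Measurable (fun y : E × ℝ => ENNReal.ofReal |F.gr y (x, 1)|) :=
    ((measurable_fderiv_apply_const ℝ F.N (x, 1)).abs).ennreal_ofReal
  have hm2 : Measurable (fun y : E × ℝ => ENNReal.ofReal (Real.exp (-F.N y))) :=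
    (Real.measurable_exp.comp F.continuous_N.measurable.neg).ennreal_ofReal
  exact hm1.mul hm2

lemma lintegral_flux (x : E) :
    ∫⁻ y, ENNReal.ofReal |F.gr y (x, 1)| ∂(F.eN (μ.prod volume)) = ∫⁻ z, F.flux x z ∂μ := by
  have hm1 : Measurable (fun y : E × ℝ => ENNReal.ofReal |F.gr y (x, 1)|) :=
    ((measurable_fderiv_apply_const ℝ F.N (x, 1)).abs).ennreal_ofReal
  have hm2 : Measurable (fun y : E × ℝ => ENNReal.ofReal (Real.exp (-F.N y))) :=
    (Real.measurable_exp.comp F.continuous_N.measurable.neg).ennreal_ofReal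
  rw [eN, lintegral_withDensity_eq_lintegral_mul _ hm2 hm1]
  have : (fun y : E × ℝ => ENNReal.ofReal (Real.exp (-F.N y))) *
      (fun y : E × ℝ => ENNReal.ofReal |F.gr y (x, 1)|) =
      fun y => ENNReal.ofReal |F.gr y (x, 1)| * ENNReal.ofReal (Real.exp (-F.N y)) := by
    funext y
    simp only [Pi.mul_apply]
    rw [mul_comm]
  rw [this, lintegral_shear μ x (F.measurable_integrand x)]
  rfl

lemma ae_diff_line (x : E) : ∀ᵐ z ∂μ, ∀ᵐ s : ℝ, DifferentiableAt ℝ F.N (z + s • x, s) := by
  have h1 : ∀ᵐ y ∂(μ.prod (volume : Measure ℝ)), DifferentiableAt ℝ F.N y :=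
    F.ae_diff (μ.prod volume)
  have hD : MeasurableSet {y : E × ℝ | DifferentiableAt ℝ F.N y} :=
    measurableSet_of_differentiableAt ℝ F.N
  have hm : Measurable (({y : E × ℝ | DifferentiableAt ℝ F.N y}ᶜ).indicator
      (fun _ => (1 : ℝ≥0∞))) := measurable_const.indicator hD.compl
  have h2 := lintegral_shear μ x hm
  rw [lintegral_indicator_const hD.compl, one_mul, show (μ.prod (volume : Measure ℝ))
    {y : E × ℝ | DifferentiableAt ℝ F.N y}ᶜ = 0 from h1] at h2
  have hmm : Measurable (fun z : E => ∫⁻ s : ℝ, ({y : E × ℝ | DifferentiableAt ℝ F.N y}ᶜ).indicator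
      (fun _ => (1 : ℝ≥0∞)) (z + s • x, s)) := by
    refine Measurable.lintegral_prod_right' (f := fun p : E × ℝ =>
      ({y : E × ℝ | DifferentiableAt ℝ F.N y}ᶜ).indicator (fun _ => (1 : ℝ≥0∞))
        (p.1 + p.2 • x, p.2)) ?_
    exact hm.comp ((measurable_fst.add (measurable_snd.smul_const x)).prodMk measurable_snd)
  have h3 := (lintegral_eq_zero_iff hmm).mp h2.symm
  filter_upwards [h3] with z hz
  have hm4 : Measurable (fun s : ℝ => ({y : E × ℝ | DifferentiableAt ℝ F.N y}ᶜ).indicator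
      (fun _ => (1 : ℝ≥0∞)) (z + s • x, s)) :=
    hm.comp ((measurable_const.add (measurable_id.smul_const x)).prodMk measurable_id)
  have h4 := (lintegral_eq_zero_iff hm4).mp hz
  filter_upwards [h4] with s hs
  by_contra hn
  have : ({y : E × ℝ | DifferentiableAt ℝ F.N y}ᶜ).indicator
      (fun _ => (1 : ℝ≥0∞)) (z + s • x, s) = 1 := indicator_of_mem (by exact hn) _
  rw [this] at hs
  exact one_ne_zero hs

lemma flux_ge {K : Set E} (hK : ∀ k ∈ K, ((k, 1) : E × ℝ) ∈ F.G) (hh : ∀ p, F.h p = p.2)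
    (x : E) : ∀ᵐ z ∂μ, ∀ r : ℝ, 0 < r → x + r⁻¹ • z ∈ RB K x →
      ENNReal.ofReal (2 * Real.exp (-r)) ≤ F.flux x z := by
  obtain ⟨C, hC⟩ := F.exists_lipschitz
  filter_upwards [F.ae_diff_line μ x] with z hz r hr hp
  obtain ⟨s0, hs0⟩ := F.exists_shift_smul hK hh hr hp
  set η : ℝ → ℝ := fun s => F.N (z + s • x, s) with hη
  have hlip : LipschitzWith (C * ⟨‖x‖ + 1, by positivity⟩) η := by
    refine hC.comp ?_
    refine LipschitzWith.of_dist_le_mul fun a b => ?_
    rw [dist_eq_norm, dist_eq_norm]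
    have : ((z + a • x, a) : E × ℝ) - (z + b • x, b) = ((a - b) • x, a - b) := by
      ext
      · simp only [Prod.mk_sub_mk]; module
      · simp
    rw [this]
    refine (max_le ?_ ?_ : max ‖(a - b) • x‖ ‖a - b‖ ≤ _)
    · rw [norm_smul]
      change ‖a - b‖ * ‖x‖ ≤ (‖x‖ + 1) * ‖a - b‖
      nlinarith [norm_nonneg (a - b), norm_nonneg x]
    · change ‖a - b‖ ≤ (‖x‖ + 1) * ‖a - b‖
      nlinarith [norm_nonneg (a - b), norm_nonneg x, mul_nonneg (norm_nonneg x) (norm_nonneg (a - b))]
  have h0 : ∀ s, |s| ≤ η s := by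
    intro s
    have := F.abs_h_le (z + s • x, s)
    rwa [hh] at this
  have h1 := line_ge hlip h0 s0
  have h2 : ∫⁻ s, ENNReal.ofReal |deriv η s| * ENNReal.ofReal (Real.exp (-η s)) = F.flux x z := by
    refine lintegral_congr_ae ?_
    filter_upwards [hz] with s hs
    have hl : HasDerivAt (fun s : ℝ => ((z + s • x, s) : E × ℝ)) ((x, 1) : E × ℝ) s := by
      refine HasDerivAt.prodMk ?_ (hasDerivAt_id s)
      have := ((hasDerivAt_id s).smul_const x).const_add z
      simpa using this
    have hd : HasDerivAt η (F.gr (z + s • x, s) (x, 1)) s :=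
      HasFDerivAt.comp_hasDerivAt (f := fun s : ℝ => ((z + s • x, s) : E × ℝ)) s
        hs.hasFDerivAt hl
    rw [hd.deriv]
  rw [h2] at h1
  refine le_trans (ENNReal.ofReal_le_ofReal ?_) h1
  have : Real.exp (-r) ≤ Real.exp (-η s0) := Real.exp_le_exp.mpr (neg_le_neg hs0)
  linarith

/-- If `I` is at least `2 e^{-r}` on `r R`, the integral of `I` is at least `2 d! |R|`. -/
lemma layer {R : Set E} (hR : MeasurableSet R) {I : E → ℝ≥0∞}
    (hI : ∀ᵐ z ∂μ, ∀ r : ℝ, 0 < r → r⁻¹ • z ∈ R → ENNReal.ofReal (2 * Real.exp (-r)) ≤ I z) :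
    ENNReal.ofReal (2 * (Module.finrank ℝ E).factorial) * μ R ≤ ∫⁻ z, I z ∂μ := by
  set d := Module.finrank ℝ E with hd
  set T : Set (E × ℝ) := {p | 0 < p.2 ∧ p.2⁻¹ • p.1 ∈ R} with hT
  have hTm : MeasurableSet T := by
    refine (measurableSet_lt measurable_const measurable_snd).inter ?_
    exact (measurable_snd.inv.smul measurable_fst) hR
  set q : E × ℝ → ℝ≥0∞ := T.indicator (fun p => ENNReal.ofReal (Real.exp (-p.2))) with hq
  have hqm : Measurable q := by
    refine Measurable.indicator ?_ hTm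
    exact (Real.measurable_exp.comp measurable_snd.neg).ennreal_ofReal
  -- pointwise bound
  have hpt : ∀ᵐ z ∂μ, 2 * ∫⁻ r : ℝ, q (z, r) ≤ I z := by
    filter_upwards [hI] with z hz
    by_cases hne : ∃ r : ℝ, 0 < r ∧ r⁻¹ • z ∈ R
    · set A : Set ℝ := {r | 0 < r ∧ r⁻¹ • z ∈ R} with hA
      have hAne : A.Nonempty := hne
      have hAb : BddBelow A := ⟨0, fun r hr => hr.1.le⟩
      set r0 := sInf A with hr0
      have h1 : ∫⁻ r : ℝ, q (z, r) ≤ ENNReal.ofReal (Real.exp (-r0)) := by
        calc ∫⁻ r : ℝ, q (z, r) ≤ ∫⁻ r : ℝ in Ici r0, ENNReal.ofReal (Real.exp (-r)) := by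
              rw [← lintegral_indicator measurableSet_Ici]
              refine lintegral_mono fun r => ?_
              by_cases hr : (z, r) ∈ T
              · have h2 : r ∈ Ici r0 := csInf_le hAb hr
                rw [hq, indicator_of_mem hr, indicator_of_mem h2]
              · rw [hq, indicator_of_notMem hr]; exact zero_le
          _ = ∫⁻ r : ℝ in Ioi r0, ENNReal.ofReal (Real.exp (-r)) :=
              setLIntegral_congr Ioi_ae_eq_Ici.symm
          _ = ENNReal.ofReal (∫ r : ℝ in Ioi r0, Real.exp (-r)) := by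
              rw [ofReal_integral_eq_lintegral_ofReal (integrableOn_exp_neg_Ioi r0)]
              exact Eventually.of_forall fun r => (Real.exp_pos _).le
          _ = ENNReal.ofReal (Real.exp (-r0)) := by rw [integral_exp_neg_Ioi]
      have h3 : ∀ r ∈ A, ENNReal.ofReal (2 * Real.exp (-r)) ≤ I z := fun r hr => hz r hr.1 hr.2
      obtain ⟨u, -, hu1, hu2⟩ := exists_seq_tendsto_sInf hAne hAb
      have h4 : Tendsto (fun k => ENNReal.ofReal (2 * Real.exp (-u k))) atTop
          (𝓝 (ENNReal.ofReal (2 * Real.exp (-r0)))) := by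
        refine (ENNReal.continuous_ofReal.tendsto _).comp ?_
        exact ((Real.continuous_exp.tendsto _).comp hu1.neg).const_mul 2
      have h5 : ENNReal.ofReal (2 * Real.exp (-r0)) ≤ I z :=
        le_of_tendsto' h4 fun k => h3 _ (hu2 k)
      calc 2 * ∫⁻ r : ℝ, q (z, r) ≤ 2 * ENNReal.ofReal (Real.exp (-r0)) := by gcongr
        _ = ENNReal.ofReal (2 * Real.exp (-r0)) := by
            rw [ENNReal.ofReal_mul (by norm_num)]; norm_num
        _ ≤ I z := h5
    · have h1 : ∀ r : ℝ, q (z, r) = 0 := by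
        intro r
        rw [hq, indicator_of_notMem]
        intro hr
        exact hne ⟨r, hr⟩
      simp only [h1, lintegral_zero, mul_zero]
      exact zero_le
  -- Tonelli
  have hfub : ∫⁻ z, ∫⁻ r : ℝ, q (z, r) ∂volume ∂μ = ENNReal.ofReal (d.factorial) * μ R := by
    rw [lintegral_lintegral_swap (f := fun z r => q (z, r)) hqm.aemeasurable]
    have h1 : ∀ r : ℝ, ∫⁻ z, q (z, r) ∂μ =
        (Ioi (0:ℝ)).indicator (fun r => ENNReal.ofReal (Real.exp (-r) * r ^ d)) r * μ R := by
      intro r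
      by_cases hr : 0 < r
      · have h2 : ∀ z, q (z, r) = (r • R).indicator (fun _ => ENNReal.ofReal (Real.exp (-r))) z := by
          intro z
          by_cases hz : z ∈ r • R
          · have : (z, r) ∈ T := ⟨hr, (mem_smul_set_iff_inv_smul_mem₀ hr.ne' _ _).mp hz⟩
            rw [hq, indicator_of_mem this, indicator_of_mem hz]
          · have : (z, r) ∉ T := fun h => hz ((mem_smul_set_iff_inv_smul_mem₀ hr.ne' _ _).mpr h.2)
            rw [hq, indicator_of_notMem this, indicator_of_notMem hz]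
        simp only [h2]
        rw [lintegral_indicator_const (hR.const_smul₀ r), Measure.addHaar_smul,
          indicator_of_mem (show r ∈ Ioi (0:ℝ) from hr), ← hd, abs_of_pos (pow_pos hr d),
          ENNReal.ofReal_mul (Real.exp_pos _).le, mul_assoc]
      · have h2 : ∀ z, q (z, r) = 0 := by
          intro z
          rw [hq, indicator_of_notMem]
          exact fun h => hr h.1
        simp only [h2, lintegral_zero]
        rw [indicator_of_notMem (show r ∉ Ioi (0:ℝ) from hr), zero_mul]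
    simp only [h1]
    have hmi : Measurable ((Ioi (0:ℝ)).indicator
        (fun r => ENNReal.ofReal (Real.exp (-r) * r ^ d))) := by
      refine Measurable.indicator ?_ measurableSet_Ioi
      exact ((Real.measurable_exp.comp measurable_neg).mul (measurable_id.pow_const d)).ennreal_ofReal
    rw [lintegral_mul_const _ hmi, lintegral_indicator measurableSet_Ioi]
    congr 1
    have hg := Real.Gamma_eq_integral (s := (d:ℝ) + 1) (by positivity)
    rw [Real.Gamma_nat_eq_factorial] at hg
    rw [hg, ofReal_integral_eq_lintegral_ofReal]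
    · refine setLIntegral_congr_fun measurableSet_Ioi fun r hr => ?_
      simp only [add_sub_cancel_right, Real.rpow_natCast]
    · exact Real.GammaIntegral_convergent (by positivity)
    · filter_upwards [ae_restrict_mem measurableSet_Ioi] with r hr
      have hr' : (0:ℝ) < r := hr
      positivity
  calc ENNReal.ofReal (2 * (d.factorial : ℝ)) * μ R
      = 2 * (ENNReal.ofReal (d.factorial) * μ R) := by
        rw [ENNReal.ofReal_mul (by norm_num), mul_assoc]; norm_num
    _ = ∫⁻ z, 2 * ∫⁻ r : ℝ, q (z, r) ∂volume ∂μ := by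
        rw [← hfub, lintegral_const_mul]
        exact hqm.lintegral_prod_right'
    _ ≤ ∫⁻ z, I z ∂μ := lintegral_mono_ae hpt

/-- (K4) the flux in direction `(x, 1)` bounds the volume of the reflection body -/
theorem slope_ge' {K : Set E} (hK : ∀ k ∈ K, ((k, 1) : E × ℝ) ∈ F.G) (hh : ∀ p, F.h p = p.2)
    (x : E) (hm : MeasurableSet (RB K x)) :
    ENNReal.ofReal (2 * (Module.finrank ℝ E).factorial) * μ (RB K x) ≤
      ∫⁻ y, ENNReal.ofReal |F.gr y (x, 1)| ∂(F.eN (μ.prod volume)) := by
  rw [F.lintegral_flux μ x]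
  have h1 : μ (RB K x) = μ ((fun z => x + z) ⁻¹' RB K x) := (measure_preimage_add μ x _).symm
  rw [h1]
  refine layer μ (hm.preimage (measurable_const_add x)) ?_
  filter_upwards [F.flux_ge μ hK hh x] with z hz r hr hp
  exact hz r hr hp

end Frame

end Pool.Agent.FR
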