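import Pool.Agent.Lib.MP_725e58_gt.FR.Conc

/-! Integration over the cone over a convex body, and the Gamma moments. -/

set_option autoImplicit false

namespace Pool.Agent.FR

open MeasureTheory Set Filter Topology
open scoped ENNReal NNReal

section K2

variable {E : Type*} [NormedAddCommGroup E] [NormedSpace ℝ E] [FiniteDimensional ℝ E]
variable [MeasurableSpace E] [BorelSpace E] (μ : Measure E) [μ.IsAddHaarMeasure]

/-- integration over a homothetic image -/
lemma lintegral_smul_set (K : Set E) {r : ℝ} (hr : 0 < r) (f : E → ℝ≥0∞) :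
    ∫⁻ z in (fun x => r • x) '' K, f z ∂μ =
      ENNReal.ofReal (r ^ Module.finrank ℝ E) * ∫⁻ x in K, f (r • x) ∂μ := by
  have hr0 : r ≠ 0 := hr.ne'
  have hemb : MeasurableEmbedding (fun x : E => r • x) :=
    (Homeomorph.smulOfNeZero r hr0).measurableEmbedding
  have h1 : ∫⁻ z in (fun x => r • x) '' K, f z ∂(Measure.map (fun x => r • x) μ) =
      ∫⁻ x in K, f (r • x) ∂μ := by
    rw [hemb.restrict_map, hemb.lintegral_map, preimage_image_eq _ hemb.injective]
  rw [Measure.map_addHaar_smul μ hr0, Measure.restrict_smul, lintegral_smul_measure] at h1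
  rw [← h1, smul_eq_mul, ← mul_assoc, ← ENNReal.ofReal_mul (by positivity)]
  rw [abs_of_pos (by positivity), mul_inv_cancel₀ (by positivity), ENNReal.ofReal_one, one_mul]

/-- the cone formula -/
theorem lintegral_cone {K : Set E} (hc : IsCompact K) {f : E × ℝ → ℝ≥0∞} (hf : Measurable f) :
    ∫⁻ a in coneOf K, f a ∂(μ.prod (volume : Measure ℝ)) =
      ∫⁻ r in Ioi (0 : ℝ), ENNReal.ofReal (r ^ Module.finrank ℝ E) *
        ∫⁻ x in K, f (r • x, r) ∂μ := by
  have hmC : MeasurableSet (coneOf K) := (coneOf_closed hc).measurableSet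
  rw [← lintegral_indicator hmC, lintegral_prod_symm _ (hf.indicator hmC).aemeasurable]
  rw [← lintegral_indicator measurableSet_Ioi]
  refine lintegral_congr_ae ?_
  have h0 : ∀ᵐ r : ℝ ∂volume, r ≠ 0 := by
    have : volume ({0} : Set ℝ) = 0 := by simp
    exact compl_mem_ae_iff.mpr this
  filter_upwards [h0] with r hr
  rcases lt_or_gt_of_ne hr with h | h
  · rw [indicator_of_notMem (by simpa using h.le)]
    have : ∀ z : E, (coneOf K).indicator f (z, r) = 0 := by
      intro z
      apply indicator_of_notMem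
      rintro ⟨h1, -⟩
      exact absurd h1 (not_le.mpr h)
    simp [this]
  · rw [indicator_of_mem (by exact h)]
    have hsm := lintegral_smul_set μ K h (fun z => f (z, r))
    rw [← hsm]
    have hms : MeasurableSet ((fun x => r • x) '' K) :=
      (hc.image (continuous_const_smul r)).measurableSet
    rw [← lintegral_indicator hms]
    refine lintegral_congr fun z => ?_
    by_cases hz : z ∈ (fun x => r • x) '' K
    · rw [indicator_of_mem hz]
      obtain ⟨x, hx, rfl⟩ := hz
      exact indicator_of_mem (show ((fun x => r • x) x, r) ∈ coneOf K from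
        ⟨h.le, x, hx, rfl⟩) f
    · rw [indicator_of_notMem hz, indicator_of_notMem]
      rintro ⟨-, x, hx, hzx⟩
      exact hz ⟨x, hx, hzx.symm⟩

/-- Gamma integral -/
lemma lintegral_gamma (m : ℕ) {s : ℝ} (hs : 0 < s) :
    ∫⁻ r in Ioi (0 : ℝ), ENNReal.ofReal (r ^ m * Real.exp (-(s * r))) =
      ENNReal.ofReal (m.factorial / s ^ (m + 1)) := by
  have hform : ∀ r ∈ Ioi (0 : ℝ), r ^ ((m + 1 : ℝ) - 1) * Real.exp (-(s * r)) =
      r ^ m * Real.exp (-(s * r)) := by
    intro r hr
    rw [add_sub_cancel_right, Real.rpow_natCast]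
  have hint : ∫ r in Ioi (0 : ℝ), r ^ m * Real.exp (-(s * r)) = m.factorial / s ^ (m + 1) := by
    have h := Real.integral_rpow_mul_exp_neg_mul_Ioi (a := (m + 1 : ℝ)) (r := s) (by positivity) hs
    rw [setIntegral_congr_fun measurableSet_Ioi hform] at h
    rw [h, Real.Gamma_nat_eq_factorial]
    have : (m + 1 : ℝ) = ((m + 1 : ℕ) : ℝ) := by push_cast; ring
    rw [this, Real.rpow_natCast, one_div, inv_pow]
    field_simp
  have hfin : Integrable (fun r : ℝ => r ^ m * Real.exp (-(s * r))) (volume.restrict (Ioi 0)) := by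
    by_contra hcon
    have h0 := integral_undef hcon
    rw [hint] at h0
    have : 0 < (m.factorial : ℝ) / s ^ (m + 1) := by positivity
    linarith
  rw [← hint, ofReal_integral_eq_lintegral_ofReal hfin]
  filter_upwards [ae_restrict_mem measurableSet_Ioi] with r hr
  have hr : 0 < r := hr
  positivity

/-- (K2) the Gamma moments of the cone -/
theorem frameOf_mom {K : Set E} (hc : IsCompact K) (hv : Convex ℝ K)
    (hi : (interior K).Nonempty) :
    (frameOf K hc hv hi).Mom (μ.prod (volume : Measure ℝ)) (Module.finrank ℝ E + 1)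
      ((Module.finrank ℝ E).factorial * (μ K).toReal) := by
  have hK0 : μ K ≠ 0 := by
    intro h0
    have := isOpen_interior.measure_pos μ hi
    exact absurd (measure_mono_null interior_subset h0) this.ne'
  have hKt : μ K ≠ ∞ := hc.measure_lt_top.ne
  have hKp : 0 < (μ K).toReal := ENNReal.toReal_pos hK0 hKt
  refine ⟨by positivity, ?_⟩
  intro k s hs
  set d := Module.finrank ℝ E with hd
  have hm : Measurable (fun a : E × ℝ => ENNReal.ofReal ((frameOf K hc hv hi).h a ^ k)) :=
    ((frameOf K hc hv hi).measurable_h.pow_const k).ennreal_ofReal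
  rw [(frameOf K hc hv hi).lintegral_ex (μ.prod (volume : Measure ℝ)) s hm]
  show ∫⁻ a in coneOf K, ENNReal.ofReal (Real.exp (-(s * a.2))) * ENNReal.ofReal (a.2 ^ k)
    ∂(μ.prod (volume : Measure ℝ)) = _
  rw [lintegral_cone μ hc (by fun_prop)]
  simp only [lintegral_const, Measure.restrict_apply MeasurableSet.univ, univ_inter]
  have hstep : ∀ r ∈ Ioi (0 : ℝ), ENNReal.ofReal (r ^ Module.finrank ℝ E) *
      (ENNReal.ofReal (Real.exp (-(s * r))) * ENNReal.ofReal (r ^ k) * μ K) =
      ENNReal.ofReal (r ^ (d + k) * Real.exp (-(s * r))) * μ K := by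
    intro r hr
    have hr : 0 < r := hr
    rw [← mul_assoc, ← ENNReal.ofReal_mul (by positivity), ← ENNReal.ofReal_mul (by positivity)]
    congr 2
    rw [pow_add]
    ring
  rw [setLIntegral_congr_fun measurableSet_Ioi hstep, lintegral_mul_const _ (by fun_prop),
    lintegral_gamma (d + k) hs]
  conv_lhs => rw [← ENNReal.ofReal_toReal hKt]
  rw [← ENNReal.ofReal_mul (by positivity)]
  congr 1
  have hfac : ((d + 1).ascFactorial k : ℝ) * d.factorial = (d + k).factorial := by
    have := Nat.factorial_mul_ascFactorial d k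
    rw [← this]
    push_cast
    ring
  have he : d + 1 + k = d + k + 1 := by ring
  rw [he, ← hfac]
  ring

end K2

end Pool.Agent.FR
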