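import Pool.Agent.Lib.MP_725e58_gt.FR.Lim81

/-! The derivative of the scaled density. -/

set_option autoImplicit false

namespace Pool.Agent.FR

open MeasureTheory Set Filter Topology
open scoped ENNReal NNReal

namespace Frame

variable {V : Type*} [NormedAddCommGroup V] [NormedSpace ℝ V] (F : Frame V)

/-- the exponent of the scaled density -/
noncomputable def xt (t : ℝ) (p : V × V) : ℝ := t / (1 + t) * F.h p.1 - t / (1 - t) * F.h p.2

lemma hasDerivAt_xt (p : V × V) : HasDerivAt (fun t : ℝ => F.xt t p) (F.h p.1 - F.h p.2) 0 := by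
  have h1 : HasDerivAt (fun t : ℝ => t / (1 + t)) 1 0 := by
    have h : HasDerivAt (fun t : ℝ => t / (1 + t)) ((1 * (1 + 0) - 0 * 1) / (1 + 0) ^ 2) 0 :=
      (hasDerivAt_id (0 : ℝ)).div ((hasDerivAt_id (0 : ℝ)).const_add 1) (by norm_num)
    have e : ((1 : ℝ) * (1 + 0) - 0 * 1) / (1 + 0) ^ 2 = 1 := by norm_num
    rwa [e] at h
  have h2 : HasDerivAt (fun t : ℝ => t / (1 - t)) 1 0 := by
    have h : HasDerivAt (fun t : ℝ => t / (1 - t)) ((1 * (1 - 0) - 0 * -1) / (1 - 0) ^ 2) 0 :=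
      (hasDerivAt_id (0 : ℝ)).div ((hasDerivAt_id (0 : ℝ)).const_sub 1) (by norm_num)
    have e : ((1 : ℝ) * (1 - 0) - 0 * -1) / (1 - 0) ^ 2 = 1 := by norm_num
    rwa [e] at h
  have h3 : HasDerivAt (fun t : ℝ => t / (1 + t) * F.h p.1 - t / (1 - t) * F.h p.2)
      (1 * F.h p.1 - 1 * F.h p.2) 0 := (h1.mul_const (F.h p.1)).sub (h2.mul_const (F.h p.2))
  rw [one_mul, one_mul] at h3
  exact h3

lemma xt_zero (p : V × V) : F.xt 0 p = 0 := by simp [xt]

lemma xt_le {t : ℝ} (t0 : 0 < t) (t1 : t ≤ 1 / 2) {p : V × V} (h1 : p.1 ∈ F.G) (h2 : p.2 ∈ F.G) :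
    F.xt t p ≤ 1 / 2 * F.h p.1 := by
  have a1 := F.h_nonneg h1
  have a2 := F.h_nonneg h2
  have b1 : t / (1 + t) ≤ 1 / 2 := by
    rw [div_le_iff₀ (by linarith)]; linarith
  have b2 : 0 ≤ t / (1 - t) := div_nonneg t0.le (by linarith)
  have c1 : t / (1 + t) * F.h p.1 ≤ 1 / 2 * F.h p.1 := mul_le_mul_of_nonneg_right b1 a1
  have c2 : 0 ≤ t / (1 - t) * F.h p.2 := mul_nonneg b2 a2
  unfold xt; linarith

lemma abs_xt_le {t : ℝ} (t0 : 0 < t) (t1 : t ≤ 1 / 2) {p : V × V} (h1 : p.1 ∈ F.G)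
    (h2 : p.2 ∈ F.G) : |F.xt t p| ≤ t * (F.h p.1 + 2 * F.h p.2) := by
  have a1 := F.h_nonneg h1
  have a2 := F.h_nonneg h2
  have b1 : t / (1 + t) ≤ t := by
    rw [div_le_iff₀ (by linarith)]; nlinarith
  have b1' : 0 ≤ t / (1 + t) := by positivity
  have b2 : t / (1 - t) ≤ 2 * t := by
    rw [div_le_iff₀ (by linarith)]; nlinarith
  have b2' : 0 ≤ t / (1 - t) := div_nonneg t0.le (by linarith)
  have c1 : t / (1 + t) * F.h p.1 ≤ t * F.h p.1 := mul_le_mul_of_nonneg_right b1 a1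
  have c2 : t / (1 - t) * F.h p.2 ≤ 2 * t * F.h p.2 := mul_le_mul_of_nonneg_right b2 a2
  have c1' : 0 ≤ t / (1 + t) * F.h p.1 := mul_nonneg b1' a1
  have c2' : 0 ≤ t / (1 - t) * F.h p.2 := mul_nonneg b2' a2
  have d1 : 0 ≤ t * F.h p.1 := mul_nonneg t0.le a1
  have d2 : 0 ≤ t * F.h p.2 := mul_nonneg t0.le a2
  rw [abs_le]
  unfold xt
  constructor <;> linarith

lemma abs_exp_sub_one_le' {x m : ℝ} (hm : 0 ≤ m) (hx : x ≤ m) :
    |Real.exp x - 1| ≤ |x| * Real.exp m := by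
  have hem : 1 ≤ Real.exp m := Real.one_le_exp hm
  rcases le_total 0 x with h | h
  · have h1 := Real.one_le_exp h
    rw [abs_of_nonneg (by linarith), abs_of_nonneg h]
    have h2 := Real.add_one_le_exp (-x)
    have h3 : Real.exp x * Real.exp (-x) = 1 := by rw [← Real.exp_add]; simp
    have h4 : Real.exp x ≤ Real.exp m := Real.exp_le_exp.mpr hx
    have h5 : Real.exp x * (-x + 1) ≤ Real.exp x * Real.exp (-x) := by gcongr
    have h6 : x * Real.exp x ≤ x * Real.exp m := by gcongr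
    linarith
  · have h1 : Real.exp x ≤ 1 := Real.exp_le_one_iff.mpr h
    rw [abs_of_nonpos (by linarith), abs_of_nonpos h]
    have h2 := Real.add_one_le_exp x
    nlinarith

variable [FiniteDimensional ℝ V] [MeasurableSpace V] [BorelSpace V] (ν : Measure V)
  [ν.IsAddHaarMeasure]
variable {n : ℕ} {Z : ℝ}

omit [FiniteDimensional ℝ V] in
lemma measurable_xt (t : ℝ) : Measurable (F.xt t) := by
  unfold xt
  exact ((F.measurable_h.comp measurable_fst).const_mul _).sub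
    ((F.measurable_h.comp measurable_snd).const_mul _)

omit [FiniteDimensional ℝ V] [ν.IsAddHaarMeasure] in
lemma integrable_bd1 (hM : F.Mom ν n Z) :
    Integrable (fun p : V × V => Real.exp (1 / 2 * F.h p.1)) ((F.ex ν 1).prod (F.ex ν 1)) := by
  have := Mom.finite_ex F hM one_pos
  have h1 := Mom.integrable_pow_exp hM 0 (s := 1) (c := 1 / 2) (by norm_num)
  simp only [pow_zero, mul_one] at h1
  exact h1.comp_fst (F.ex ν 1)

omit [FiniteDimensional ℝ V] [ν.IsAddHaarMeasure] in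
lemma integrable_bd2 (hM : F.Mom ν n Z) :
    Integrable (fun p : V × V => (F.h p.1 + 2 * F.h p.2) * Real.exp (1 / 2 * F.h p.1))
      ((F.ex ν 1).prod (F.ex ν 1)) := by
  have := Mom.finite_ex F hM one_pos
  have h0 := Mom.integrable_pow_exp hM 0 (s := 1) (c := 1 / 2) (by norm_num)
  simp only [pow_zero, mul_one] at h0
  have h1 := Mom.integrable_pow_exp hM 1 (s := 1) (c := 1 / 2) (by norm_num)
  simp only [pow_one] at h1
  have h2 := hM.integrable_h one_pos
  have h3 := (h1.comp_fst (F.ex ν 1)).add ((h0.mul_prod h2).const_mul 2)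
  refine h3.congr (Eventually.of_forall fun p => ?_)
  simp only [Pi.add_apply]
  ring

/-- (G1) derivative of the scaled density against a bounded function -/
theorem dscale (hM : F.Mom ν n Z) {L : ℝ} {w : V × V → ℝ} (hw : Measurable w)
    (hL : ∀ p, |w p| ≤ L) :
    Tendsto (fun t : ℝ => t⁻¹ * ∫ p : V × V, (F.rt n t p - 1) * w p
          ∂((F.ex ν 1).prod (F.ex ν 1))) (𝓝[>] 0)
      (𝓝 (∫ p : V × V, (F.h p.1 - F.h p.2) * w p ∂((F.ex ν 1).prod (F.ex ν 1)))) := by
  set P := (F.ex ν 1).prod (F.ex ν 1) with hP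
  have hfin := Mom.finite_ex F hM one_pos
  have hexm : ∀ t : ℝ, Measurable (fun p : V × V => Real.exp (F.xt t p)) := fun t =>
    Real.measurable_exp.comp (F.measurable_xt t)
  have hle : ∀ᶠ t : ℝ in 𝓝[>] 0, t ≤ 1 / 2 := by
    filter_upwards [mem_nhdsWithin_of_mem_nhds (Iio_mem_nhds (show (0 : ℝ) < 1 / 2 by norm_num))]
      with t ht using le_of_lt ht
  -- first part
  have hb1 : ∀ t : ℝ, 0 < t → t ≤ 1 / 2 → ∀ᵐ p ∂P, ‖Real.exp (F.xt t p) * w p‖ ≤
      Real.exp (1 / 2 * F.h p.1) * L := by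
    intro t t0 t1
    filter_upwards [F.ae_prod_mem ν 1 1] with p hp
    rw [norm_mul, Real.norm_eq_abs, Real.norm_eq_abs, abs_of_pos (Real.exp_pos _)]
    have := F.xt_le t0 t1 hp.1 hp.2
    have hl := hL p
    gcongr
  have T1 : Tendsto (fun t : ℝ => ∫ p : V × V, Real.exp (F.xt t p) * w p ∂P) (𝓝[>] 0)
      (𝓝 (∫ p : V × V, 1 * w p ∂P)) := by
    refine tendsto_integral_filter_of_dominated_convergence
      (fun p => Real.exp (1 / 2 * F.h p.1) * L)
      (Eventually.of_forall fun t => ((hexm t).mul hw).aestronglyMeasurable) ?_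
      ((F.integrable_bd1 ν hM).mul_const L) ?_
    · filter_upwards [self_mem_nhdsWithin, hle] with t ht t1 using hb1 t ht t1
    · refine Eventually.of_forall fun p => ?_
      have h1 : Tendsto (fun t : ℝ => Real.exp (F.xt t p)) (𝓝[>] 0) (𝓝 (Real.exp (F.xt 0 p))) :=
        ((Real.continuous_exp.tendsto _).comp (F.hasDerivAt_xt p).continuousAt.tendsto).mono_left
          nhdsWithin_le_nhds
      rw [F.xt_zero, Real.exp_zero] at h1
      exact h1.mul_const _
  -- second part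
  have hb2 : ∀ t : ℝ, 0 < t → t ≤ 1 / 2 → ∀ᵐ p ∂P, ‖t⁻¹ * (Real.exp (F.xt t p) - 1) * w p‖ ≤
      (F.h p.1 + 2 * F.h p.2) * Real.exp (1 / 2 * F.h p.1) * L := by
    intro t t0 t1
    filter_upwards [F.ae_prod_mem ν 1 1] with p hp
    rw [norm_mul, Real.norm_eq_abs, Real.norm_eq_abs, abs_mul, abs_of_pos (inv_pos.mpr t0)]
    have a1 := F.h_nonneg hp.1
    have a2 := F.h_nonneg hp.2
    have h1 := abs_exp_sub_one_le' (m := 1 / 2 * F.h p.1) (by positivity)
      (F.xt_le t0 t1 hp.1 hp.2)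
    have h2 := F.abs_xt_le t0 t1 hp.1 hp.2
    have h3 : t⁻¹ * |Real.exp (F.xt t p) - 1| ≤
        (F.h p.1 + 2 * F.h p.2) * Real.exp (1 / 2 * F.h p.1) := by
      rw [inv_mul_le_iff₀ t0]
      calc |Real.exp (F.xt t p) - 1| ≤ |F.xt t p| * Real.exp (1 / 2 * F.h p.1) := h1
        _ ≤ t * (F.h p.1 + 2 * F.h p.2) * Real.exp (1 / 2 * F.h p.1) := by gcongr
        _ = _ := by ring
    have hl := hL p
    gcongr
  have T2 : Tendsto (fun t : ℝ => ∫ p : V × V, t⁻¹ * (Real.exp (F.xt t p) - 1) * w p ∂P) (𝓝[>] 0)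
      (𝓝 (∫ p : V × V, (F.h p.1 - F.h p.2) * w p ∂P)) := by
    refine tendsto_integral_filter_of_dominated_convergence
      (fun p => (F.h p.1 + 2 * F.h p.2) * Real.exp (1 / 2 * F.h p.1) * L)
      (Eventually.of_forall fun t =>
        ((((hexm t).sub_const 1).const_mul t⁻¹).mul hw).aestronglyMeasurable) ?_
      ((F.integrable_bd2 ν hM).mul_const L) ?_
    · filter_upwards [self_mem_nhdsWithin, hle] with t ht t1 using hb2 t ht t1
    · refine Eventually.of_forall fun p => ?_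
      have h1 : HasDerivAt (fun t : ℝ => Real.exp (F.xt t p)) (F.h p.1 - F.h p.2) 0 := by
        have := (F.hasDerivAt_xt p).exp
        simpa [F.xt_zero] using this
      have h2 := h1.tendsto_slope_zero_right
      simp only [zero_add, F.xt_zero, Real.exp_zero, smul_eq_mul] at h2
      exact h2.mul_const _
  -- the prefactor
  have T3 : Tendsto (fun t : ℝ => t⁻¹ * (((1 - t ^ 2) ^ n)⁻¹ - 1)) (𝓝[>] 0) (𝓝 0) := by
    have h1 : HasDerivAt (fun t : ℝ => ((1 - t ^ 2) ^ n)⁻¹) 0 0 := by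
      have h2 : HasDerivAt (fun t : ℝ => 1 - t ^ 2) 0 0 := by
        have := ((hasDerivAt_id (0 : ℝ)).pow 2).const_sub 1
        simpa using this
      have h3 : HasDerivAt (fun t : ℝ => ((1 - t ^ 2) ^ n)⁻¹)
          (-(↑n * (1 - (0 : ℝ) ^ 2) ^ (n - 1) * 0) / ((1 - (0 : ℝ) ^ 2) ^ n) ^ 2) 0 :=
        (h2.pow n).inv (by norm_num)
      simpa using h3
    have h2 := h1.tendsto_slope_zero_right
    simpa using h2
  have T := (T3.mul T1).add T2
  rw [zero_mul, zero_add] at T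
  refine T.congr' ?_
  filter_upwards [self_mem_nhdsWithin, hle] with t t0 t1
  have t0 : (0 : ℝ) < t := t0
  have i1 : Integrable (fun p : V × V => Real.exp (F.xt t p) * w p) P :=
    ((F.integrable_bd1 ν hM).mul_const L).mono' ((hexm t).mul hw).aestronglyMeasurable
      (hb1 t t0 t1)
  have i2 : Integrable (fun p : V × V => t⁻¹ * (Real.exp (F.xt t p) - 1) * w p) P :=
    ((F.integrable_bd2 ν hM).mul_const L).mono'
      ((((hexm t).sub_const 1).const_mul t⁻¹).mul hw).aestronglyMeasurable (hb2 t t0 t1)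
  rw [← integral_const_mul, ← integral_add (i1.const_mul _) i2, ← integral_const_mul]
  refine integral_congr_ae (Eventually.of_forall fun p => ?_)
  simp only [rt]
  change t⁻¹ * (((1 - t ^ 2) ^ n)⁻¹ - 1) * (Real.exp (F.xt t p) * w p) +
    t⁻¹ * (Real.exp (F.xt t p) - 1) * w p =
    t⁻¹ * ((((1 - t ^ 2) ^ n)⁻¹ * Real.exp (F.xt t p) - 1) * w p)
  ring

end Frame

end Pool.Agent.FR
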