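import Pool.Agent.Lib.MP_725e58_gt.FR.MomLem

/-! The Rogers-Shephard embedding, scaling of the exponential laws, the mean of the norm of a
difference. -/

set_option autoImplicit false

namespace Pool.Agent.FR

open MeasureTheory Set Filter Topology
open scoped ENNReal NNReal

namespace Frame

variable {V : Type*} [NormedAddCommGroup V] [NormedSpace ℝ V] (F : Frame V)

/-- the density of `ex s` with respect to `ν` -/
noncomputable def dens (s : ℝ) : V → ℝ≥0∞ :=
  F.G.indicator (fun a => ENNReal.ofReal (Real.exp (-(s * F.h a))))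

lemma dens_of_mem (s : ℝ) {a : V} (ha : a ∈ F.G) :
    F.dens s a = ENNReal.ofReal (Real.exp (-(s * F.h a))) := indicator_of_mem ha _

lemma dens_of_notMem (s : ℝ) {a : V} (ha : a ∉ F.G) : F.dens s a = 0 := indicator_of_notMem ha _

lemma measurable_dens [MeasurableSpace V] [BorelSpace V] (s : ℝ) : Measurable (F.dens s) := by
  refine Measurable.indicator ?_ F.measurableSet_G
  exact (Real.measurable_exp.comp ((F.measurable_h.const_mul s).neg)).ennreal_ofReal

lemma ex_eq [MeasurableSpace V] [BorelSpace V] (ν : Measure V) (s : ℝ) :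
    F.ex ν s = ν.withDensity (F.dens s) := by
  unfold ex dens
  rw [withDensity_indicator F.measurableSet_G]

variable [FiniteDimensional ℝ V] [MeasurableSpace V] [BorelSpace V] (ν : Measure V)
  [ν.IsAddHaarMeasure]

instance (s : ℝ) : SFinite (F.ex ν s) := by rw [F.ex_eq ν s]; infer_instance

instance : SFinite (F.eN ν) := by unfold eN; infer_instance

omit [FiniteDimensional ℝ V] [ν.IsAddHaarMeasure] in
lemma lint_ex (s : ℝ) {f : V → ℝ≥0∞} (hf : Measurable f) :
    ∫⁻ a, f a ∂(F.ex ν s) = ∫⁻ a, F.dens s a * f a ∂ν := by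
  rw [F.ex_eq ν s, lintegral_withDensity_eq_lintegral_mul _ (F.measurable_dens s) hf]
  rfl

omit [ν.IsAddHaarMeasure] in
lemma lint_eN {f : V → ℝ≥0∞} (hf : Measurable f) :
    ∫⁻ y, f y ∂(F.eN ν) = ∫⁻ y, ENNReal.ofReal (Real.exp (-F.N y)) * f y ∂ν := by
  unfold eN
  rw [lintegral_withDensity_eq_lintegral_mul _ _ hf]
  · rfl
  · exact (Real.measurable_exp.comp F.continuous_N.measurable.neg).ennreal_ofReal

lemma lint_ex2 (s t : ℝ) {Φ : V × V → ℝ≥0∞} (hΦ : Measurable Φ) :
    ∫⁻ p, Φ p ∂((F.ex ν s).prod (F.ex ν t)) =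
      ∫⁻ a, ∫⁻ b, F.dens s a * F.dens t b * Φ (a, b) ∂ν ∂ν := by
  rw [lintegral_prod _ hΦ.aemeasurable, F.lint_ex ν s hΦ.lintegral_prod_right']
  refine lintegral_congr fun a => ?_
  have hc : Measurable (fun b : V => Φ (a, b)) := hΦ.comp measurable_prodMk_left
  have hc2 : Measurable (fun b : V => F.dens t b * Φ (a, b)) := (F.measurable_dens t).mul hc
  rw [F.lint_ex ν t hc, ← lintegral_const_mul _ hc2]
  refine lintegral_congr fun b => ?_
  rw [mul_assoc]

/-- The product of two exponential laws in the coordinates `(a - b, b)`. -/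
lemma lint_diff {Φ : V × V → ℝ≥0∞} (hΦ : Measurable Φ) :
    ∫⁻ p, Φ p ∂((F.ex ν 1).prod (F.ex ν 1)) =
      ∫⁻ y, ∫⁻ u, F.dens 1 (y + u) * F.dens 1 u * Φ (y + u, u) ∂ν ∂ν := by
  have hd := F.measurable_dens 1
  have h1 : Measurable (fun p : V × V => F.dens 1 p.1 * F.dens 1 p.2 * Φ (p.1, p.2)) :=
    ((hd.comp measurable_fst).mul (hd.comp measurable_snd)).mul hΦ
  have h2 : Measurable (fun p : V × V => F.dens 1 (p.1 + p.2) * F.dens 1 p.2 *
      Φ (p.1 + p.2, p.2)) :=
    h1.comp ((measurable_fst.add measurable_snd).prodMk measurable_snd)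
  rw [F.lint_ex2 ν 1 1 hΦ, lintegral_lintegral_swap h1.aemeasurable]
  have h3 : ∀ b : V, ∫⁻ a, F.dens 1 a * F.dens 1 b * Φ (a, b) ∂ν =
      ∫⁻ y, F.dens 1 (y + b) * F.dens 1 b * Φ (y + b, b) ∂ν := fun b =>
    (lintegral_add_right_eq_self (μ := ν) (fun a => F.dens 1 a * F.dens 1 b * Φ (a, b)) b).symm
  simp_rw [h3]
  exact lintegral_lintegral_swap (h2.comp measurable_swap).aemeasurable

/-- (D) the Rogers-Shephard embedding -/
theorem embed {H G' : V × V → ℝ≥0∞} (hH : Measurable H) (hG : Measurable G')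
    (hle : ∀ᵐ y ∂ν, ∀ a ∈ F.G, ∀ b ∈ F.G, y = a - b → F.N y = F.h a + F.h b →
      ∀ᵐ g ∂(ν.restrict F.G), H (y, g) ≤ G' (a + g, b + g)) :
    ∫⁻ p, H p ∂((F.eN ν).prod (F.ex ν 2)) ≤ ∫⁻ p, G' p ∂((F.ex ν 1).prod (F.ex ν 1)) := by
  rw [lintegral_prod _ hH.aemeasurable, F.lint_eN ν hH.lintegral_prod_right', F.lint_diff ν hG]
  refine lintegral_mono_ae ?_
  filter_upwards [hle] with y hley
  obtain ⟨a, ha, b, hb, hy, hN⟩ := F.dec y
  have hd := F.measurable_dens 1
  have hm : Measurable (fun g : V => F.dens 1 (y + (g + b)) * F.dens 1 (g + b) *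
      G' (y + (g + b), g + b)) := by
    have e : Measurable (fun g : V => g + b) := measurable_id.add_const b
    have e' : Measurable (fun g : V => y + (g + b)) := e.const_add y
    exact ((hd.comp e').mul (hd.comp e)).mul (hG.comp (e'.prodMk e))
  have h3 : ∫⁻ u, F.dens 1 (y + u) * F.dens 1 u * G' (y + u, u) ∂ν =
      ∫⁻ g, F.dens 1 (y + (g + b)) * F.dens 1 (g + b) * G' (y + (g + b), g + b) ∂ν :=
    (lintegral_add_right_eq_self (μ := ν)
      (fun u => F.dens 1 (y + u) * F.dens 1 u * G' (y + u, u)) b).symm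
  have hc : Measurable (fun g : V => H (y, g)) := hH.comp measurable_prodMk_left
  have hc2 : Measurable (fun g : V => F.dens 2 g * H (y, g)) := (F.measurable_dens 2).mul hc
  rw [h3, F.lint_ex ν 2 hc, ← lintegral_const_mul _ hc2]
  have h4 : ∀ᵐ g ∂ν, g ∈ F.G → H (y, g) ≤ G' (a + g, b + g) :=
    (ae_restrict_iff' F.measurableSet_G).mp (hley a ha b hb hy hN)
  refine lintegral_mono_ae ?_
  filter_upwards [h4] with g hg
  by_cases hgG : g ∈ F.G
  · have e1 : y + (g + b) = a + g := by rw [hy]; abel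
    have e2 : g + b = b + g := add_comm _ _
    rw [e1, e2, F.dens_of_mem 1 (F.add_mem ha hgG), F.dens_of_mem 1 (F.add_mem hb hgG)]
    rw [F.dens_of_mem 2 hgG, ← mul_assoc, ← ENNReal.ofReal_mul (by positivity),
      ← ENNReal.ofReal_mul (by positivity), ← Real.exp_add, ← Real.exp_add]
    have e3 : -F.N y + -(2 * F.h g) = -(1 * F.h (a + g)) + -(1 * F.h (b + g)) := by
      rw [hN, map_add, map_add]; ring
    rw [e3]
    gcongr
    exact hg hgG
  · rw [F.dens_of_notMem 2 hgG]
    simp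

/-- One factor of the scaling. -/
lemma lint_smul {n : ℕ} (hn : Module.finrank ℝ V = n) {c : ℝ} (c0 : 0 < c)
    {f : V → ℝ≥0∞} (hf : Measurable f) :
    ∫⁻ a, f (c • a) ∂(F.ex ν 1) =
      ENNReal.ofReal ((c ^ n)⁻¹) *
        ∫⁻ a, ENNReal.ofReal (Real.exp ((1 - 1 / c) * F.h a)) * f a ∂(F.ex ν 1) := by
  have hsm : Measurable (fun a : V => c • a) := measurable_const_smul c
  have hexp : Measurable (fun a : V => ENNReal.ofReal (Real.exp ((1 - 1 / c) * F.h a))) :=
    (Real.measurable_exp.comp (F.measurable_h.const_mul _)).ennreal_ofReal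
  have hfc : Measurable (fun a : V => f (c • a)) := hf.comp hsm
  have hef : Measurable (fun a : V => ENNReal.ofReal (Real.exp ((1 - 1 / c) * F.h a)) * f a) :=
    hexp.mul hf
  rw [F.lint_ex ν 1 hfc, F.lint_ex ν 1 hef]
  have h1 : ∀ a : V, F.dens 1 a * f (c • a) = (fun b : V => F.dens 1 (c⁻¹ • b) * f b) (c • a) := by
    intro a
    simp only
    rw [smul_smul, inv_mul_cancel₀ c0.ne', one_smul]
  have hm : Measurable (fun b : V => F.dens 1 (c⁻¹ • b) * f b) :=
    ((F.measurable_dens 1).comp (measurable_const_smul c⁻¹)).mul hf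
  calc ∫⁻ a, F.dens 1 a * f (c • a) ∂ν
      = ∫⁻ a, (fun b : V => F.dens 1 (c⁻¹ • b) * f b) (c • a) ∂ν := by
        refine lintegral_congr fun a => ?_
        exact h1 a
    _ = ∫⁻ b, F.dens 1 (c⁻¹ • b) * f b ∂(Measure.map (fun a : V => c • a) ν) :=
        (lintegral_map hm hsm).symm
    _ = ENNReal.ofReal ((c ^ n)⁻¹) * ∫⁻ b, F.dens 1 (c⁻¹ • b) * f b ∂ν := by
        rw [Measure.map_addHaar_smul ν c0.ne', hn, lintegral_smul_measure,
          abs_of_pos (by positivity)]
        rfl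
    _ = _ := by
        congr 1
        refine lintegral_congr fun b => ?_
        have hiff : c⁻¹ • b ∈ F.G ↔ b ∈ F.G := by
          constructor
          · intro h
            have := F.smul_mem c0.le h
            rwa [smul_smul, mul_inv_cancel₀ c0.ne', one_smul] at this
          · exact fun h => F.smul_mem (by positivity) h
        by_cases hb : b ∈ F.G
        · rw [F.dens_of_mem 1 (hiff.mpr hb), F.dens_of_mem 1 hb]
          rw [← mul_assoc, ← ENNReal.ofReal_mul (by positivity), ← Real.exp_add]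
          congr 3
          rw [map_smul, smul_eq_mul]
          field_simp
          ring
        · rw [F.dens_of_notMem 1 (fun h => hb (hiff.mp h)), F.dens_of_notMem 1 hb]
          simp

/-- (E) scaling -/
theorem scale {n : ℕ} (hn : Module.finrank ℝ V = n) {t : ℝ} (t0 : 0 < t) (t1 : t < 1)
    {Φ : V × V → ℝ≥0∞} (hΦ : Measurable Φ) :
    ∫⁻ p, Φ ((1 + t) • p.1, (1 - t) • p.2) ∂((F.ex ν 1).prod (F.ex ν 1)) =
      ∫⁻ p, ENNReal.ofReal (F.rt n t p) * Φ p ∂((F.ex ν 1).prod (F.ex ν 1)) := by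
  have hc1 : 0 < 1 + t := by linarith
  have hc2 : 0 < 1 - t := by linarith
  have hexp : ∀ c : ℝ, Measurable (fun a : V => ENNReal.ofReal (Real.exp (c * F.h a))) :=
    fun c => (Real.measurable_exp.comp (F.measurable_h.const_mul _)).ennreal_ofReal
  have hm1 : Measurable (fun p : V × V => Φ ((1 + t) • p.1, (1 - t) • p.2)) :=
    hΦ.comp ((measurable_fst.const_smul (1 + t)).prodMk (measurable_snd.const_smul (1 - t)))
  have hrt : Measurable (fun p : V × V => ENNReal.ofReal (F.rt n t p)) := by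
    unfold rt
    refine Measurable.ennreal_ofReal (Measurable.const_mul ?_ _)
    exact Real.measurable_exp.comp ((((F.measurable_h).comp measurable_fst).const_mul _).sub
      (((F.measurable_h).comp measurable_snd).const_mul _))
  have hm2 : Measurable (fun p : V × V => ENNReal.ofReal (F.rt n t p) * Φ p) := hrt.mul hΦ
  rw [lintegral_prod _ hm1.aemeasurable, lintegral_prod _ hm2.aemeasurable]
  -- inner integral
  have h1 : ∀ a : V, ∫⁻ b, Φ ((1 + t) • a, (1 - t) • b) ∂(F.ex ν 1) =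
      (fun a' : V => ENNReal.ofReal (((1 - t) ^ n)⁻¹) *
        ∫⁻ b, ENNReal.ofReal (Real.exp ((1 - 1 / (1 - t)) * F.h b)) * Φ (a', b) ∂(F.ex ν 1))
        ((1 + t) • a) := fun a =>
    F.lint_smul ν hn hc2 (f := fun b => Φ ((1 + t) • a, b)) (hΦ.comp measurable_prodMk_left)
  have hm3 : Measurable (fun p : V × V => ENNReal.ofReal (Real.exp ((1 - 1 / (1 - t)) * F.h p.2)) *
      Φ (p.1, p.2)) := ((hexp _).comp measurable_snd).mul hΦ
  have hm4 : Measurable (fun a' : V => ENNReal.ofReal (((1 - t) ^ n)⁻¹) *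
        ∫⁻ b, ENNReal.ofReal (Real.exp ((1 - 1 / (1 - t)) * F.h b)) * Φ (a', b) ∂(F.ex ν 1)) :=
    hm3.lintegral_prod_right'.const_mul _
  have hm6 : Measurable (fun a : V => ENNReal.ofReal (Real.exp ((1 - 1 / (1 + t)) * F.h a)) *
      (ENNReal.ofReal (((1 - t) ^ n)⁻¹) *
        ∫⁻ b, ENNReal.ofReal (Real.exp ((1 - 1 / (1 - t)) * F.h b)) * Φ (a, b) ∂(F.ex ν 1))) :=
    (hexp _).mul hm4
  simp_rw [h1]
  rw [F.lint_smul ν hn hc1 hm4, ← lintegral_const_mul _ hm6]
  refine lintegral_congr fun a => ?_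
  have hm5 : Measurable (fun b : V => ENNReal.ofReal (Real.exp ((1 - 1 / (1 - t)) * F.h b)) *
      Φ (a, b)) := hm3.comp measurable_prodMk_left
  rw [← mul_assoc, ← mul_assoc, ← lintegral_const_mul _ hm5]
  refine lintegral_congr fun b => ?_
  rw [← mul_assoc]
  congr 1
  rw [← ENNReal.ofReal_mul (by positivity), ← ENNReal.ofReal_mul (by positivity),
    ← ENNReal.ofReal_mul (by positivity)]
  congr 1
  unfold rt
  have e1 : ((1 - t ^ 2) ^ n)⁻¹ = ((1 + t) ^ n)⁻¹ * ((1 - t) ^ n)⁻¹ := by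
    rw [← mul_inv, ← mul_pow]; congr 2; ring
  have e2 : t / (1 + t) * F.h (a, b).1 - t / (1 - t) * F.h (a, b).2 =
      (1 - 1 / (1 + t)) * F.h a + (1 - 1 / (1 - t)) * F.h b := by
    simp only
    field_simp
    ring
  rw [e1, e2, Real.exp_add]
  ring

omit [FiniteDimensional ℝ V] [ν.IsAddHaarMeasure] in
lemma ae_prod_mem (s t : ℝ) :
    ∀ᵐ p ∂((F.ex ν s).prod (F.ex ν t)), p.1 ∈ F.G ∧ p.2 ∈ F.G := by
  filter_upwards [Measure.quasiMeasurePreserving_fst.ae (F.ex_ae_mem ν s),
    Measure.quasiMeasurePreserving_snd.ae (F.ex_ae_mem ν t)] with p h1 h2 using ⟨h1, h2⟩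

variable {n : ℕ} {Z : ℝ}

/-- the autocorrelation of the exponential law -/
noncomputable def Qf (y : V) : ℝ≥0∞ := ∫⁻ u, F.dens 1 (y + u) * F.dens 1 u ∂ν

lemma measurable_Qf : Measurable (F.Qf ν) := by
  have hd := F.measurable_dens 1
  have h2 : Measurable (fun p : V × V => F.dens 1 (p.1 + p.2) * F.dens 1 p.2) :=
    (hd.comp (measurable_fst.add measurable_snd)).mul (hd.comp measurable_snd)
  exact h2.lintegral_prod_right'

lemma lint_diff_fun {f : V → ℝ≥0∞} (hf : Measurable f) :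
    ∫⁻ p, f (p.1 - p.2) ∂((F.ex ν 1).prod (F.ex ν 1)) = ∫⁻ y, f y * F.Qf ν y ∂ν := by
  have hd := F.measurable_dens 1
  have h1 : Measurable (fun p : V × V => f (p.1 - p.2)) :=
    hf.comp (measurable_fst.sub measurable_snd)
  rw [F.lint_diff ν h1]
  refine lintegral_congr fun y => ?_
  have h2 : Measurable (fun u : V => F.dens 1 (y + u) * F.dens 1 u) :=
    (hd.comp (measurable_id.const_add y)).mul hd
  rw [Qf, ← lintegral_const_mul _ h2]
  refine lintegral_congr fun u => ?_
  simp only [add_sub_cancel_right]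
  ring

omit [FiniteDimensional ℝ V] in
/-- `Q ((1 + t) y) ≥ exp (-t N y) Q y` -/
lemma Qf_scale_ge {t : ℝ} (t0 : 0 ≤ t) (y : V) :
    ENNReal.ofReal (Real.exp (-(t * F.N y))) * F.Qf ν y ≤ F.Qf ν ((1 + t) • y) := by
  obtain ⟨a, ha, b, hb, hy, hN⟩ := F.dec y
  have hd := F.measurable_dens 1
  have h2 : Measurable (fun u : V => F.dens 1 (y + u) * F.dens 1 u) :=
    (hd.comp (measurable_id.const_add y)).mul hd
  have h3 : F.Qf ν ((1 + t) • y) =
      ∫⁻ u, F.dens 1 ((1 + t) • y + (u + t • b)) * F.dens 1 (u + t • b) ∂ν :=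
    (lintegral_add_right_eq_self (μ := ν)
      (fun u => F.dens 1 ((1 + t) • y + u) * F.dens 1 u) (t • b)).symm
  rw [h3, Qf, ← lintegral_const_mul _ h2]
  refine lintegral_mono fun u => ?_
  by_cases h4 : y + u ∈ F.G
  · by_cases h5 : u ∈ F.G
    · have e1 : (1 + t) • y + (u + t • b) = (y + u) + t • a := by
        rw [add_smul, one_smul]
        nth_rewrite 2 [hy]
        rw [smul_sub]
        abel
      simp only
      rw [e1, F.dens_of_mem 1 (F.add_mem h4 (F.smul_mem t0 ha)),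
        F.dens_of_mem 1 (F.add_mem h5 (F.smul_mem t0 hb)), F.dens_of_mem 1 h4, F.dens_of_mem 1 h5,
        ← ENNReal.ofReal_mul (by positivity), ← ENNReal.ofReal_mul (by positivity),
        ← ENNReal.ofReal_mul (by positivity), ← Real.exp_add, ← Real.exp_add, ← Real.exp_add]
      refine le_of_eq ?_
      congr 2
      rw [hN, map_add F.h (y + u) (t • a), map_add F.h u (t • b), map_smul, map_smul,
        smul_eq_mul, smul_eq_mul]
      ring
    · rw [F.dens_of_notMem 1 h5]; simp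
  · rw [F.dens_of_notMem 1 h4]; simp

lemma lint_exp_N_le (hn : Module.finrank ℝ V = n) (hM : F.Mom ν n Z) {t : ℝ} (t0 : 0 < t) :
    ∫⁻ p : V × V, ENNReal.ofReal (Real.exp (-(t * F.N (p.1 - p.2))))
      ∂((F.ex ν 1).prod (F.ex ν 1)) ≤ ENNReal.ofReal (((1 + t) ^ n)⁻¹ * Z ^ 2) := by
  have hc : 0 < 1 + t := by linarith
  have hf : Measurable (fun y : V => ENNReal.ofReal (Real.exp (-(t * F.N y)))) :=
    (Real.measurable_exp.comp ((F.continuous_N.measurable.const_mul t).neg)).ennreal_ofReal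
  rw [F.lint_diff_fun ν hf]
  have hZ : ∫⁻ y, F.Qf ν y ∂ν = ENNReal.ofReal (Z ^ 2) := by
    have h1 := F.lint_diff_fun ν (f := fun _ => 1) measurable_const
    simp only [one_mul] at h1
    rw [← h1, lintegral_one, ← univ_prod_univ, Measure.prod_prod, Mom.ex_univ F hM one_pos, one_pow,
      div_one, ← ENNReal.ofReal_mul hM.Zpos.le, sq]
  calc ∫⁻ y, ENNReal.ofReal (Real.exp (-(t * F.N y))) * F.Qf ν y ∂ν
      ≤ ∫⁻ y, F.Qf ν ((1 + t) • y) ∂ν := lintegral_mono fun y => F.Qf_scale_ge ν t0.le y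
    _ = ∫⁻ y, F.Qf ν y ∂(Measure.map (fun a : V => (1 + t) • a) ν) :=
        (lintegral_map (F.measurable_Qf ν) (measurable_const_smul (1 + t))).symm
    _ = ENNReal.ofReal (((1 + t) ^ n)⁻¹) * ∫⁻ y, F.Qf ν y ∂ν := by
        rw [Measure.map_addHaar_smul ν hc.ne', hn, lintegral_smul_measure,
          abs_of_pos (by positivity)]
        rfl
    _ = _ := by rw [hZ, ← ENNReal.ofReal_mul (by positivity)]

omit [FiniteDimensional ℝ V] [MeasurableSpace V] [BorelSpace V] in
lemma N_diff_le {a b : V} (ha : a ∈ F.G) (hb : b ∈ F.G) : F.N (a - b) ≤ F.h a + F.h b :=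
  F.N_le ha hb

lemma Mom.integrable_N {F : Frame V} {ν : Measure V} [ν.IsAddHaarMeasure]
    (hM : F.Mom ν n Z) :
    Integrable (fun p : V × V => F.N (p.1 - p.2)) ((F.ex ν 1).prod (F.ex ν 1)) := by
  have := Mom.finite_ex F hM one_pos
  have h1 : Integrable (fun p : V × V => F.h p.1 + F.h p.2) ((F.ex ν 1).prod (F.ex ν 1)) := by
    have h2 : Integrable (fun a => F.h a) (F.ex ν 1) := by
      simpa using Mom.integrable_pow F hM 1 one_pos
    exact (h2.comp_fst (ν := F.ex ν 1)).add (h2.comp_snd (F.ex ν 1))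
  refine h1.mono' ?_ ?_
  · exact (F.continuous_N.measurable.comp
      (measurable_fst.sub measurable_snd)).aestronglyMeasurable
  · filter_upwards [F.ae_prod_mem ν 1 1] with p hp
    rw [Real.norm_eq_abs, abs_of_nonneg (F.N_nonneg _)]
    exact F.N_le hp.1 hp.2

/-- (H) the mean of the norm of a difference is at least the dimension -/
theorem mean_N (hn : Module.finrank ℝ V = n) (hM : F.Mom ν n Z) :
    n * Z ^ 2 ≤ ∫ p : V × V, F.N (p.1 - p.2) ∂((F.ex ν 1).prod (F.ex ν 1)) := by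
  have := Mom.finite_ex F hM one_pos
  set I := ∫ p : V × V, F.N (p.1 - p.2) ∂((F.ex ν 1).prod (F.ex ν 1)) with hI
  have hZ0 := hM.Zpos
  have key : ∀ t : ℝ, 0 < t → n * Z ^ 2 ≤ (1 + n * t) * I := by
    intro t t0
    have hm : Measurable (fun p : V × V => Real.exp (-(t * F.N (p.1 - p.2)))) :=
      Real.measurable_exp.comp (((F.continuous_N.measurable.comp
        (measurable_fst.sub measurable_snd)).const_mul t).neg)
    have hi1 : Integrable (fun p : V × V => Real.exp (-(t * F.N (p.1 - p.2))))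
        ((F.ex ν 1).prod (F.ex ν 1)) := by
      refine (integrable_const (1 : ℝ)).mono' hm.aestronglyMeasurable ?_
      filter_upwards with p
      rw [Real.norm_eq_abs, abs_of_pos (Real.exp_pos _)]
      refine Real.exp_le_one_iff.mpr ?_
      have := F.N_nonneg (p.1 - p.2)
      have : 0 ≤ t * F.N (p.1 - p.2) := by positivity
      linarith
    have h1 : ∫ p : V × V, Real.exp (-(t * F.N (p.1 - p.2))) ∂((F.ex ν 1).prod (F.ex ν 1)) ≤
        ((1 + t) ^ n)⁻¹ * Z ^ 2 := by
      rw [integral_eq_lintegral_of_nonneg_ae (Filter.Eventually.of_forall fun p =>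
        (Real.exp_pos _).le) hm.aestronglyMeasurable]
      refine ENNReal.toReal_le_of_le_ofReal (by positivity) ?_
      exact F.lint_exp_N_le ν hn hM t0
    have h2 : ∫ p : V × V, (1 - t * F.N (p.1 - p.2)) ∂((F.ex ν 1).prod (F.ex ν 1)) ≤
        ∫ p : V × V, Real.exp (-(t * F.N (p.1 - p.2))) ∂((F.ex ν 1).prod (F.ex ν 1)) := by
      refine integral_mono ((integrable_const _).sub (hM.integrable_N.const_mul t)) hi1
        fun p => ?_
      have := Real.add_one_le_exp (-(t * F.N (p.1 - p.2)))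
      simp only
      linarith
    have h3 : ∫ p : V × V, (1 - t * F.N (p.1 - p.2)) ∂((F.ex ν 1).prod (F.ex ν 1)) =
        Z ^ 2 - t * I := by
      rw [integral_sub (integrable_const _) (hM.integrable_N.const_mul t), integral_const_mul,
        integral_const, smul_eq_mul, mul_one, measureReal_def, ← univ_prod_univ,
        Measure.prod_prod, Mom.ex_univ F hM one_pos, one_pow, div_one, ← ENNReal.ofReal_mul hZ0.le,
        ENNReal.toReal_ofReal (by positivity), sq]
    have h4 : (1 : ℝ) + n * t ≤ (1 + t) ^ n := one_add_mul_le_pow (by linarith) n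
    have hn0 : (0 : ℝ) ≤ n := Nat.cast_nonneg n
    have h5 : 0 < 1 + (n : ℝ) * t := by positivity
    have h6 : Z ^ 2 - t * I ≤ (1 + n * t)⁻¹ * Z ^ 2 := by
      calc Z ^ 2 - t * I ≤ ((1 + t) ^ n)⁻¹ * Z ^ 2 := by linarith
        _ ≤ _ := by gcongr
    have h7 : (1 + n * t) * (Z ^ 2 - t * I) ≤ Z ^ 2 := by
      calc (1 + n * t) * (Z ^ 2 - t * I) ≤ (1 + n * t) * ((1 + n * t)⁻¹ * Z ^ 2) := by gcongr
        _ = Z ^ 2 := by rw [← mul_assoc, mul_inv_cancel₀ h5.ne', one_mul]
    have h8 : t * (n * Z ^ 2) ≤ t * ((1 + n * t) * I) := by nlinarith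
    exact le_of_mul_le_mul_left h8 t0
  have hlim : Tendsto (fun t : ℝ => (1 + n * t) * I) (𝓝[>] 0) (𝓝 ((1 + n * 0) * I)) := by
    refine Tendsto.mono_left ?_ nhdsWithin_le_nhds
    exact Continuous.tendsto (by fun_prop) 0
  have h9 : n * Z ^ 2 ≤ (1 + n * 0) * I := by
    refine ge_of_tendsto hlim ?_
    filter_upwards [self_mem_nhdsWithin] with t ht using key t ht
  simpa using h9

end Frame

end Pool.Agent.FR
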