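import Pool.Agent.Lib.MP_725e58_gt.FR.Cone7
import Pool.Agent.Lib.MP_725e58_gt.FR.Emb81

/-! From the mean slope to the reflection bodies: average over the body, the centroid. -/

set_option autoImplicit false

namespace Pool.Agent.FR

open MeasureTheory Set Filter Topology
open scoped ENNReal NNReal
open Pool.Agent.Lib.MP_725e58_gt

section arith

lemma four_central (m : ℕ) (hm : 1 ≤ m) : 16 ^ m ≤ 4 * m * (Nat.centralBinom m) ^ 2 := by
  induction m, hm using Nat.le_induction with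
  | base => decide
  | succ m hm ih =>
    have h := Nat.succ_mul_centralBinom_succ m
    have h2 : (m + 1) ^ 2 * (Nat.centralBinom (m + 1)) ^ 2 =
        (2 * (2 * m + 1)) ^ 2 * (Nat.centralBinom m) ^ 2 := by
      rw [← mul_pow, ← mul_pow, h]
    have h3 : m * (m + 1) * 16 ^ (m + 1) ≤ m * (m + 1) * (4 * (m + 1) * (Nat.centralBinom (m + 1)) ^ 2) := by
      calc m * (m + 1) * 16 ^ (m + 1) = 16 * m * (m + 1) * 16 ^ m := by ring
        _ ≤ 16 * m * (m + 1) * (4 * m * (Nat.centralBinom m) ^ 2) := by gcongr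
        _ ≤ 4 * m * ((2 * (2 * m + 1)) ^ 2 * (Nat.centralBinom m) ^ 2) := by
            have : 16 * m * (m + 1) ≤ (2 * (2 * m + 1)) ^ 2 := by nlinarith
            calc 16 * m * (m + 1) * (4 * m * (Nat.centralBinom m) ^ 2)
                = 4 * m * ((16 * m * (m + 1)) * (Nat.centralBinom m) ^ 2) := by ring
              _ ≤ _ := by gcongr
        _ = 4 * m * ((m + 1) ^ 2 * (Nat.centralBinom (m + 1)) ^ 2) := by rw [h2]
        _ = _ := by ring
    exact Nat.le_of_mul_le_mul_left h3 (by positivity)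

lemma four_pow_le_choose (d : ℕ) : 4 ^ d ≤ 2 * (d + 1) * (d.choose (d / 2)) ^ 2 := by
  rcases Nat.even_or_odd' d with ⟨m, rfl | rfl⟩
  · rcases Nat.eq_zero_or_pos m with rfl | hm
    · decide
    have h := four_central m hm
    rw [Nat.mul_div_cancel_left m (by norm_num)]
    have : (2 * m).choose m = Nat.centralBinom m := rfl
    rw [this, pow_mul]
    norm_num
    calc 16 ^ m ≤ 4 * m * (Nat.centralBinom m) ^ 2 := h
      _ ≤ _ := Nat.mul_le_mul_right _ (by omega)
  · have h := four_central (m + 1) (by omega)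
    have hd : (2 * m + 1) / 2 = m := by omega
    rw [hd]
    have h1 : Nat.centralBinom (m + 1) = 2 * (2 * m + 1).choose m := by
      have h2 : Nat.centralBinom (m + 1) = (2 * m + 1 + 1).choose (m + 1) := by
        rw [Nat.centralBinom]; congr 1
      rw [h2, Nat.choose_succ_succ, Nat.choose_symm_half]
      ring
    rw [h1] at h
    have h4 : 4 * 4 ^ (2 * m + 1) = 16 ^ (m + 1) := by
      rw [← pow_succ', show 2 * m + 1 + 1 = 2 * (m + 1) by ring, pow_mul]; norm_num
    have h5 : 4 * 4 ^ (2 * m + 1) ≤ 4 * (2 * (2 * m + 1 + 1) * (2 * m + 1).choose m ^ 2) := by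
      rw [h4]
      calc _ ≤ _ := h
        _ = _ := by ring
    exact Nat.le_of_mul_le_mul_left h5 (by norm_num)

lemma const_le (d : ℕ) : (1 + Real.sqrt 2) * 2 ^ d / Real.sqrt (d + 1) ≤
    (2 + Real.sqrt 2) * (d.choose (d / 2) : ℝ) := by
  have h := four_pow_le_choose d
  have h' : (4 : ℝ) ^ d ≤ 2 * (d + 1) * (d.choose (d / 2) : ℝ) ^ 2 := by exact_mod_cast h
  have h2 : (2 : ℝ) ^ d ≤ Real.sqrt 2 * Real.sqrt (d + 1) * (d.choose (d / 2) : ℝ) := by
    apply (pow_le_pow_iff_left₀ (by positivity) (by positivity) two_ne_zero).mp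
    rw [mul_pow, mul_pow, Real.sq_sqrt (by norm_num), Real.sq_sqrt (by positivity), ← pow_mul,
      mul_comm d 2, pow_mul]
    norm_num
    exact h'
  have hs : Real.sqrt 2 * Real.sqrt 2 = 2 := Real.mul_self_sqrt (by norm_num)
  have h0 : 0 < Real.sqrt ((d : ℝ) + 1) := Real.sqrt_pos.mpr (by positivity)
  rw [div_le_iff₀ h0]
  calc (1 + Real.sqrt 2) * 2 ^ d ≤
      (1 + Real.sqrt 2) * (Real.sqrt 2 * Real.sqrt (d + 1) * (d.choose (d / 2) : ℝ)) := by gcongr
    _ = (Real.sqrt 2 + Real.sqrt 2 * Real.sqrt 2) * (d.choose (d / 2) : ℝ) * Real.sqrt (d + 1) := by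
        ring
    _ = _ := by rw [hs]; ring

end arith

section K5

variable {E : Type*} [NormedAddCommGroup E] [NormedSpace ℝ E] [FiniteDimensional ℝ E]
variable [MeasurableSpace E] [BorelSpace E] (μ : Measure E) [μ.IsAddHaarMeasure]


variable {K : Set E} (hc : IsCompact K) (hv : Convex ℝ K) (hi : (interior K).Nonempty)

/-- the total variation of the slope of the norm in the direction `g` -/
noncomputable def slopeInt (g : E × ℝ) : ℝ≥0∞ :=
  ∫⁻ y, ENNReal.ofReal |(frameOf K hc hv hi).gr y g|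
    ∂((frameOf K hc hv hi).eN (μ.prod (volume : Measure ℝ)))

lemma measurable_slopeInt : Measurable (slopeInt μ hc hv hi) := by
  have h : Measurable (fun p : (E × ℝ) × (E × ℝ) =>
      ENNReal.ofReal |(frameOf K hc hv hi).gr p.1 p.2|) :=
    ((frameOf K hc hv hi).measurable_gr_pair.abs).ennreal_ofReal
  exact h.lintegral_prod_left'

omit [FiniteDimensional ℝ E] [BorelSpace E] [μ.IsAddHaarMeasure] in
lemma slopeInt_smul {r : ℝ} (hr : 0 ≤ r) (g : E × ℝ) :
    slopeInt μ hc hv hi (r • g) = ENNReal.ofReal r * slopeInt μ hc hv hi g := by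
  unfold slopeInt
  rw [← lintegral_const_mul' _ _ ENNReal.ofReal_ne_top]
  refine lintegral_congr fun y => ?_
  rw [map_smul, smul_eq_mul, abs_mul, abs_of_nonneg hr, ENNReal.ofReal_mul hr]

/-- Tonelli over the cone -/
theorem slope_cone :
    ∫⁻ p : (E × ℝ) × (E × ℝ), ENNReal.ofReal |(frameOf K hc hv hi).gr p.1 p.2|
      ∂(((frameOf K hc hv hi).eN (μ.prod (volume : Measure ℝ))).prod
        ((frameOf K hc hv hi).ex (μ.prod (volume : Measure ℝ)) 2)) =
    ENNReal.ofReal ((Module.finrank ℝ E + 1).factorial / 2 ^ (Module.finrank ℝ E + 2)) *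
      ∫⁻ x in K, slopeInt μ hc hv hi (x, 1) ∂μ := by
  have hm : Measurable (fun p : (E × ℝ) × (E × ℝ) =>
      ENNReal.ofReal |(frameOf K hc hv hi).gr p.1 p.2|) :=
    ((frameOf K hc hv hi).measurable_gr_pair.abs).ennreal_ofReal
  rw [lintegral_prod_symm _ hm.aemeasurable]
  have h1 : ∫⁻ g, ∫⁻ y, ENNReal.ofReal |(frameOf K hc hv hi).gr y g|
      ∂((frameOf K hc hv hi).eN (μ.prod (volume : Measure ℝ)))
      ∂((frameOf K hc hv hi).ex (μ.prod (volume : Measure ℝ)) 2) =
      ∫⁻ g, slopeInt μ hc hv hi g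
        ∂((frameOf K hc hv hi).ex (μ.prod (volume : Measure ℝ)) 2) := rfl
  rw [h1, (frameOf K hc hv hi).lintegral_ex _ 2 (measurable_slopeInt μ hc hv hi)]
  have h2 : ∫⁻ a in (frameOf K hc hv hi).G,
      ENNReal.ofReal (Real.exp (-(2 * (frameOf K hc hv hi).h a))) * slopeInt μ hc hv hi a
        ∂(μ.prod (volume : Measure ℝ)) =
      ∫⁻ a in coneOf K, ENNReal.ofReal (Real.exp (-(2 * a.2))) * slopeInt μ hc hv hi a
        ∂(μ.prod (volume : Measure ℝ)) := rfl
  have hms := measurable_slopeInt μ hc hv hi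
  have hmm : Measurable (fun a : E × ℝ =>
      ENNReal.ofReal (Real.exp (-(2 * a.2))) * slopeInt μ hc hv hi a) :=
    (by fun_prop : Measurable fun a : E × ℝ => ENNReal.ofReal (Real.exp (-(2 * a.2)))).mul hms
  rw [h2, lintegral_cone μ hc hmm]
  have hmx : Measurable (fun x : E => slopeInt μ hc hv hi (x, 1)) :=
    hms.comp (measurable_id.prodMk measurable_const)
  have h3 : ∀ r ∈ Ioi (0 : ℝ), ENNReal.ofReal (r ^ Module.finrank ℝ E) *
      ∫⁻ x in K, ENNReal.ofReal (Real.exp (-(2 * r))) * slopeInt μ hc hv hi (r • x, r) ∂μ =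
      ENNReal.ofReal (r ^ (Module.finrank ℝ E + 1) * Real.exp (-(2 * r))) *
        ∫⁻ x in K, slopeInt μ hc hv hi (x, 1) ∂μ := by
    intro r hr
    have hr : 0 < r := hr
    have h4 : ∀ x : E, ENNReal.ofReal (Real.exp (-(2 * r))) * slopeInt μ hc hv hi (r • x, r) =
        ENNReal.ofReal (r * Real.exp (-(2 * r))) * slopeInt μ hc hv hi (x, 1) := by
      intro x
      have : ((r • x, r) : E × ℝ) = r • (x, 1) := by
        rw [Prod.smul_mk, smul_eq_mul, mul_one]
      rw [this, slopeInt_smul μ hc hv hi hr.le, ← mul_assoc,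
        ← ENNReal.ofReal_mul (Real.exp_nonneg _), mul_comm r]
    simp_rw [h4]
    rw [lintegral_const_mul _ hmx, ← mul_assoc, ← ENNReal.ofReal_mul (by positivity)]
    congr 2
    ring
  have h5 := setLIntegral_congr_fun (μ := (volume : Measure ℝ)) measurableSet_Ioi h3
  refine h5.trans ?_
  rw [lintegral_mul_const _ (by fun_prop), lintegral_gamma _ (by norm_num : (0 : ℝ) < 2)]

/-- the hypothesis given by the mean slope inequality -/
theorem mean_slopeInt
    (hJ : ∫⁻ p : (E × ℝ) × (E × ℝ), ENNReal.ofReal |(frameOf K hc hv hi).gr p.1 p.2|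
      ∂(((frameOf K hc hv hi).eN (μ.prod (volume : Measure ℝ))).prod
        ((frameOf K hc hv hi).ex (μ.prod (volume : Measure ℝ)) 2)) ≤
      ENNReal.ofReal ((1 + Real.sqrt 2) / 2 * Real.sqrt ((Module.finrank ℝ E + 1 : ℕ) : ℝ) *
        ((Module.finrank ℝ E).factorial * (μ K).toReal) ^ 2)) :
    ∫⁻ x in K, slopeInt μ hc hv hi (x, 1) ∂μ ≤
      ENNReal.ofReal (2 * (Module.finrank ℝ E).factorial *
        ((1 + Real.sqrt 2) * 2 ^ (Module.finrank ℝ E) /
          Real.sqrt ((Module.finrank ℝ E : ℝ) + 1))) * (μ K) ^ 2 := by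
  set d := Module.finrank ℝ E with hd
  have hKt : μ K ≠ ∞ := hc.measure_lt_top.ne
  rw [slope_cone μ hc hv hi, ← hd] at hJ
  set c : ℝ := ((d + 1).factorial : ℝ) / 2 ^ (d + 2) with hcdef
  have hcpos : 0 < c := by positivity
  have h1 : ∫⁻ x in K, slopeInt μ hc hv hi (x, 1) ∂μ =
      ENNReal.ofReal c⁻¹ * (ENNReal.ofReal c * ∫⁻ x in K, slopeInt μ hc hv hi (x, 1) ∂μ) := by
    rw [← mul_assoc, ← ENNReal.ofReal_mul (by positivity), inv_mul_cancel₀ hcpos.ne',
      ENNReal.ofReal_one, one_mul]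
  rw [h1]
  calc _ ≤ ENNReal.ofReal c⁻¹ * ENNReal.ofReal ((1 + Real.sqrt 2) / 2 *
        Real.sqrt ((d + 1 : ℕ) : ℝ) * (d.factorial * (μ K).toReal) ^ 2) := by gcongr
    _ = ENNReal.ofReal (c⁻¹ * ((1 + Real.sqrt 2) / 2 *
        Real.sqrt ((d + 1 : ℕ) : ℝ) * (d.factorial * (μ K).toReal) ^ 2)) := by
          rw [← ENNReal.ofReal_mul (by positivity)]
    _ = ENNReal.ofReal ((2 * d.factorial * ((1 + Real.sqrt 2) * 2 ^ d /
          Real.sqrt ((d : ℝ) + 1))) * ((μ K).toReal) ^ 2) := by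
          congr 1
          have hs : Real.sqrt ((d : ℝ) + 1) ≠ 0 := (Real.sqrt_pos.mpr (by positivity)).ne'
          have hss : Real.sqrt ((d : ℝ) + 1) * Real.sqrt ((d : ℝ) + 1) = (d : ℝ) + 1 :=
            Real.mul_self_sqrt (by positivity)
          have hf : ((d + 1).factorial : ℝ) = ((d : ℝ) + 1) * d.factorial := by
            rw [Nat.factorial_succ]; push_cast; ring
          have hfd : (d.factorial : ℝ) ≠ 0 := by positivity
          rw [hcdef, hf]
          push_cast
          have hd1 : ((d : ℝ) + 1) ≠ 0 := by positivity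
          field_simp
          rw [show Real.sqrt ((d : ℝ) + 1) ^ 2 = (d : ℝ) + 1 from Real.sq_sqrt (by positivity)]
          ring
    _ = _ := by
          rw [ENNReal.ofReal_mul (by positivity), ENNReal.ofReal_pow ENNReal.toReal_nonneg,
            ENNReal.ofReal_toReal hKt]

/-- Jensen: the slope integral at the centroid is at most its mean -/
theorem slopeInt_centroid (hK0 : μ K ≠ 0) :
    slopeInt μ hc hv hi (⨍ x in K, x ∂μ, 1) * μ K ≤ ∫⁻ x in K, slopeInt μ hc hv hi (x, 1) ∂μ := by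
  have hKt : μ K ≠ ∞ := hc.measure_lt_top.ne
  have hm : Measurable (fun p : (E × ℝ) × E =>
      ENNReal.ofReal |(frameOf K hc hv hi).gr p.1 (p.2, 1)|) := by
    have h1 := (frameOf K hc hv hi).measurable_gr_pair.abs.ennreal_ofReal
    exact h1.comp (measurable_fst.prodMk (measurable_snd.prodMk measurable_const))
  have hsw : ∫⁻ x in K, slopeInt μ hc hv hi (x, 1) ∂μ =
      ∫⁻ y, ∫⁻ x in K, ENNReal.ofReal |(frameOf K hc hv hi).gr y (x, 1)| ∂μ
        ∂((frameOf K hc hv hi).eN (μ.prod (volume : Measure ℝ))) := by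
    unfold slopeInt
    rw [lintegral_lintegral_swap]
    exact (hm.comp measurable_swap).aemeasurable
  rw [hsw]
  unfold slopeInt
  rw [mul_comm, ← lintegral_const_mul' _ _ hKt]
  refine lintegral_mono fun y => ?_
  set L := (frameOf K hc hv hi).gr y with hL
  have hcont : Continuous (fun x : E => L (x, 1)) := L.continuous.comp (by fun_prop)
  have hint : IntegrableOn (fun x : E => L (x, 1)) K μ := hcont.continuousOn.integrableOn_compact hc
  have hintid : IntegrableOn (fun x : E => x) K μ := continuous_id.continuousOn.integrableOn_compact hc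
  have hpos : 0 < (μ K).toReal := ENNReal.toReal_pos hK0 hKt
  have h1 : (μ K).toReal * L (⨍ x in K, x ∂μ, 1) = ∫ x in K, L (x, 1) ∂μ := by
    have e1 : ∀ x : E, L (x, 1) = L (x, 0) + L (0, 1) := by
      intro x
      rw [← map_add]; simp
    have e2 : ∫ x in K, L (x, 0) ∂μ = L (∫ x in K, x ∂μ, 0) := by
      have := (L.comp (ContinuousLinearMap.inl ℝ E ℝ)).integral_comp_comm hintid
      simpa using this
    have hint0 : IntegrableOn (fun x : E => L (x, 0)) K μ :=
      (L.continuous.comp (by fun_prop : Continuous fun x : E => ((x, 0) : E × ℝ))).continuousOn.integrableOn_compact hc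
    calc (μ K).toReal * L (⨍ x in K, x ∂μ, 1)
        = (μ K).toReal * (L (⨍ x in K, x ∂μ, 0) + L (0, 1)) := by rw [e1]
      _ = L (∫ x in K, x ∂μ, 0) + (μ K).toReal * L (0, 1) := by
          rw [setAverage_eq, mul_add]
          congr 1
          have : (((μ.real K)⁻¹ • ∫ x in K, x ∂μ, 0) : E × ℝ) =
              (μ.real K)⁻¹ • ((∫ x in K, x ∂μ, 0) : E × ℝ) := by
            rw [Prod.smul_mk, smul_zero]
          rw [this, map_smul, smul_eq_mul, ← mul_assoc]
          have h9 : (μ K).toReal * (μ.real K)⁻¹ = 1 := mul_inv_cancel₀ hpos.ne'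
          rw [h9, one_mul]
      _ = ∫ x in K, (L (x, 0) + L (0, 1)) ∂μ := by
          rw [integral_add hint0 (integrableOn_const hKt), e2, setIntegral_const]
          rfl
      _ = ∫ x in K, L (x, 1) ∂μ := by
          refine integral_congr_ae (Eventually.of_forall fun x => ?_)
          exact (e1 x).symm
  have h2 : (μ K).toReal * |L (⨍ x in K, x ∂μ, 1)| ≤ ∫ x in K, |L (x, 1)| ∂μ := by
    rw [← abs_of_pos hpos, ← abs_mul, h1]
    exact abs_integral_le_integral_abs
  calc μ K * ENNReal.ofReal |L (⨍ x in K, x ∂μ, 1)|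
      = ENNReal.ofReal ((μ K).toReal * |L (⨍ x in K, x ∂μ, 1)|) := by
        rw [ENNReal.ofReal_mul ENNReal.toReal_nonneg, ENNReal.ofReal_toReal hKt]
    _ ≤ ENNReal.ofReal (∫ x in K, |L (x, 1)| ∂μ) := ENNReal.ofReal_le_ofReal h2
    _ = _ := by
        rw [ofReal_integral_eq_lintegral_ofReal hint.abs]
        exact Eventually.of_forall fun x => abs_nonneg _

/-- average over the body -/
theorem average_bound
    (hJ : ∫⁻ p : (E × ℝ) × (E × ℝ), ENNReal.ofReal |(frameOf K hc hv hi).gr p.1 p.2|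
      ∂(((frameOf K hc hv hi).eN (μ.prod (volume : Measure ℝ))).prod
        ((frameOf K hc hv hi).ex (μ.prod (volume : Measure ℝ)) 2)) ≤
      ENNReal.ofReal ((1 + Real.sqrt 2) / 2 * Real.sqrt ((Module.finrank ℝ E + 1 : ℕ) : ℝ) *
        ((Module.finrank ℝ E).factorial * (μ K).toReal) ^ 2))
    (h4 : ∀ x ∈ K, ENNReal.ofReal (2 * (Module.finrank ℝ E).factorial) * μ (Tow.RB K x) ≤
      slopeInt μ hc hv hi (x, 1)) :
    ∫⁻ x in K, μ (Tow.RB K x) ∂μ ≤
      ENNReal.ofReal ((1 + Real.sqrt 2) * 2 ^ (Module.finrank ℝ E) /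
          Real.sqrt ((Module.finrank ℝ E : ℝ) + 1)) * (μ K) ^ 2 := by
  set d := Module.finrank ℝ E with hd
  have hp : (0 : ℝ) < 2 * d.factorial := by positivity
  have h1 := mean_slopeInt μ hc hv hi hJ
  rw [← hd] at h1
  have h2 : ENNReal.ofReal (2 * d.factorial) * ∫⁻ x in K, μ (Tow.RB K x) ∂μ ≤
      ∫⁻ x in K, slopeInt μ hc hv hi (x, 1) ∂μ := by
    rw [← lintegral_const_mul' _ _ ENNReal.ofReal_ne_top]
    exact setLIntegral_mono ((measurable_slopeInt μ hc hv hi).comp
      (measurable_id.prodMk measurable_const)) h4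
  have h3 := h2.trans h1
  rw [ENNReal.ofReal_mul hp.le, mul_assoc] at h3
  refine (ENNReal.mul_le_mul_iff_right ?_ ENNReal.ofReal_ne_top).mp h3
  exact (ENNReal.ofReal_pos.mpr hp).ne'

/-- the centroid -/
theorem centroid_bound
    (hJ : ∫⁻ p : (E × ℝ) × (E × ℝ), ENNReal.ofReal |(frameOf K hc hv hi).gr p.1 p.2|
      ∂(((frameOf K hc hv hi).eN (μ.prod (volume : Measure ℝ))).prod
        ((frameOf K hc hv hi).ex (μ.prod (volume : Measure ℝ)) 2)) ≤
      ENNReal.ofReal ((1 + Real.sqrt 2) / 2 * Real.sqrt ((Module.finrank ℝ E + 1 : ℕ) : ℝ) *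
        ((Module.finrank ℝ E).factorial * (μ K).toReal) ^ 2))
    (h4 : ∀ x ∈ K, ENNReal.ofReal (2 * (Module.finrank ℝ E).factorial) * μ (Tow.RB K x) ≤
      slopeInt μ hc hv hi (x, 1)) :
    (⨍ x in K, x ∂μ) ∈ K ∧ μ (Tow.RB K (⨍ x in K, x ∂μ)) ≤
      ENNReal.ofReal ((1 + Real.sqrt 2) * 2 ^ (Module.finrank ℝ E) /
          Real.sqrt ((Module.finrank ℝ E : ℝ) + 1)) * μ K := by
  set d := Module.finrank ℝ E with hd
  have hK0 : μ K ≠ 0 := by
    intro h0
    have := isOpen_interior.measure_pos μ hi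
    exact absurd (measure_mono_null interior_subset h0) this.ne'
  have hKt : μ K ≠ ∞ := hc.measure_lt_top.ne
  have hp : (0 : ℝ) < 2 * d.factorial := by positivity
  have hmem : (⨍ x in K, x ∂μ) ∈ K := by
    refine hv.set_average_mem hc.isClosed hK0 hKt ?_ ?_
    · exact ae_restrict_mem hc.measurableSet
    · exact continuous_id.continuousOn.integrableOn_compact hc
  refine ⟨hmem, ?_⟩
  have h1 := mean_slopeInt μ hc hv hi hJ
  rw [← hd] at h1
  have h2 := (slopeInt_centroid μ hc hv hi hK0).trans h1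
  have h3 : ENNReal.ofReal (2 * d.factorial) * μ (Tow.RB K (⨍ x in K, x ∂μ)) * μ K ≤
      ENNReal.ofReal (2 * d.factorial) * (ENNReal.ofReal ((1 + Real.sqrt 2) * 2 ^ d /
          Real.sqrt ((d : ℝ) + 1)) * μ K) * μ K := by
    calc _ ≤ slopeInt μ hc hv hi (⨍ x in K, x ∂μ, 1) * μ K := by
          gcongr
          exact h4 _ hmem
      _ ≤ _ := h2
      _ = _ := by
          rw [ENNReal.ofReal_mul hp.le]
          ring
  have h5 := (ENNReal.mul_le_mul_iff_left hK0 hKt).mp h3
  refine (ENNReal.mul_le_mul_iff_right ?_ ENNReal.ofReal_ne_top).mp h5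
  exact (ENNReal.ofReal_pos.mpr hp).ne'

end K5

end Pool.Agent.FR
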