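import Mathlib

/-! A closed convex cone `G` with a height functional `h` and the norm `N` generated by it:
basic facts. -/

set_option autoImplicit false

namespace Pool.Agent.FR

open MeasureTheory Set Filter Topology
open scoped ENNReal NNReal

/-- A closed convex cone `G` with a height `h`, and the norm
`N y = min {h a + h b : a, b ∈ G, y = a - b}`. -/
structure Frame (V : Type*) [NormedAddCommGroup V] [NormedSpace ℝ V] where
  G : Set V
  h : V →L[ℝ] ℝ
  N : V → ℝ
  closed : IsClosed G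
  add_mem : ∀ {a b : V}, a ∈ G → b ∈ G → a + b ∈ G
  smul_mem : ∀ {r : ℝ} {a : V}, 0 ≤ r → a ∈ G → r • a ∈ G
  h_nonneg : ∀ {a : V}, a ∈ G → 0 ≤ h a
  N_le : ∀ {a b : V}, a ∈ G → b ∈ G → N (a - b) ≤ h a + h b
  dec : ∀ y : V, ∃ a ∈ G, ∃ b ∈ G, y = a - b ∧ N y = h a + h b

namespace Frame

variable {V : Type*} [NormedAddCommGroup V] [NormedSpace ℝ V] (F : Frame V)

/-- `χ` is a supporting functional of the norm `N` at `y`. -/
def Sup (χ : V →L[ℝ] ℝ) (y : V) : Prop := (∀ v, χ v ≤ F.N v) ∧ χ y = F.N y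

/-- the gradient of the norm -/
noncomputable def gr (y : V) : V →L[ℝ] ℝ := fderiv ℝ F.N y

lemma zero_mem : (0 : V) ∈ F.G := by
  obtain ⟨a, ha, _⟩ := F.dec 0
  simpa using F.smul_mem (r := 0) le_rfl ha

lemma N_nonneg (y : V) : 0 ≤ F.N y := by
  obtain ⟨a, ha, b, hb, -, h⟩ := F.dec y
  rw [h]; exact add_nonneg (F.h_nonneg ha) (F.h_nonneg hb)

lemma N_le_h {a : V} (ha : a ∈ F.G) : F.N a ≤ F.h a := by
  have := F.N_le ha F.zero_mem
  simpa using this

lemma N_neg_le (y : V) : F.N (-y) ≤ F.N y := by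
  obtain ⟨a, ha, b, hb, rfl, h⟩ := F.dec y
  rw [h, neg_sub, add_comm]
  exact F.N_le hb ha

lemma N_neg (y : V) : F.N (-y) = F.N y := by
  refine le_antisymm (F.N_neg_le y) ?_
  have := F.N_neg_le (-y)
  rwa [neg_neg] at this

lemma N_add_le (y z : V) : F.N (y + z) ≤ F.N y + F.N z := by
  obtain ⟨a, ha, b, hb, rfl, h⟩ := F.dec y
  obtain ⟨a', ha', b', hb', rfl, h'⟩ := F.dec z
  have := F.N_le (F.add_mem ha ha') (F.add_mem hb hb')
  rw [h, h']
  calc F.N (a - b + (a' - b')) = F.N (a + a' - (b + b')) := by congr 1; abel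
    _ ≤ _ := this
    _ = _ := by rw [map_add, map_add]; ring

lemma N_smul_le {r : ℝ} (hr : 0 ≤ r) (y : V) : F.N (r • y) ≤ r * F.N y := by
  obtain ⟨a, ha, b, hb, rfl, h⟩ := F.dec y
  have := F.N_le (F.smul_mem hr ha) (F.smul_mem hr hb)
  rw [h, smul_sub]
  refine this.trans (le_of_eq ?_)
  rw [map_smul, map_smul, smul_eq_mul, smul_eq_mul]; ring

lemma N_zero : F.N 0 = 0 := by
  have := F.N_smul_le (r := 0) le_rfl 0
  rw [zero_mul, smul_zero] at this
  exact le_antisymm this (F.N_nonneg 0)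

lemma N_smul {r : ℝ} (hr : 0 ≤ r) (y : V) : F.N (r • y) = r * F.N y := by
  rcases hr.eq_or_lt with rfl | hr
  · rw [zero_smul, N_zero, zero_mul]
  refine le_antisymm (F.N_smul_le hr.le y) ?_
  have := F.N_smul_le (r := r⁻¹) (by positivity) (r • y)
  rw [smul_smul, inv_mul_cancel₀ hr.ne', one_smul] at this
  calc r * F.N y ≤ r * (r⁻¹ * F.N (r • y)) := by gcongr
    _ = F.N (r • y) := by rw [← mul_assoc, mul_inv_cancel₀ hr.ne', one_mul]

lemma N_sub_le (y z : V) : F.N (y - z) ≤ F.N y + F.N z := by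
  rw [sub_eq_add_neg]
  exact (F.N_add_le _ _).trans (by rw [F.N_neg])

lemma abs_N_sub_le (y z : V) : |F.N y - F.N z| ≤ F.N (y - z) := by
  rw [abs_sub_le_iff]
  constructor
  · have := F.N_add_le (y - z) z
    rw [sub_add_cancel] at this; linarith
  · have := F.N_add_le (z - y) y
    rw [sub_add_cancel, ← neg_sub y z, F.N_neg] at this; linarith

lemma convexOn_N : ConvexOn ℝ univ F.N := by
  refine ⟨convex_univ, fun x _ y _ a b ha hb _ => ?_⟩
  calc F.N (a • x + b • y) ≤ F.N (a • x) + F.N (b • y) := F.N_add_le _ _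
    _ = a • F.N x + b • F.N y := by rw [F.N_smul ha, F.N_smul hb]; rfl

/-- A supporting functional is bounded by the height on the cone. -/
lemma Sup.le_h {χ : V →L[ℝ] ℝ} {y : V} (H : F.Sup χ y) {g : V} (hg : g ∈ F.G) : χ g ≤ F.h g :=
  (H.1 g).trans (F.N_le_h hg)

lemma Sup.neg_h_le {χ : V →L[ℝ] ℝ} {y : V} (H : F.Sup χ y) {g : V} (hg : g ∈ F.G) :
    -F.h g ≤ χ g := by
  have := (H.1 (-g)).trans ((F.N_neg g).le.trans (F.N_le_h hg))
  rw [map_neg] at this; linarith

lemma Sup.abs_le {χ : V →L[ℝ] ℝ} {y : V} (H : F.Sup χ y) {g : V} (hg : g ∈ F.G) :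
    |χ g| ≤ F.h g := _root_.abs_le.mpr ⟨Sup.neg_h_le F H hg, Sup.le_h F H hg⟩

/-- The gradient at a point of differentiability is a supporting functional. -/
lemma sup_gr {y : V} (hy : DifferentiableAt ℝ F.N y) : F.Sup (F.gr y) y := by
  have hd := hy.hasFDerivAt
  have key : ∀ v : V, Tendsto (fun t : ℝ => t⁻¹ • (F.N (y + t • v) - F.N y)) (𝓝[>] 0)
      (𝓝 (F.gr y v)) := by
    intro v
    have h1 : HasDerivAt (fun t : ℝ => F.N (y + t • v)) (F.gr y v) 0 := by
      have hl : HasDerivAt (fun t : ℝ => y + t • v) v 0 := by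
        have := ((hasDerivAt_id (0 : ℝ)).smul_const v).const_add y
        simpa using this
      have hd' : HasFDerivAt F.N (F.gr y) (y + (0 : ℝ) • v) := by
        rw [zero_smul, add_zero]; exact hd
      exact hd'.comp_hasDerivAt (0 : ℝ) hl
    have h2 := h1.tendsto_slope_zero_right
    simpa using h2
  constructor
  · intro v
    refine le_of_tendsto (key v) ?_
    filter_upwards [self_mem_nhdsWithin] with t ht
    have ht : 0 < t := ht
    have := F.N_add_le y (t • v)
    rw [F.N_smul ht.le] at this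
    rw [smul_eq_mul, inv_mul_le_iff₀ ht]
    linarith
  · refine tendsto_nhds_unique (key y) ?_
    refine tendsto_const_nhds.congr' ?_
    filter_upwards [self_mem_nhdsWithin] with t ht
    have ht : 0 < t := ht
    have : y + t • y = (1 + t) • y := by rw [add_smul, one_smul]
    rw [this, F.N_smul (by linarith), smul_eq_mul]
    field_simp
    ring

variable [FiniteDimensional ℝ V]

lemma exists_lipschitz : ∃ C : ℝ≥0, LipschitzWith C F.N := by
  have hcont : Continuous F.N := by
    have := F.convexOn_N.locallyLipschitz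
    exact this.continuous
  -- bounded on the unit ball
  obtain ⟨M, hM⟩ := (isCompact_closedBall (0 : V) 1).bddAbove_image hcont.continuousOn
  have hM' : ∀ z : V, F.N z ≤ max M 0 * ‖z‖ := by
    intro z
    rcases eq_or_ne z 0 with rfl | hz
    · simp [N_zero]
    have hz' : 0 < ‖z‖ := norm_pos_iff.mpr hz
    have h1 : F.N (‖z‖⁻¹ • z) ≤ M := hM ⟨_, by
      rw [mem_closedBall_zero_iff, norm_smul, norm_inv, norm_norm, inv_mul_cancel₀ hz'.ne'], rfl⟩
    rw [F.N_smul (by positivity)] at h1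
    have h2 : F.N z = ‖z‖ * (‖z‖⁻¹ * F.N z) := by
      rw [← mul_assoc, mul_inv_cancel₀ hz'.ne', one_mul]
    rw [h2, mul_comm]
    gcongr
    exact h1.trans (le_max_left _ _)
  refine ⟨⟨max M 0, le_max_right _ _⟩, LipschitzWith.of_dist_le_mul fun y z => ?_⟩
  rw [Real.dist_eq, dist_eq_norm]
  exact (F.abs_N_sub_le y z).trans (hM' _)

lemma continuous_N : Continuous F.N := F.convexOn_N.locallyLipschitz.continuous

variable [MeasurableSpace V] [BorelSpace V] (ν : Measure V) [ν.IsAddHaarMeasure]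

lemma ae_diff : ∀ᵐ y ∂ν, DifferentiableAt ℝ F.N y := by
  obtain ⟨C, hC⟩ := F.exists_lipschitz
  exact hC.ae_differentiableAt

lemma ae_sup : ∀ᵐ y ∂ν, F.Sup (F.gr y) y := by
  filter_upwards [F.ae_diff ν] with y hy using F.sup_gr hy

lemma measurable_gr_pair : Measurable (fun p : V × V => F.gr p.1 p.2) := by
  have h1 : Measurable (fun p : V × V => (F.gr p.1, p.2)) :=
    ((measurable_fderiv ℝ F.N).comp measurable_fst).prodMk measurable_snd
  exact isBoundedBilinearMap_apply.continuous.measurable.comp h1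

end Frame

end Pool.Agent.FR
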