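import Pool.Agent.Lib.MP_725e58_gt.FR.Aux49
import Pool.Agent.Lib.MP_725e58_gt.FR.Emb81

/-! Integration by parts along the translations `y ↦ y + δ g`. -/

set_option autoImplicit false

namespace Pool.Agent.FR

open MeasureTheory Set Filter Topology
open scoped ENNReal NNReal

namespace Frame

variable {V : Type*} [NormedAddCommGroup V] [NormedSpace ℝ V] (F : Frame V)
variable [FiniteDimensional ℝ V] [MeasurableSpace V] [BorelSpace V] (ν : Measure V)
  [ν.IsAddHaarMeasure]

variable {n : ℕ} {Z : ℝ}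

lemma eN_finite (hM : F.Mom ν n Z) : IsFiniteMeasure (F.eN ν) := by
  have h1 := Mom.finite_ex F hM (s := 1) one_pos
  have h2 := Mom.finite_ex F hM (s := 2) two_pos
  have key := F.embed ν (H := fun _ => 1) (G' := fun _ => 1) measurable_const measurable_const
    (Filter.Eventually.of_forall fun y a _ b _ _ _ => Filter.Eventually.of_forall fun g => le_rfl)
  rw [lintegral_one, lintegral_one, ← univ_prod_univ, Measure.prod_prod, Measure.prod_prod] at key
  refine ⟨?_⟩
  by_contra hcon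
  rw [not_lt, top_le_iff] at hcon
  rw [hcon, Mom.ex_univ F hM two_pos, ENNReal.top_mul] at key
  · have : F.ex ν 1 univ * F.ex ν 1 univ < ∞ := ENNReal.mul_lt_top (measure_lt_top _ _) (measure_lt_top _ _)
    exact absurd key (not_le.mpr this)
  · have := hM.Zpos
    simp only [ne_eq, ENNReal.ofReal_eq_zero, not_le]
    positivity

omit [FiniteDimensional ℝ V] [BorelSpace V] [ν.IsAddHaarMeasure] in
lemma eN_ac : F.eN ν ≪ ν := withDensity_absolutelyContinuous _ _

lemma ae_QQ (hM : F.Mom ν n Z) :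
    ∀ᵐ p ∂((F.eN ν).prod (F.ex ν 2)), p.2 ∈ F.G ∧ DifferentiableAt ℝ F.N p.1 := by
  have h1 := F.eN_finite ν hM
  have h2 := Mom.finite_ex F hM (s := 2) two_pos
  have e1 : ∀ᵐ p ∂((F.eN ν).prod (F.ex ν 2)), p.2 ∈ F.G :=
    Measure.quasiMeasurePreserving_snd.ae (F.ex_ae_mem ν 2)
  have e2 : ∀ᵐ p ∂((F.eN ν).prod (F.ex ν 2)), DifferentiableAt ℝ F.N p.1 :=
    Measure.quasiMeasurePreserving_fst.ae ((F.eN_ac ν).ae_le (F.ae_diff ν))
  exact e1.and e2

/-- density of the translated law -/
noncomputable def sd (δ : ℝ) (p : V × V) : ℝ := Real.exp (F.N p.1 - F.N (p.1 - δ • p.2))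

lemma measurable_sd (δ : ℝ) : Measurable (F.sd δ) := by
  have h1 : Measurable (fun p : V × V => F.N p.1) := F.continuous_N.measurable.comp measurable_fst
  have h2 : Measurable (fun p : V × V => F.N (p.1 - δ • p.2)) :=
    F.continuous_N.measurable.comp (by fun_prop)
  exact Real.measurable_exp.comp (h1.sub h2)

lemma lintegral_shift (δ : ℝ) {Φ : V × V → ℝ≥0∞} (hΦ : Measurable Φ) :
    ∫⁻ p, Φ (p.1 + δ • p.2, p.2) ∂((F.eN ν).prod (F.ex ν 2)) =
      ∫⁻ p, ENNReal.ofReal (F.sd δ p) * Φ p ∂((F.eN ν).prod (F.ex ν 2)) := by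
  have m1 : Measurable (fun p : V × V => Φ (p.1 + δ • p.2, p.2)) := hΦ.comp (by fun_prop)
  have m2 : Measurable (fun p => ENNReal.ofReal (F.sd δ p) * Φ p) :=
    (F.measurable_sd δ).ennreal_ofReal.mul hΦ
  rw [lintegral_prod_symm' _ m1, lintegral_prod_symm' _ m2]
  refine lintegral_congr fun g => ?_
  have c1 : Measurable (fun y : V => Φ (y + δ • g, g)) := hΦ.comp (by fun_prop)
  have c2 : Measurable (fun y : V => ENNReal.ofReal (F.sd δ (y, g)) * Φ (y, g)) :=
    m2.comp measurable_prodMk_right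
  rw [F.lint_eN ν c1, F.lint_eN ν c2,
    ← lintegral_add_right_eq_self (μ := ν) (fun y => ENNReal.ofReal (Real.exp (-F.N y)) *
      (ENNReal.ofReal (F.sd δ (y, g)) * Φ (y, g))) (δ • g)]
  refine lintegral_congr fun y => ?_
  rw [← mul_assoc, ← ENNReal.ofReal_mul (Real.exp_nonneg _)]
  congr 2
  unfold sd
  rw [← Real.exp_add]
  congr 1
  simp only [add_sub_cancel_right]
  ring

lemma map_shift (δ : ℝ) :
    ((F.eN ν).prod (F.ex ν 2)).map (fun p : V × V => (p.1 + δ • p.2, p.2)) =
      ((F.eN ν).prod (F.ex ν 2)).withDensity (fun p => ENNReal.ofReal (F.sd δ p)) := by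
  have hm : Measurable (fun p : V × V => (p.1 + δ • p.2, p.2)) := by fun_prop
  ext s hs
  rw [Measure.map_apply hm hs, withDensity_apply _ hs]
  have h := F.lintegral_shift ν δ (Φ := s.indicator 1) (measurable_one.indicator hs)
  have e1 : ∫⁻ p : V × V, s.indicator 1 (p.1 + δ • p.2, p.2) ∂((F.eN ν).prod (F.ex ν 2)) =
      ((F.eN ν).prod (F.ex ν 2)) ((fun p : V × V => (p.1 + δ • p.2, p.2)) ⁻¹' s) := by
    rw [← lintegral_indicator_one (hm hs)]
    rfl
  have e2 : ∫⁻ p, ENNReal.ofReal (F.sd δ p) * s.indicator 1 p ∂((F.eN ν).prod (F.ex ν 2)) =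
      ∫⁻ p in s, ENNReal.ofReal (F.sd δ p) ∂((F.eN ν).prod (F.ex ν 2)) := by
    rw [← lintegral_indicator hs]
    refine lintegral_congr fun p => ?_
    by_cases hp : p ∈ s
    · simp [hp]
    · simp [hp]
  rw [← e1, h, e2]

lemma integral_shift (δ : ℝ) {w : V × V → ℝ} (hw : Measurable w) :
    ∫ p : V × V, w (p.1 + δ • p.2, p.2) ∂((F.eN ν).prod (F.ex ν 2)) =
      ∫ p, F.sd δ p * w p ∂((F.eN ν).prod (F.ex ν 2)) := by
  have hm : Measurable (fun p : V × V => (p.1 + δ • p.2, p.2)) := by fun_prop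
  rw [← integral_map hm.aemeasurable hw.aestronglyMeasurable, F.map_shift ν δ,
    integral_withDensity_eq_integral_toReal_smul (F.measurable_sd δ).ennreal_ofReal
      (Filter.Eventually.of_forall fun p => ENNReal.ofReal_lt_top)]
  refine integral_congr_ae (Filter.Eventually.of_forall fun p => ?_)
  simp only [smul_eq_mul]
  rw [ENNReal.toReal_ofReal (show 0 ≤ F.sd δ p from Real.exp_nonneg _)]

lemma integrable_sd_mul (hM : F.Mom ν n Z) (δ : ℝ) {L : ℝ} {w : V × V → ℝ} (hw : Measurable w)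
    (hL : ∀ p, |w p| ≤ L) :
    Integrable (fun p => F.sd δ p * w p) ((F.eN ν).prod (F.ex ν 2)) := by
  have h3 := F.eN_finite ν hM
  have h2 := Mom.finite_ex F hM (s := 2) two_pos
  have hm : Measurable (fun p : V × V => (p.1 + δ • p.2, p.2)) := by fun_prop
  have h1 : Integrable w (((F.eN ν).prod (F.ex ν 2)).map (fun p : V × V => (p.1 + δ • p.2, p.2))) := by
    have := Measure.isFiniteMeasure_map ((F.eN ν).prod (F.ex ν 2))
      (fun p : V × V => (p.1 + δ • p.2, p.2))
    exact Integrable.of_bound hw.aestronglyMeasurable L (Filter.Eventually.of_forall hL)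
  rw [F.map_shift ν δ, integrable_withDensity_iff_integrable_smul'
    (F.measurable_sd δ).ennreal_ofReal (Filter.Eventually.of_forall fun p => ENNReal.ofReal_lt_top)] at h1
  refine h1.congr (Filter.Eventually.of_forall fun p => ?_)
  simp only [smul_eq_mul]
  rw [ENNReal.toReal_ofReal (show 0 ≤ F.sd δ p from Real.exp_nonneg _)]

lemma abs_exp_sub_one_le49 {x c : ℝ} (h : |x| ≤ c) : |Real.exp x - 1| ≤ c * Real.exp c := by
  have hc : 0 ≤ c := (abs_nonneg x).trans h
  obtain ⟨h1, h2⟩ := abs_le.mp h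
  rw [abs_le]
  constructor
  · have e1 := Real.add_one_le_exp x
    have e2 : c ≤ c * Real.exp c := by
      have := Real.one_le_exp hc
      nlinarith
    linarith
  · have e1 := Real.exp_le_exp.mpr h2
    have e2 := Real.add_one_le_exp (-c)
    have e3 : Real.exp c * Real.exp (-c) = 1 := by rw [← Real.exp_add]; simp
    nlinarith [Real.exp_pos c]

/-- integration by parts along translations -/
theorem ibp (hM : F.Mom ν n Z) {L : ℝ} (hL : 0 ≤ L) :
    Tendsto (fun δ : ℝ => δ⁻¹ * ∫ p : V × V,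
        (clip L (2 * F.gr (p.1 + δ • p.2) p.2) - clip L (2 * F.gr p.1 p.2))
          ∂((F.eN ν).prod (F.ex ν 2))) (𝓝[>] 0)
      (𝓝 (∫ p : V × V, F.gr p.1 p.2 * clip L (2 * F.gr p.1 p.2)
          ∂((F.eN ν).prod (F.ex ν 2)))) := by
  have h3 := F.eN_finite ν hM
  have h2 := Mom.finite_ex F hM (s := 2) two_pos
  have mw : Measurable (fun p : V × V => clip L (2 * F.gr p.1 p.2)) :=
    (continuous_clip L).measurable.comp (F.measurable_gr_pair.const_mul 2)
  have bd : ∀ p : V × V, |clip L (2 * F.gr p.1 p.2)| ≤ L := fun p => abs_clip_le hL _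
  -- rewrite the difference quotient
  have e : ∀ δ : ℝ, δ⁻¹ * ∫ p : V × V,
        (clip L (2 * F.gr (p.1 + δ • p.2) p.2) - clip L (2 * F.gr p.1 p.2))
          ∂((F.eN ν).prod (F.ex ν 2)) =
      ∫ p : V × V, (δ⁻¹ * (F.sd δ p - 1)) * clip L (2 * F.gr p.1 p.2)
          ∂((F.eN ν).prod (F.ex ν 2)) := by
    intro δ
    have i1 : Integrable (fun p : V × V => clip L (2 * F.gr (p.1 + δ • p.2) p.2))
        ((F.eN ν).prod (F.ex ν 2)) := by
      have m : Measurable (fun p : V × V => clip L (2 * F.gr (p.1 + δ • p.2) p.2)) :=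
        mw.comp (f := fun p : V × V => (p.1 + δ • p.2, p.2)) (by fun_prop)
      exact Integrable.of_bound m.aestronglyMeasurable L
        (Filter.Eventually.of_forall fun p => abs_clip_le hL _)
    have i2 : Integrable (fun p : V × V => clip L (2 * F.gr p.1 p.2))
        ((F.eN ν).prod (F.ex ν 2)) :=
      Integrable.of_bound mw.aestronglyMeasurable L (Filter.Eventually.of_forall bd)
    have i3 := F.integrable_sd_mul ν hM δ mw bd
    have s1 := F.integral_shift ν δ mw
    rw [integral_sub i1 i2]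
    simp only at s1
    rw [s1, ← integral_sub i3 i2, ← integral_const_mul]
    refine integral_congr_ae (Filter.Eventually.of_forall fun p => ?_)
    simp only; ring
  simp_rw [e]
  -- dominated convergence
  have ib : Integrable (fun p : V × V => (F.h p.2 * Real.exp (F.h p.2)) * L)
      ((F.eN ν).prod (F.ex ν 2)) := by
    have i1 : Integrable (fun g : V => F.h g * Real.exp (F.h g)) (F.ex ν 2) := by
      have m : Measurable (fun g : V => F.h g * Real.exp (F.h g)) :=
        F.measurable_h.mul (Real.measurable_exp.comp F.measurable_h)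
      refine ⟨m.aestronglyMeasurable, ?_⟩
      rw [hasFiniteIntegral_iff_ofReal]
      · have e1 : ∫⁻ g, ENNReal.ofReal (F.h g * Real.exp (F.h g)) ∂(F.ex ν 2) =
            ∫⁻ g, ENNReal.ofReal (Real.exp (1 * F.h g)) * ENNReal.ofReal (F.h g) ∂(F.ex ν 2) := by
          refine lintegral_congr fun g => ?_
          rw [← ENNReal.ofReal_mul (Real.exp_nonneg _), one_mul, mul_comm]
        rw [e1, F.lintegral_ex_exp ν 2 1 F.measurable_h.ennreal_ofReal]
        have := hM.mom 1 (2 - 1) (by norm_num)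
        simp only [pow_one] at this
        rw [this]
        exact ENNReal.ofReal_lt_top
      · filter_upwards [F.ex_ae_mem ν 2] with g hg
        exact mul_nonneg (F.h_nonneg hg) (Real.exp_nonneg _)
    exact (i1.comp_snd (F.eN ν)).mul_const L
  refine tendsto_integral_filter_of_dominated_convergence _ ?_ ?_ ib ?_
  · exact Filter.Eventually.of_forall fun δ =>
      ((((F.measurable_sd δ).sub measurable_const).const_mul _).mul mw).aestronglyMeasurable
  · have : ∀ᶠ δ : ℝ in 𝓝[>] 0, δ ≤ 1 := nhdsWithin_le_nhds (Iic_mem_nhds one_pos)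
    filter_upwards [self_mem_nhdsWithin, this] with δ δ0 δ1
    have δ0 : 0 < δ := δ0
    filter_upwards [F.ae_QQ ν hM] with p ⟨hp, _⟩
    have hh := F.h_nonneg hp
    have b1 : |F.N p.1 - F.N (p.1 - δ • p.2)| ≤ δ * F.h p.2 := by
      refine (F.abs_N_sub_le _ _).trans ?_
      have : p.1 - (p.1 - δ • p.2) = δ • p.2 := by abel
      rw [this, F.N_smul δ0.le]
      exact mul_le_mul_of_nonneg_left (F.N_le_h hp) δ0.le
    have b2 := abs_exp_sub_one_le49 b1
    rw [Real.norm_eq_abs, abs_mul, abs_mul, abs_of_pos (inv_pos.mpr δ0)]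
    refine mul_le_mul ?_ (bd p) (abs_nonneg _) (by positivity)
    rw [inv_mul_le_iff₀ δ0]
    refine b2.trans ?_
    have : Real.exp (δ * F.h p.2) ≤ Real.exp (F.h p.2) := by
      apply Real.exp_le_exp.mpr; nlinarith
    calc δ * F.h p.2 * Real.exp (δ * F.h p.2) ≤ δ * F.h p.2 * Real.exp (F.h p.2) := by gcongr
      _ = δ * (F.h p.2 * Real.exp (F.h p.2)) := by ring
  · filter_upwards [F.ae_QQ ν hM] with p ⟨_, hd⟩
    refine Tendsto.mul_const _ ?_
    have h1 : HasDerivAt (fun t : ℝ => Real.exp (F.N p.1 - F.N (p.1 - t • p.2))) (F.gr p.1 p.2) 0 := by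
      have hl : HasDerivAt (fun t : ℝ => p.1 - t • p.2) (-p.2) 0 := by
        have := ((hasDerivAt_id (0 : ℝ)).smul_const p.2).const_sub p.1
        simpa using this
      have hd' : HasFDerivAt F.N (F.gr p.1) (p.1 - (0 : ℝ) • p.2) := by
        rw [zero_smul, sub_zero]; exact hd.hasFDerivAt
      have h2 := ((hd'.comp_hasDerivAt (0 : ℝ) hl).const_sub (F.N p.1)).exp
      have h3 : Real.exp (F.N p.1 - (F.N ∘ fun t : ℝ => p.1 - t • p.2) 0) * -(F.gr p.1) (-p.2) =
          F.gr p.1 p.2 := by simp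
      rw [← h3]
      exact h2
    have h2 := h1.tendsto_slope_zero_right
    simpa [sd] using h2

end Frame

end Pool.Agent.FR
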