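import Pool.Agent.Lib.MP_725e58_gt.FR.Emb81

/-! Limits along the scaling flow. -/

set_option autoImplicit false

namespace Pool.Agent.FR

open MeasureTheory Set Filter Topology
open scoped ENNReal NNReal

namespace Frame

variable {V : Type*} [NormedAddCommGroup V] [NormedSpace ℝ V] (F : Frame V)
variable [FiniteDimensional ℝ V] [MeasurableSpace V] [BorelSpace V] (ν : Measure V)
  [ν.IsAddHaarMeasure]
variable {n : ℕ} {Z : ℝ}

omit [ν.IsAddHaarMeasure] [FiniteDimensional ℝ V] in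
lemma Mom.integrable_pow_exp {F : Frame V} {ν : Measure V} (hM : F.Mom ν n Z) (k : ℕ) {s c : ℝ}
    (hc : c < s) : Integrable (fun a => Real.exp (c * F.h a) * F.h a ^ k) (F.ex ν s) := by
  have hm1 : Measurable (fun a : V => Real.exp (c * F.h a)) :=
    Real.measurable_exp.comp (F.measurable_h.const_mul c)
  have hm2 : Measurable (fun a : V => F.h a ^ k) := F.measurable_h.pow_const k
  refine ⟨(hm1.mul hm2).aestronglyMeasurable, ?_⟩
  rw [hasFiniteIntegral_iff_norm]
  have h1 : ∫⁻ a, ENNReal.ofReal ‖Real.exp (c * F.h a) * F.h a ^ k‖ ∂(F.ex ν s) =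
      ∫⁻ a, ENNReal.ofReal (Real.exp (c * F.h a)) * ENNReal.ofReal (F.h a ^ k) ∂(F.ex ν s) := by
    refine lintegral_congr_ae ?_
    filter_upwards [F.ex_ae_mem ν s] with a ha
    have := pow_nonneg (F.h_nonneg ha) k
    rw [Real.norm_eq_abs, abs_of_nonneg (by positivity), ENNReal.ofReal_mul (by positivity)]
  rw [h1, F.lintegral_ex_exp ν s c hm2.ennreal_ofReal, hM.mom k (s - c) (by linarith)]
  exact ENNReal.ofReal_lt_top

omit [ν.IsAddHaarMeasure] [FiniteDimensional ℝ V] in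
lemma Mom.integrable_h {F : Frame V} {ν : Measure V} (hM : F.Mom ν n Z) {s : ℝ}
    (hs : 0 < s) : Integrable (fun a => F.h a) (F.ex ν s) := by
  simpa using Mom.integrable_pow F hM 1 hs

lemma Mom.integrable_hh {F : Frame V} {ν : Measure V} [ν.IsAddHaarMeasure]
    (hM : F.Mom ν n Z) :
    Integrable (fun p : V × V => F.h p.1 + F.h p.2) ((F.ex ν 1).prod (F.ex ν 1)) := by
  have := Mom.finite_ex F hM one_pos
  have h2 := hM.integrable_h one_pos
  exact (h2.comp_fst (ν := F.ex ν 1)).add (h2.comp_snd (F.ex ν 1))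

/-- a.e. statements in the coordinate `(1 + t) a - (1 - t) b` -/
lemma ae_comb {t : ℝ} (t1 : t < 1) {q : V → Prop} (hq : ∀ᵐ y ∂ν, q y) :
    ∀ᵐ p ∂(ν.prod ν), q (p.1 - p.2 + t • (p.1 + p.2)) := by
  obtain ⟨s, hs1, hs2, hs3⟩ := exists_measurable_superset_of_null (ae_iff.mp hq)
  rw [ae_iff]
  have hT : Measurable (fun p : V × V => p.1 - p.2 + t • (p.1 + p.2)) :=
    (measurable_fst.sub measurable_snd).add ((measurable_fst.add measurable_snd).const_smul t)
  refine measure_mono_null (t := (fun p : V × V => p.1 - p.2 + t • (p.1 + p.2)) ⁻¹' s)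
    (fun p hp => hs1 hp) ?_
  rw [Measure.measure_prod_null (hT hs2)]
  refine Filter.Eventually.of_forall fun a => ?_
  change ν (Prod.mk a ⁻¹' ((fun p : V × V => p.1 - p.2 + t • (p.1 + p.2)) ⁻¹' s)) = 0
  have hd : -(1 - t) ≠ 0 := by
    intro h; linarith
  have h1 : (Prod.mk a ⁻¹' ((fun p : V × V => p.1 - p.2 + t • (p.1 + p.2)) ⁻¹' s)) =
      (fun u : V => (-(1 - t)) • u) ⁻¹' ((fun v : V => ((1 + t) • a) + v) ⁻¹' s) := by
    ext u
    simp only [mem_preimage]
    have : a - u + t • (a + u) = (1 + t) • a + (-(1 - t)) • u := by module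
    rw [this]
  rw [h1, Measure.addHaar_preimage_smul ν hd, measure_preimage_add, hs3, mul_zero]

omit [BorelSpace V] in
lemma prod_ac (s t : ℝ) : (F.ex ν s).prod (F.ex ν t) ≪ ν.prod ν :=
  (F.ex_ac ν s).prod (F.ex_ac ν t)

omit [FiniteDimensional ℝ V] [MeasurableSpace V] [BorelSpace V] in
/-- upper and lower slopes -/
lemma slope_upper {z : V} (hz : F.Sup (F.gr z) z) (v : V) {s : ℝ} (s0 : 0 < s) :
    F.gr z v ≤ s⁻¹ * (F.N (z + s • v) - F.N z) := by
  have h1 := hz.1 (z + s • v)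
  rw [map_add, map_smul, hz.2, smul_eq_mul] at h1
  rw [le_inv_mul_iff₀ s0]
  linarith

omit [FiniteDimensional ℝ V] [MeasurableSpace V] [BorelSpace V] in
lemma slope_lower {z : V} (hz : F.Sup (F.gr z) z) (v : V) {s : ℝ} (s0 : 0 < s) :
    s⁻¹ * (F.N z - F.N (z - s • v)) ≤ F.gr z v := by
  have h1 := hz.1 (z - s • v)
  rw [map_sub, map_smul, hz.2, smul_eq_mul] at h1
  rw [inv_mul_le_iff₀ s0]
  linarith

omit [FiniteDimensional ℝ V] [MeasurableSpace V] [BorelSpace V] in
lemma tendsto_slope {y : V} (hy : DifferentiableAt ℝ F.N y) (v : V) :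
    Tendsto (fun t : ℝ => t⁻¹ * (F.N (y + t • v) - F.N y)) (𝓝[>] 0) (𝓝 (F.gr y v)) := by
  have h1 : HasDerivAt (fun t : ℝ => F.N (y + t • v)) (F.gr y v) 0 := by
    have hl : HasDerivAt (fun t : ℝ => y + t • v) v 0 := by
      have := ((hasDerivAt_id (0 : ℝ)).smul_const v).const_add y
      simpa using this
    have hd' : HasFDerivAt F.N (F.gr y) (y + (0 : ℝ) • v) := by
      rw [zero_smul, add_zero]; exact hy.hasFDerivAt
    exact hd'.comp_hasDerivAt (0 : ℝ) hl
  have h2 := h1.tendsto_slope_zero_right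
  simpa using h2

omit [FiniteDimensional ℝ V] [MeasurableSpace V] [BorelSpace V] in
lemma abs_slope_le (y v : V) {t : ℝ} (t0 : 0 < t) :
    |t⁻¹ * (F.N (y + t • v) - F.N y)| ≤ F.N v := by
  rw [abs_mul, abs_of_pos (inv_pos.mpr t0), inv_mul_le_iff₀ t0]
  have := F.abs_N_sub_le (y + t • v) y
  rwa [add_sub_cancel_left, F.N_smul t0.le] at this

omit [FiniteDimensional ℝ V] [MeasurableSpace V] [BorelSpace V] in
lemma N_add_le_h {a b : V} (ha : a ∈ F.G) (hb : b ∈ F.G) : F.N (a + b) ≤ F.h a + F.h b :=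
  (F.N_add_le a b).trans (add_le_add (F.N_le_h ha) (F.N_le_h hb))

lemma measurable_N : Measurable F.N := F.continuous_N.measurable

omit [FiniteDimensional ℝ V] [MeasurableSpace V] [BorelSpace V] in
lemma abs_gr_le {z : V} (hz : F.Sup (F.gr z) z) (v : V) : |F.gr z v| ≤ F.N v := by
  rw [_root_.abs_le]
  refine ⟨?_, hz.1 v⟩
  have := hz.1 (-v)
  rw [map_neg, F.N_neg] at this
  linarith

/-- the difference quotient along the flow: its integral converges -/
lemma tendsto_int_slope (hM : F.Mom ν n Z) :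
    Tendsto (fun t : ℝ => ∫ p : V × V, t⁻¹ * (F.N (p.1 - p.2 + t • (p.1 + p.2)) -
        F.N (p.1 - p.2)) ∂((F.ex ν 1).prod (F.ex ν 1))) (𝓝[>] 0)
      (𝓝 (∫ p : V × V, F.gr (p.1 - p.2) (p.1 + p.2) ∂((F.ex ν 1).prod (F.ex ν 1)))) := by
  have hm : ∀ t : ℝ, Measurable (fun p : V × V => t⁻¹ * (F.N (p.1 - p.2 + t • (p.1 + p.2)) -
        F.N (p.1 - p.2))) := fun t =>
    ((F.measurable_N.comp ((measurable_fst.sub measurable_snd).add
      ((measurable_fst.add measurable_snd).const_smul t))).sub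
      (F.measurable_N.comp (measurable_fst.sub measurable_snd))).const_mul _
  refine tendsto_integral_filter_of_dominated_convergence (fun p => F.h p.1 + F.h p.2)
    (Eventually.of_forall fun t => (hm t).aestronglyMeasurable) ?_ hM.integrable_hh ?_
  · filter_upwards [self_mem_nhdsWithin] with t ht
    filter_upwards [F.ae_prod_mem ν 1 1] with p hp
    rw [Real.norm_eq_abs]
    exact (F.abs_slope_le _ _ ht).trans (F.N_add_le_h hp.1 hp.2)
  · have h1 := ae_comb ν (t := 0) one_pos (F.ae_diff ν)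
    filter_upwards [(F.prod_ac ν 1 1).ae_le h1] with p hp
    rw [zero_smul, add_zero] at hp
    exact F.tendsto_slope hp _

lemma integrable_slope (hM : F.Mom ν n Z) {t : ℝ} (t0 : 0 < t) :
    Integrable (fun p : V × V => t⁻¹ * (F.N (p.1 - p.2 + t • (p.1 + p.2)) -
        F.N (p.1 - p.2))) ((F.ex ν 1).prod (F.ex ν 1)) := by
  have hm : Measurable (fun p : V × V => t⁻¹ * (F.N (p.1 - p.2 + t • (p.1 + p.2)) -
        F.N (p.1 - p.2))) :=
    ((F.measurable_N.comp ((measurable_fst.sub measurable_snd).add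
      ((measurable_fst.add measurable_snd).const_smul t))).sub
      (F.measurable_N.comp (measurable_fst.sub measurable_snd))).const_mul _
  refine hM.integrable_hh.mono' hm.aestronglyMeasurable ?_
  filter_upwards [F.ae_prod_mem ν 1 1] with p hp
  rw [Real.norm_eq_abs]
  exact (F.abs_slope_le _ _ t0).trans (F.N_add_le_h hp.1 hp.2)

lemma integrable_gr_flow (hM : F.Mom ν n Z) {t : ℝ} (t1 : t < 1) :
    Integrable (fun p : V × V => F.gr (p.1 - p.2 + t • (p.1 + p.2)) (p.1 + p.2))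
      ((F.ex ν 1).prod (F.ex ν 1)) := by
  have hm : Measurable (fun p : V × V => F.gr (p.1 - p.2 + t • (p.1 + p.2)) (p.1 + p.2)) :=
    F.measurable_gr_pair.comp (((measurable_fst.sub measurable_snd).add
      ((measurable_fst.add measurable_snd).const_smul t)).prodMk
      (measurable_fst.add measurable_snd))
  refine hM.integrable_hh.mono' hm.aestronglyMeasurable ?_
  filter_upwards [F.ae_prod_mem ν 1 1, (F.prod_ac ν 1 1).ae_le (ae_comb ν t1 (F.ae_sup ν))]
    with p hp hs
  rw [Real.norm_eq_abs]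
  exact (F.abs_gr_le hs _).trans (F.N_add_le_h hp.1 hp.2)

/-- (G2) the slope increment along the scaling flow tends to zero in the mean -/
theorem incr (hM : F.Mom ν n Z) :
    Tendsto (fun t : ℝ => ∫ p : V × V,
        (F.gr (p.1 - p.2 + t • (p.1 + p.2)) (p.1 + p.2) - F.gr (p.1 - p.2) (p.1 + p.2))
          ∂((F.ex ν 1).prod (F.ex ν 1))) (𝓝[>] 0) (𝓝 0) := by
  set P := (F.ex ν 1).prod (F.ex ν 1) with hP
  set I0 := ∫ p : V × V, F.gr (p.1 - p.2) (p.1 + p.2) ∂P with hI0
  have hA := F.tendsto_int_slope ν hM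
  rw [← hP, ← hI0] at hA
  have h2t : Tendsto (fun t : ℝ => 2 * t) (𝓝[>] 0) (𝓝[>] 0) := by
    refine tendsto_nhdsWithin_iff.mpr ⟨?_, ?_⟩
    · have : Tendsto (fun t : ℝ => 2 * t) (𝓝 0) (𝓝 (2 * 0)) :=
        (continuous_const.mul continuous_id).tendsto 0
      rw [mul_zero] at this
      exact this.mono_left nhdsWithin_le_nhds
    · filter_upwards [self_mem_nhdsWithin] with t ht
      have : (0 : ℝ) < t := ht
      exact mem_Ioi.mpr (by linarith)
  have hA2 := hA.comp h2t
  have hup : Tendsto (fun t : ℝ => 2 * (∫ p : V × V, (2 * t)⁻¹ *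
      (F.N (p.1 - p.2 + (2 * t) • (p.1 + p.2)) - F.N (p.1 - p.2)) ∂P) -
      ∫ p : V × V, t⁻¹ * (F.N (p.1 - p.2 + t • (p.1 + p.2)) - F.N (p.1 - p.2)) ∂P) (𝓝[>] 0)
      (𝓝 (2 * I0 - I0)) := (hA2.const_mul 2).sub hA
  have e0 : 2 * I0 - I0 = I0 := by ring
  rw [e0] at hup
  have hi0 : Integrable (fun p : V × V => F.gr (p.1 - p.2) (p.1 + p.2)) P := by
    have := F.integrable_gr_flow ν hM (t := 0) one_pos
    simpa using this
  have hmid : Tendsto (fun t : ℝ => ∫ p : V × V,
      F.gr (p.1 - p.2 + t • (p.1 + p.2)) (p.1 + p.2) ∂P) (𝓝[>] 0) (𝓝 I0) := by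
    have hlt : ∀ᶠ t : ℝ in 𝓝[>] 0, t < 1 := by
      filter_upwards [mem_nhdsWithin_of_mem_nhds (Iio_mem_nhds one_pos)] with t ht using ht
    refine tendsto_of_tendsto_of_tendsto_of_le_of_le' hA hup ?_ ?_
    · filter_upwards [self_mem_nhdsWithin, hlt] with t ht t1
      refine integral_mono_ae (F.integrable_slope ν hM ht) (F.integrable_gr_flow ν hM t1) ?_
      filter_upwards [(F.prod_ac ν 1 1).ae_le (ae_comb ν t1 (F.ae_sup ν))] with p hs
      have := F.slope_lower hs (p.1 + p.2) ht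
      rwa [add_sub_cancel_right] at this
    · filter_upwards [self_mem_nhdsWithin, hlt] with t ht t1
      have ht : (0 : ℝ) < t := ht
      have ht2 : 0 < 2 * t := by linarith
      rw [← integral_const_mul, ← integral_sub
        ((F.integrable_slope ν hM ht2).const_mul 2) (F.integrable_slope ν hM ht)]
      refine integral_mono_ae (F.integrable_gr_flow ν hM t1)
        (((F.integrable_slope ν hM ht2).const_mul 2).sub (F.integrable_slope ν hM ht)) ?_
      filter_upwards [(F.prod_ac ν 1 1).ae_le (ae_comb ν t1 (F.ae_sup ν))] with p hs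
      have h1 := F.slope_upper hs (p.1 + p.2) ht
      have e1 : p.1 - p.2 + t • (p.1 + p.2) + t • (p.1 + p.2) =
          p.1 - p.2 + (2 * t) • (p.1 + p.2) := by module
      rw [e1] at h1
      refine h1.trans (le_of_eq ?_)
      field_simp
      ring
  have hfin : Tendsto (fun t : ℝ => (∫ p : V × V,
      F.gr (p.1 - p.2 + t • (p.1 + p.2)) (p.1 + p.2) ∂P) - I0) (𝓝[>] 0) (𝓝 (I0 - I0)) :=
    hmid.sub_const I0
  rw [sub_self] at hfin
  refine hfin.congr' ?_
  have hlt : ∀ᶠ t : ℝ in 𝓝[>] 0, t < 1 := by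
    filter_upwards [mem_nhdsWithin_of_mem_nhds (Iio_mem_nhds one_pos)] with t ht using ht
  filter_upwards [hlt] with t t1
  rw [integral_sub (F.integrable_gr_flow ν hM t1) hi0]

end Frame

end Pool.Agent.FR
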