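import Pool.Agent.Lib.MP_725e58_gt.FR.MomLem
import Pool.Agent.Lib.MP_725e58_gt.Tow.Basic

/-! The flux of the norm in a direction `(x, 1)` and the volume of the reflection body. -/

set_option autoImplicit false

namespace Pool.Agent.FR

open MeasureTheory Set Filter Topology
open scoped ENNReal NNReal Pointwise

lemma ftc_ineq {f : ℝ → ℝ} {C : ℝ≥0} (hf : LipschitzWith C f) {a b : ℝ} (hab : a ≤ b) :
    ENNReal.ofReal |f b - f a| ≤ ∫⁻ s in Set.Ioc a b, ENNReal.ofReal |deriv f s| := by
  have hac := (hf.lipschitzOnWith (s := uIcc a b)).absolutelyContinuousOnInterval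
  rw [← hac.integral_deriv_eq_sub, intervalIntegral.integral_of_le hab]
  have := enorm_integral_le_lintegral_enorm (μ := volume.restrict (Ioc a b)) (deriv f)
  simpa [Real.enorm_eq_ofReal_abs] using this

lemma exp_neg_lip {u v : ℝ} (hu : 0 ≤ u) (hv : 0 ≤ v) :
    |Real.exp (-u) - Real.exp (-v)| ≤ |u - v| := by
  wlog h : u ≤ v generalizing u v
  · have := this hv hu (le_of_not_ge h)
    rwa [abs_sub_comm, abs_sub_comm u v]
  have h1 : Real.exp (-v) ≤ Real.exp (-u) := Real.exp_le_exp.mpr (by linarith)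
  rw [abs_of_nonneg (by linarith), abs_of_nonpos (by linarith)]
  have h2 : Real.exp (-v) = Real.exp (-u) * Real.exp (-(v - u)) := by
    rw [← Real.exp_add]; congr 1; ring
  have h3 := Real.add_one_le_exp (-(v - u))
  have h4 : Real.exp (-u) ≤ 1 := Real.exp_le_one_iff.mpr (by linarith)
  have h5 := Real.exp_pos (-u)
  rw [h2]
  nlinarith

lemma deriv_exp_neg {η : ℝ → ℝ} (s : ℝ) :
    deriv (fun s => Real.exp (-η s)) s = -(deriv η s * Real.exp (-η s)) := by
  by_cases hd : DifferentiableAt ℝ η s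
  · have h1 : HasDerivAt (fun s => Real.exp (-η s)) (Real.exp (-η s) * (-deriv η s)) s :=
      hd.hasDerivAt.neg.exp
    rw [h1.deriv]; ring
  · rw [deriv_zero_of_not_differentiableAt hd, deriv_zero_of_not_differentiableAt]
    · ring
    · intro h
      apply hd
      have h2 := (h.log (Real.exp_pos _).ne').neg
      have h3 : (-fun y => Real.log (Real.exp (-η y))) = η := by
        funext y; rw [Pi.neg_apply, Real.log_exp, neg_neg]
      rw [h3] at h2
      exact h2

/-- The flux along one line is at least twice the maximum. -/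
theorem line_ge {η : ℝ → ℝ} {C : ℝ≥0} (hη : LipschitzWith C η) (h0 : ∀ s, |s| ≤ η s) (s0 : ℝ) :
    ENNReal.ofReal (2 * Real.exp (-η s0)) ≤
      ∫⁻ s, ENNReal.ofReal |deriv η s| * ENNReal.ofReal (Real.exp (-η s)) := by
  have hn : ∀ s, 0 ≤ η s := fun s => (abs_nonneg s).trans (h0 s)
  set f : ℝ → ℝ := fun s => Real.exp (-η s) with hf
  have hfl : LipschitzWith C f := by
    refine LipschitzWith.of_dist_le_mul fun a b => ?_
    rw [Real.dist_eq]
    refine (exp_neg_lip (hn a) (hn b)).trans ?_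
    rw [← Real.dist_eq]
    exact hη.dist_le_mul a b
  have hint : ∀ s, ENNReal.ofReal |deriv η s| * ENNReal.ofReal (Real.exp (-η s)) =
      ENNReal.ofReal |deriv f s| := by
    intro s
    rw [hf, deriv_exp_neg, abs_neg, abs_mul, abs_of_pos (Real.exp_pos (-η s)),
      ENNReal.ofReal_mul (abs_nonneg _)]
  simp only [hint]
  have key : ∀ᶠ T : ℝ in atTop, ENNReal.ofReal (2 * f s0 - 2 * Real.exp (-T)) ≤
      ∫⁻ s, ENNReal.ofReal |deriv f s| := by
    filter_upwards [eventually_ge_atTop |s0|] with T hT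
    have hT1 : -T ≤ s0 := (abs_le.mp hT).1
    have hT2 : s0 ≤ T := (abs_le.mp hT).2
    have hT0 : 0 ≤ T := (abs_nonneg _).trans hT
    have e1 : f T ≤ Real.exp (-T) := by
      refine Real.exp_le_exp.mpr (neg_le_neg ?_)
      have := h0 T; rwa [abs_of_nonneg hT0] at this
    have e2 : f (-T) ≤ Real.exp (-T) := by
      refine Real.exp_le_exp.mpr (neg_le_neg ?_)
      have := h0 (-T); rwa [abs_neg, abs_of_nonneg hT0] at this
    have i1 := ftc_ineq hfl hT1
    have i2 := ftc_ineq hfl hT2
    have hdis : Disjoint (Ioc (-T) s0) (Ioc s0 T) := by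
      rw [Set.disjoint_left]
      intro z hz hz'
      exact absurd hz'.1 (not_lt.mpr hz.2)
    calc ENNReal.ofReal (2 * f s0 - 2 * Real.exp (-T))
        ≤ ENNReal.ofReal (|f s0 - f (-T)| + |f T - f s0|) := by
          apply ENNReal.ofReal_le_ofReal
          have := le_abs_self (f s0 - f (-T))
          have := neg_le_abs (f T - f s0)
          linarith
      _ = ENNReal.ofReal |f s0 - f (-T)| + ENNReal.ofReal |f T - f s0| :=
          ENNReal.ofReal_add (abs_nonneg _) (abs_nonneg _)
      _ ≤ (∫⁻ s in Ioc (-T) s0, ENNReal.ofReal |deriv f s|) +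
            ∫⁻ s in Ioc s0 T, ENNReal.ofReal |deriv f s| := add_le_add i1 i2
      _ = ∫⁻ s in Ioc (-T) s0 ∪ Ioc s0 T, ENNReal.ofReal |deriv f s| :=
          (lintegral_union measurableSet_Ioc hdis).symm
      _ ≤ ∫⁻ s, ENNReal.ofReal |deriv f s| := setLIntegral_le_lintegral _ _
  have lim : Tendsto (fun T : ℝ => ENNReal.ofReal (2 * f s0 - 2 * Real.exp (-T))) atTop
      (𝓝 (ENNReal.ofReal (2 * f s0 - 2 * 0))) := by
    refine (ENNReal.continuous_ofReal.tendsto _).comp ?_
    exact tendsto_const_nhds.sub ((Real.tendsto_exp_neg_atTop_nhds_zero).const_mul 2)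
  have := le_of_tendsto lim key
  simpa using this

section shear

variable {E : Type*} [NormedAddCommGroup E] [NormedSpace ℝ E] [FiniteDimensional ℝ E]
  [MeasurableSpace E] [BorelSpace E] (μ : Measure E) [μ.IsAddHaarMeasure]

/-- the shear `(z, s) ↦ (z + s x, s)` preserves the product measure -/
theorem lintegral_shear (x : E) {f : E × ℝ → ℝ≥0∞} (hf : Measurable f) :
    ∫⁻ p, f p ∂(μ.prod volume) = ∫⁻ z, ∫⁻ s, f (z + s • x, s) ∂volume ∂μ := by
  have hm : Measurable (fun p : E × ℝ => f (p.1 + p.2 • x, p.2)) :=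
    hf.comp ((measurable_fst.add (measurable_snd.smul_const x)).prodMk measurable_snd)
  rw [lintegral_prod_symm _ hf.aemeasurable]
  have h1 : ∀ s : ℝ, ∫⁻ z, f (z, s) ∂μ = ∫⁻ z, f (z + s • x, s) ∂μ := by
    intro s
    exact (lintegral_add_right_eq_self (fun z => f (z, s)) (s • x)).symm
  simp only [h1]
  exact lintegral_lintegral_swap (f := fun s z => f (z + s • x, s))
    (hm.comp measurable_swap).aemeasurable

end shear

end Pool.Agent.FR
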