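import Pool.Agent.Lib.MP_725e58_gt.FR.Ibp49
import Pool.Agent.Lib.MP_725e58_gt.FR.Lim81
import Pool.Agent.Lib.MP_725e58_gt.FR.Der81
import Pool.Agent.Lib.MP_725e58_gt.FR.Aux49

/-! The main inequality. -/

set_option autoImplicit false

namespace Pool.Agent.FR

open MeasureTheory Set Filter Topology
open scoped ENNReal NNReal

namespace Frame

variable {V : Type*} [NormedAddCommGroup V] [NormedSpace ℝ V] (F : Frame V)
variable [FiniteDimensional ℝ V] [MeasurableSpace V] [BorelSpace V] (ν : Measure V)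
  [ν.IsAddHaarMeasure]

/-- slope of the norm at `a - b + t (a + b)` in the direction `a + b` -/
noncomputable def u (t : ℝ) (p : V × V) : ℝ := F.gr (p.1 - p.2 + t • (p.1 + p.2)) (p.1 + p.2)

lemma measurable_u (t : ℝ) : Measurable (F.u t) := by
  have : Measurable (fun p : V × V => (p.1 - p.2 + t • (p.1 + p.2), p.1 + p.2)) := by fun_prop
  exact F.measurable_gr_pair.comp this

variable {n : ℕ} {Z : ℝ}

lemma QQ_univ_le (hM : F.Mom ν n Z) :
    ((F.eN ν).prod (F.ex ν 2)) univ ≤ ENNReal.ofReal (Z ^ 2) := by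
  have h1 := Mom.finite_ex F hM (s := 1) one_pos
  have h2 := Mom.finite_ex F hM (s := 2) two_pos
  have key := F.embed ν (H := fun _ => 1) (G' := fun _ => 1) measurable_const measurable_const
    (Filter.Eventually.of_forall fun y a _ b _ _ _ => Filter.Eventually.of_forall fun g => le_rfl)
  rw [lintegral_one, lintegral_one] at key
  refine key.trans ?_
  rw [← univ_prod_univ, Measure.prod_prod, Mom.ex_univ F hM one_pos,
    ← ENNReal.ofReal_mul (by have := hM.Zpos; positivity)]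
  refine ENNReal.ofReal_le_ofReal (le_of_eq ?_)
  rw [one_pow]; ring

lemma ae_QQs (hM : F.Mom ν n Z) :
    ∀ᵐ p ∂((F.eN ν).prod (F.ex ν 2)), p.2 ∈ F.G ∧ F.Sup (F.gr p.1) p.1 := by
  filter_upwards [F.ae_QQ ν hM] with p ⟨hp, hd⟩
  exact ⟨hp, F.sup_gr hd⟩

lemma ae_QQ_shift (hM : F.Mom ν n Z) (δ : ℝ) :
    ∀ᵐ p ∂((F.eN ν).prod (F.ex ν 2)), F.Sup (F.gr (p.1 + δ • p.2)) (p.1 + δ • p.2) := by
  have h1 := F.eN_finite ν hM
  have h2 := Mom.finite_ex F hM (s := 2) two_pos
  have hm : Measurable (fun p : V × V => p.1 + δ • p.2) := by fun_prop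
  have hm' : Measurable (fun p : V × V => p.2 + δ • p.1) := by fun_prop
  have key : ∀ᵐ p ∂((F.ex ν 2).prod (F.eN ν)), DifferentiableAt ℝ F.N (p.2 + δ • p.1) := by
    rw [Measure.ae_prod_iff_ae_ae (F.measurableSet_diff_comp hm')]
    refine Filter.Eventually.of_forall fun g => ?_
    have := F.ae_diff_affine ν (one_ne_zero) (δ • g)
    simp only [one_smul] at this
    exact (F.eN_ac ν).ae_le this
  have hs : ((F.ex ν 2).prod (F.eN ν)).map Prod.swap = (F.eN ν).prod (F.ex ν 2) := Measure.prod_swap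
  have h3 : ∀ᵐ p ∂(((F.ex ν 2).prod (F.eN ν)).map Prod.swap), DifferentiableAt ℝ F.N (p.1 + δ • p.2) := by
    rw [ae_map_iff measurable_swap.aemeasurable (F.measurableSet_diff_comp hm)]
    exact key
  rw [hs] at h3
  filter_upwards [h3] with p hp using F.sup_gr hp

lemma ae_PP (hM : F.Mom ν n Z) {t : ℝ} (ht : 1 + t ≠ 0) :
    ∀ᵐ p ∂((F.ex ν 1).prod (F.ex ν 1)), p.1 ∈ F.G ∧ p.2 ∈ F.G ∧
      F.Sup (F.gr (p.1 - p.2 + t • (p.1 + p.2))) (p.1 - p.2 + t • (p.1 + p.2)) := by
  have h1 := Mom.finite_ex F hM (s := 1) one_pos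
  filter_upwards [F.ae_mem_prod ν 1 1, F.ae_PP_diff ν ht 1 1] with p hp hd
  exact ⟨hp.1, hp.2, F.sup_gr hd⟩

lemma ae_PP0 (hM : F.Mom ν n Z) :
    ∀ᵐ p ∂((F.ex ν 1).prod (F.ex ν 1)), p.1 ∈ F.G ∧ p.2 ∈ F.G ∧
      F.Sup (F.gr (p.1 - p.2)) (p.1 - p.2) := by
  have := F.ae_PP ν hM (t := 0) (by norm_num)
  simpa using this

lemma integrable_u (hM : F.Mom ν n Z) {t : ℝ} (ht : 1 + t ≠ 0) :
    Integrable (F.u t) ((F.ex ν 1).prod (F.ex ν 1)) := by
  have i1 := Mom.integrable_PP F hM 1 0 one_pos one_pos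
  have i2 := Mom.integrable_PP F hM 0 1 one_pos one_pos
  refine (i1.add i2).mono' (F.measurable_u t).aestronglyMeasurable ?_
  filter_upwards [F.ae_PP ν hM ht] with p ⟨h1, h2, h3⟩
  have := Sup.abs_le F h3 (F.add_mem h1 h2)
  rw [map_add] at this
  simpa [u] using this

/-- the constant `ε` -/
noncomputable def eps (θ t : ℝ) : ℝ := t * (3 - θ * t) / ((1 - t) * (1 - θ - θ * t))

lemma slope_le49 {L θ t w0 x y D : ℝ} (t0 : 0 < t) (t1 : t ≤ 1 / 2) (θ1 : θ < 1)
    (ht : θ * t < 1 - θ) (θ0 : 0 < θ) (hD : 0 ≤ D) (hx : w0 = x)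
    (h : (y - x) * ((1 - t) * (1 - θ - θ * t)) ≤ (1 - θ + 2 * t) * D) :
    clip L y - clip L x ≤ (clip L (w0 + D) - clip L w0) + eps θ t * D := by
  subst hx
  have hpos : 0 < (1 - t) * (1 - θ - θ * t) := mul_pos (by linarith) (by linarith)
  have e1 : y ≤ w0 + D + eps θ t * D := by
    have : y - w0 ≤ D + eps θ t * D := by
      unfold eps
      rw [div_mul_eq_mul_div, ← sub_le_iff_le_add', le_div_iff₀ hpos]
      nlinarith
    linarith
  have e2 : 0 ≤ eps θ t * D := by
    unfold eps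
    have : 0 ≤ 3 - θ * t := by nlinarith
    positivity
  have := (clip_mono L e1).trans (clip_add_le L e2)
  linarith

theorem step (hM : F.Mom ν n Z) {L θ t : ℝ} (hL : 0 ≤ L) (θ0 : 0 < θ) (θ1 : θ < 1) (t0 : 0 < t)
    (t1 : t ≤ 1 / 2) (ht : θ * t < 1 - θ) :
    ∫ p : V × V, (clip L (2 * F.gr (p.1 + (2 * θ * t) • p.2) p.2) - clip L (2 * F.gr p.1 p.2))
        ∂((F.eN ν).prod (F.ex ν 2)) ≤
      ∫ p : V × V, ((clip L (F.u t p - F.h (p.1 - p.2)) - clip L (F.u 0 p - F.h (p.1 - p.2))) +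
        eps θ t * (F.u t p - F.u 0 p)) ∂((F.ex ν 1).prod (F.ex ν 1)) := by
  have h1 := F.eN_finite ν hM
  have h2 := Mom.finite_ex F hM (s := 2) two_pos
  have h3 := Mom.finite_ex F hM (s := 1) one_pos
  set f : V × V → ℝ := fun p =>
    clip L (2 * F.gr (p.1 + (2 * θ * t) • p.2) p.2) - clip L (2 * F.gr p.1 p.2) with hf
  set g : V × V → ℝ := fun p =>
    (clip L (F.u t p - F.h (p.1 - p.2)) - clip L (F.u 0 p - F.h (p.1 - p.2))) +
        eps θ t * (F.u t p - F.u 0 p) with hg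
  have mclip := (continuous_clip L).measurable
  have mf : Measurable f := by
    have m1 : Measurable (fun p : V × V => F.gr (p.1 + (2 * θ * t) • p.2) p.2) := by
      have : Measurable (fun p : V × V => (p.1 + (2 * θ * t) • p.2, p.2)) := by fun_prop
      exact F.measurable_gr_pair.comp this
    exact (mclip.comp (m1.const_mul 2)).sub (mclip.comp (F.measurable_gr_pair.const_mul 2))
  have mhh : Measurable (fun p : V × V => F.h (p.1 - p.2)) :=
    F.measurable_h.comp (measurable_fst.sub measurable_snd)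
  have mg : Measurable g :=
    ((mclip.comp ((F.measurable_u t).sub mhh)).sub (mclip.comp ((F.measurable_u 0).sub mhh))).add
      (((F.measurable_u t).sub (F.measurable_u 0)).const_mul _)
  -- integrability
  have hbd : ∀ x y : ℝ, ‖clip L x - clip L y‖ ≤ 2 * L := fun x y => by
    rw [Real.norm_eq_abs]
    have a1 := abs_le.mp (abs_clip_le hL x)
    have a2 := abs_le.mp (abs_clip_le hL y)
    rw [abs_le]; constructor <;> linarith
  have if' : Integrable f ((F.eN ν).prod (F.ex ν 2)) :=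
    Integrable.of_bound mf.aestronglyMeasurable (2 * L) (Filter.Eventually.of_forall fun p => hbd _ _)
  have ig : Integrable g ((F.ex ν 1).prod (F.ex ν 1)) := by
    refine Integrable.add ?_ (((F.integrable_u ν hM (by linarith)).sub
      (F.integrable_u ν hM (by norm_num))).const_mul _)
    exact Integrable.of_bound ((mclip.comp ((F.measurable_u t).sub mhh)).sub
      (mclip.comp ((F.measurable_u 0).sub mhh))).aestronglyMeasurable (2 * L)
      (Filter.Eventually.of_forall fun p => hbd _ _)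
  -- monotonicity of the slope
  have mono : ∀ᵐ p ∂((F.ex ν 1).prod (F.ex ν 1)), F.u 0 p ≤ F.u t p := by
    filter_upwards [F.ae_PP ν hM (t := t) (by linarith), F.ae_PP0 ν hM] with p ⟨_, _, s1⟩ ⟨_, _, s0⟩
    have e1 := s0.1 (p.1 - p.2 + t • (p.1 + p.2))
    have e2 := s1.1 (p.1 - p.2)
    rw [← s1.2, map_add, map_add, map_smul, map_smul, smul_eq_mul, smul_eq_mul] at e1
    rw [← s0.2] at e2
    have e3 : 0 ≤ t * (F.gr (p.1 - p.2 + t • (p.1 + p.2)) (p.1 + p.2) - F.gr (p.1 - p.2) (p.1 + p.2)) := by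
      nlinarith
    have := (mul_nonneg_iff_of_pos_left t0).mp e3
    simp only [u, zero_smul, add_zero]
    linarith
  have εn : 0 ≤ eps θ t := by
    unfold eps
    have : 0 ≤ 3 - θ * t := by nlinarith
    have : 0 < (1 - t) * (1 - θ - θ * t) := mul_pos (by linarith) (by linarith)
    positivity
  have gn : 0 ≤ᵐ[(F.ex ν 1).prod (F.ex ν 1)] g := by
    filter_upwards [mono] with p hp
    have e1 : clip L (F.u 0 p - F.h (p.1 - p.2)) ≤ clip L (F.u t p - F.h (p.1 - p.2)) :=
      clip_mono L (by linarith)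
    have e2 : 0 ≤ eps θ t * (F.u t p - F.u 0 p) := mul_nonneg εn (by linarith)
    show 0 ≤ (clip L (F.u t p - F.h (p.1 - p.2)) - clip L (F.u 0 p - F.h (p.1 - p.2))) +
        eps θ t * (F.u t p - F.u 0 p)
    linarith
  have key : ∫⁻ p, ENNReal.ofReal (f p) ∂((F.eN ν).prod (F.ex ν 2)) ≤
      ∫⁻ p, ENNReal.ofReal (g p) ∂((F.ex ν 1).prod (F.ex ν 1)) := by
    refine F.embed ν mf.ennreal_ofReal mg.ennreal_ofReal ?_
    filter_upwards [F.ae_sup ν] with y hy a ha b hb hab hN
    have hδ : (2 * θ * t) ≠ 0 := by positivity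
    have d1 : ∀ᵐ g ∂ν, DifferentiableAt ℝ F.N (y + (2 * θ * t) • g) := by
      filter_upwards [F.ae_diff_affine ν hδ y] with g hg
      rwa [add_comm] at hg
    have d2 : ∀ᵐ g ∂ν, DifferentiableAt ℝ F.N (y + t • ((a + g) + (b + g))) := by
      filter_upwards [F.ae_diff_affine ν (c := 2 * t) (by positivity) (y + t • (a + b))] with g hg
      have e : (2 * t) • g + (y + t • (a + b)) = y + t • ((a + g) + (b + g)) := by
        simp only [smul_add, mul_smul, two_smul]; abel
      rwa [e] at hg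
    have d1' := ae_mono Measure.restrict_le_self (μ := ν.restrict F.G) d1
    have d2' := ae_mono Measure.restrict_le_self (μ := ν.restrict F.G) d2
    filter_upwards [d1', d2'] with g hg1 hg2
    have P := F.pointwise (g := g) (t := t) (θ := θ) ha hb hab hN hy (F.sup_gr hg1) (F.sup_gr hg2) t0 t1 θ1
    obtain ⟨P1, P2, P3⟩ := P
    refine ENNReal.ofReal_le_ofReal ?_
    have ey : (a + g) - (b + g) = y := by rw [hab]; abel
    have eu : F.u t (a + g, b + g) = F.gr (y + t • ((a + g) + (b + g))) ((a + g) + (b + g)) := by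
      simp only [u, ey]
    have eu0 : F.u 0 (a + g, b + g) = F.gr y ((a + g) + (b + g)) := by
      simp only [u, ey, zero_smul, add_zero]
    have := slope_le49 (L := L) (θ := θ) (t := t) (w0 := F.u 0 (a + g, b + g) - F.h y)
      (x := 2 * F.gr y g) (y := 2 * F.gr (y + (2 * θ * t) • g) g)
      (D := F.u t (a + g, b + g) - F.u 0 (a + g, b + g)) t0 t1 θ1 ht θ0 (by rw [eu, eu0]; linarith)
      (by rw [eu0, P2]; ring) (by rw [eu, eu0]; linarith)
    simp only [hf, hg, ey]
    refine this.trans (le_of_eq ?_)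
    congr 3
    ring
  have e1 : ∫ p, f p ∂((F.eN ν).prod (F.ex ν 2)) ≤
      (∫⁻ p, ENNReal.ofReal (f p) ∂((F.eN ν).prod (F.ex ν 2))).toReal := by
    rw [integral_eq_lintegral_pos_part_sub_lintegral_neg_part if']
    exact sub_le_self _ ENNReal.toReal_nonneg
  have e2 : ∫ p, g p ∂((F.ex ν 1).prod (F.ex ν 1)) =
      (∫⁻ p, ENNReal.ofReal (g p) ∂((F.ex ν 1).prod (F.ex ν 1))).toReal :=
    integral_eq_lintegral_of_nonneg_ae gn mg.aestronglyMeasurable
  rw [e2]
  refine e1.trans (ENNReal.toReal_mono ?_ key)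
  rw [← ofReal_integral_eq_lintegral_ofReal ig gn]
  exact ENNReal.ofReal_ne_top

lemma asc_one (n : ℕ) : ((n.ascFactorial 1 : ℕ) : ℝ) = n := by
  simp [Nat.ascFactorial]

lemma asc_two (n : ℕ) : ((n.ascFactorial 2 : ℕ) : ℝ) = n * (n + 1) := by
  simp [Nat.ascFactorial]; ring

/-- the scaling map -/
def T (t : ℝ) (p : V × V) : V × V := ((1 + t) • p.1, (1 - t) • p.2)

omit [FiniteDimensional ℝ V] in
lemma measurable_T (t : ℝ) : Measurable (T t : V × V → V × V) := by
  unfold T; fun_prop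

omit [FiniteDimensional ℝ V] in
lemma measurable_rt (t : ℝ) : Measurable (F.rt n t) := by
  unfold rt
  have h1 : Measurable (fun p : V × V => F.h p.1) := F.measurable_h.comp measurable_fst
  have h2 : Measurable (fun p : V × V => F.h p.2) := F.measurable_h.comp measurable_snd
  exact (Real.measurable_exp.comp ((h1.const_mul _).sub (h2.const_mul _))).const_mul _

omit [FiniteDimensional ℝ V] [MeasurableSpace V] [BorelSpace V] in
lemma rt_nonneg {t : ℝ} (t0 : 0 < t) (t1 : t < 1) (p : V × V) : 0 ≤ F.rt n t p := by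
  unfold rt
  have : 0 ≤ 1 - t ^ 2 := by nlinarith
  positivity

lemma map_T (hn : Module.finrank ℝ V = n) {t : ℝ} (t0 : 0 < t) (t1 : t < 1) :
    ((F.ex ν 1).prod (F.ex ν 1)).map (T t) =
      ((F.ex ν 1).prod (F.ex ν 1)).withDensity (fun p => ENNReal.ofReal (F.rt n t p)) := by
  ext s hs
  rw [Measure.map_apply (measurable_T t) hs, withDensity_apply _ hs]
  have h := F.scale ν hn t0 t1 (Φ := s.indicator 1) (measurable_one.indicator hs)
  have e1 : ∫⁻ p, s.indicator 1 ((1 + t) • p.1, (1 - t) • p.2) ∂((F.ex ν 1).prod (F.ex ν 1)) =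
      ((F.ex ν 1).prod (F.ex ν 1)) (T t ⁻¹' s) := by
    rw [← lintegral_indicator_one ((measurable_T t) hs)]
    rfl
  have e2 : ∫⁻ p, ENNReal.ofReal (F.rt n t p) * s.indicator 1 p ∂((F.ex ν 1).prod (F.ex ν 1)) =
      ∫⁻ p in s, ENNReal.ofReal (F.rt n t p) ∂((F.ex ν 1).prod (F.ex ν 1)) := by
    rw [← lintegral_indicator hs]
    refine lintegral_congr fun p => ?_
    by_cases hp : p ∈ s
    · simp [hp]
    · simp [hp]
  rw [← e1, h, e2]

lemma integral_T (hn : Module.finrank ℝ V = n) {t : ℝ} (t0 : 0 < t) (t1 : t < 1)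
    {w : V × V → ℝ} (hw : Measurable w) :
    ∫ p, w (T t p) ∂((F.ex ν 1).prod (F.ex ν 1)) =
      ∫ p, F.rt n t p * w p ∂((F.ex ν 1).prod (F.ex ν 1)) := by
  rw [← integral_map (measurable_T t).aemeasurable hw.aestronglyMeasurable, F.map_T ν hn t0 t1,
    integral_withDensity_eq_integral_toReal_smul (F.measurable_rt t).ennreal_ofReal
      (Filter.Eventually.of_forall fun p => ENNReal.ofReal_lt_top)]
  refine integral_congr_ae (Filter.Eventually.of_forall fun p => ?_)
  simp only [smul_eq_mul]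
  rw [ENNReal.toReal_ofReal (F.rt_nonneg t0 t1 p)]

lemma integrable_rt_mul (hn : Module.finrank ℝ V = n) (hM : F.Mom ν n Z) {t : ℝ} (t0 : 0 < t)
    (t1 : t < 1) {L : ℝ} {w : V × V → ℝ} (hw : Measurable w) (hL : ∀ p, |w p| ≤ L) :
    Integrable (fun p => F.rt n t p * w p) ((F.ex ν 1).prod (F.ex ν 1)) := by
  have h3 := Mom.finite_ex F hM (s := 1) one_pos
  have h1 : Integrable w (((F.ex ν 1).prod (F.ex ν 1)).map (T t)) := by
    have := Measure.isFiniteMeasure_map ((F.ex ν 1).prod (F.ex ν 1)) (T t)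
    exact Integrable.of_bound hw.aestronglyMeasurable L (Filter.Eventually.of_forall hL)
  rw [F.map_T ν hn t0 t1, integrable_withDensity_iff_integrable_smul'
    (F.measurable_rt t).ennreal_ofReal (Filter.Eventually.of_forall fun p => ENNReal.ofReal_lt_top)] at h1
  refine h1.congr (Filter.Eventually.of_forall fun p => ?_)
  simp only [smul_eq_mul]
  rw [ENNReal.toReal_ofReal (F.rt_nonneg t0 t1 p)]

/-- `w (a, b) = φ (a + b) - h (a - b)`, `φ` the gradient at `a - b` -/
noncomputable def W (p : V × V) : ℝ := F.u 0 p - F.h (p.1 - p.2)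

lemma measurable_W : Measurable F.W :=
  (F.measurable_u 0).sub (F.measurable_h.comp (measurable_fst.sub measurable_snd))

theorem scaled (hn : Module.finrank ℝ V = n) (hM : F.Mom ν n Z) {L t : ℝ} (hL : 0 ≤ L)
    (t0 : 0 < t) (t1 : t ≤ 1 / 2) :
    ∫ p : V × V, (clip L (F.u t p - F.h (p.1 - p.2)) - clip L (F.u 0 p - F.h (p.1 - p.2)))
        ∂((F.ex ν 1).prod (F.ex ν 1)) ≤
      ∫ p : V × V, (F.rt n t p - 1) * clip L (F.W p) ∂((F.ex ν 1).prod (F.ex ν 1)) +
        (t * (n + 2 * n * t) + 3 * t ^ 2 / (1 - t ^ 2) * (2 * n)) * Z ^ 2 := by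
  have h3 := Mom.finite_ex F hM (s := 1) one_pos
  have mclip := (continuous_clip L).measurable
  have mhh : Measurable (fun p : V × V => F.h (p.1 - p.2)) :=
    F.measurable_h.comp (measurable_fst.sub measurable_snd)
  have mW : Measurable (fun p => clip L (F.W p)) := mclip.comp F.measurable_W
  have bd : ∀ p, |clip L (F.W p)| ≤ L := fun p => abs_clip_le hL _
  have iN : Integrable (fun p : V × V => F.N (p.1 - p.2)) ((F.ex ν 1).prod (F.ex ν 1)) := by
    have i1 := Mom.integrable_PP F hM 1 0 one_pos one_pos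
    have i2 := Mom.integrable_PP F hM 0 1 one_pos one_pos
    refine (i1.add i2).mono' (F.continuous_N.measurable.comp
      (measurable_fst.sub measurable_snd)).aestronglyMeasurable ?_
    filter_upwards [F.ae_mem_prod ν 1 1] with p ⟨h1, h2⟩
    rw [Real.norm_eq_abs, abs_of_nonneg (F.N_nonneg _)]
    simpa using F.N_le h1 h2
  have i1 : Integrable (fun p : V × V => F.h p.1) ((F.ex ν 1).prod (F.ex ν 1)) := by
    simpa using Mom.integrable_PP F hM 1 0 one_pos one_pos
  have i2 : Integrable (fun p : V × V => F.h p.2) ((F.ex ν 1).prod (F.ex ν 1)) := by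
    simpa using Mom.integrable_PP F hM 0 1 one_pos one_pos
  have v1 : ∫ p : V × V, F.h p.1 ∂((F.ex ν 1).prod (F.ex ν 1)) = n * Z ^ 2 := by
    have := Mom.integral_PP F hM 1 0 one_pos one_pos
    simp only [pow_one, pow_zero, mul_one, one_pow, div_one, Nat.ascFactorial_zero, Nat.cast_one,
      asc_one] at this
    rw [this]; ring
  have v2 : ∫ p : V × V, F.h p.2 ∂((F.ex ν 1).prod (F.ex ν 1)) = n * Z ^ 2 := by
    have := Mom.integral_PP F hM 0 1 one_pos one_pos
    simp only [pow_one, pow_zero, mul_one, one_mul, one_pow, div_one, Nat.ascFactorial_zero, Nat.cast_one,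
      asc_one] at this
    rw [this]; ring
  have vN := F.mean_N ν hn hM
  have iW : Integrable (fun p => clip L (F.W p)) ((F.ex ν 1).prod (F.ex ν 1)) :=
    Integrable.of_bound mW.aestronglyMeasurable L (Filter.Eventually.of_forall bd)
  have irW := F.integrable_rt_mul ν hn hM t0 (by linarith) mW bd
  have hτ : 0 < 1 - t ^ 2 := by nlinarith
  -- pointwise bound
  have pt : ∀ᵐ p ∂((F.ex ν 1).prod (F.ex ν 1)), clip L (F.u t p - F.h (p.1 - p.2)) ≤
      clip L (F.W (T t p)) + t * ((1 + 2 * t) * F.h p.1 + F.h p.2 - F.N (p.1 - p.2)) +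
        3 * t ^ 2 / (1 - t ^ 2) * ((1 + t) * F.h p.1 + (1 - t) * F.h p.2) := by
    filter_upwards [F.ae_PP ν hM (t := t) (by linarith)] with p ⟨ha, hb, hs⟩
    obtain ⟨a, b⟩ := p
    simp only at ha hb hs ⊢
    set χ := F.gr (a - b + t • (a + b)) with hχ
    have ey : (1 + t) • a - (1 - t) • b = a - b + t • (a + b) := by
      rw [add_smul, sub_smul, one_smul, one_smul, smul_add]; abel
    have ha' : (1 + t) • a ∈ F.G := F.smul_mem (by linarith) ha
    have hb' : (1 - t) • b ∈ F.G := F.smul_mem (by linarith) hb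
    set M := F.h ((1 + t) • a + (1 - t) • b) - F.N ((1 + t) • a - (1 - t) • b) with hMd
    have M0 : 0 ≤ M := by
      have := F.N_le ha' hb'
      rw [hMd, map_add]; linarith
    have eW : F.W (T t (a, b)) = χ ((1 + t) • a + (1 - t) • b) - F.h ((1 + t) • a - (1 - t) • b) := by
      simp only [W, u, T, zero_smul, add_zero, ey, hχ]
    have hS : F.h ((1 + t) • a + (1 - t) • b) = (1 + t) * F.h a + (1 - t) * F.h b := by
      rw [map_add, map_smul, map_smul, smul_eq_mul, smul_eq_mul]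
    have hy : F.h ((1 + t) • a - (1 - t) • b) = (1 + t) * F.h a - (1 - t) * F.h b := by
      rw [map_sub, map_smul, map_smul, smul_eq_mul, smul_eq_mul]
    have hNy : F.N ((1 + t) • a - (1 - t) • b) = (1 + t) * χ a - (1 - t) * χ b := by
      rw [ey, ← hs.2, ← ey, map_sub, map_smul, map_smul, smul_eq_mul, smul_eq_mul]
    have hχS : χ ((1 + t) • a + (1 - t) • b) = (1 + t) * χ a + (1 - t) * χ b := by
      rw [map_add, map_smul, map_smul, smul_eq_mul, smul_eq_mul]
    have key : (1 - t ^ 2) * (F.u t (a, b) - F.h (a - b)) = F.W (T t (a, b)) + t * M := by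
      rw [eW, hMd, hS, hy, hNy, hχS]
      simp only [u, ← hχ, map_add, map_sub]
      ring
    have key2 : F.u t (a, b) - F.h (a - b) = (F.W (T t (a, b)) + t * M) +
        t ^ 2 / (1 - t ^ 2) * (F.W (T t (a, b)) + t * M) := by
      rw [← key]; field_simp; ring
    have bW : |F.W (T t (a, b)) + t * M| ≤ 3 * ((1 + t) * F.h a + (1 - t) * F.h b) := by
      have b1 := Sup.abs_le F hs (F.add_mem ha' hb')
      have b2 : |F.h ((1 + t) • a - (1 - t) • b)| ≤ (1 + t) * F.h a + (1 - t) * F.h b := by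
        rw [hy, abs_le]
        have := F.h_nonneg ha
        have := F.h_nonneg hb
        constructor <;> nlinarith
      have b3 : M ≤ (1 + t) * F.h a + (1 - t) * F.h b := by
        rw [hMd, hS]; linarith [F.N_nonneg ((1 + t) • a - (1 - t) • b)]
      rw [hS] at b1
      rw [eW]
      have c1 := abs_le.mp b1
      have c2 := abs_le.mp b2
      rw [abs_le]
      constructor <;> nlinarith
    have e0 : 0 ≤ t ^ 2 / (1 - t ^ 2) * (3 * ((1 + t) * F.h a + (1 - t) * F.h b)) := by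
      have := F.h_nonneg ha
      have := F.h_nonneg hb
      have : 0 ≤ 1 - t := by linarith
      positivity
    have e1 : F.u t (a, b) - F.h (a - b) ≤ F.W (T t (a, b)) +
        (t * M + t ^ 2 / (1 - t ^ 2) * (3 * ((1 + t) * F.h a + (1 - t) * F.h b))) := by
      rw [key2]
      have : t ^ 2 / (1 - t ^ 2) * (F.W (T t (a, b)) + t * M) ≤
          t ^ 2 / (1 - t ^ 2) * (3 * ((1 + t) * F.h a + (1 - t) * F.h b)) :=
        mul_le_mul_of_nonneg_left ((le_abs_self _).trans bW) (by positivity)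
      linarith
    have e2 := (clip_mono L e1).trans (clip_add_le L (add_nonneg (mul_nonneg t0.le M0) e0))
    have e3 : M ≤ (1 + 2 * t) * F.h a + F.h b - F.N (a - b) := by
      have := F.N_sub_le (a - b + t • (a + b)) (t • (a + b))
      rw [add_sub_cancel_right, F.N_smul t0.le, ← ey] at this
      have h5 := F.N_le_h (F.add_mem ha hb)
      rw [map_add] at h5
      rw [hMd, hS]
      nlinarith
    have e4 : t * M ≤ t * ((1 + 2 * t) * F.h a + F.h b - F.N (a - b)) :=
      mul_le_mul_of_nonneg_left e3 t0.le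
    have e5 : t ^ 2 / (1 - t ^ 2) * (3 * ((1 + t) * F.h a + (1 - t) * F.h b)) =
        3 * t ^ 2 / (1 - t ^ 2) * ((1 + t) * F.h a + (1 - t) * F.h b) := by ring
    linarith
  -- integrate
  have iu : Integrable (fun p : V × V => clip L (F.u t p - F.h (p.1 - p.2)))
      ((F.ex ν 1).prod (F.ex ν 1)) :=
    Integrable.of_bound (mclip.comp ((F.measurable_u t).sub mhh)).aestronglyMeasurable L
      (Filter.Eventually.of_forall fun p => abs_clip_le hL _)
  have iWT : Integrable (fun p => clip L (F.W (T t p))) ((F.ex ν 1).prod (F.ex ν 1)) :=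
    Integrable.of_bound (mW.comp (measurable_T t)).aestronglyMeasurable L
      (Filter.Eventually.of_forall fun p => bd _)
  have iA : Integrable (fun p : V × V => t * ((1 + 2 * t) * F.h p.1 + F.h p.2 - F.N (p.1 - p.2)))
      ((F.ex ν 1).prod (F.ex ν 1)) := (((i1.const_mul _).add i2).sub iN).const_mul _
  have iB : Integrable (fun p : V × V => 3 * t ^ 2 / (1 - t ^ 2) *
      ((1 + t) * F.h p.1 + (1 - t) * F.h p.2)) ((F.ex ν 1).prod (F.ex ν 1)) :=
    ((i1.const_mul _).add (i2.const_mul _)).const_mul _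
  have s1 : ∫ p : V × V, clip L (F.u t p - F.h (p.1 - p.2)) ∂((F.ex ν 1).prod (F.ex ν 1)) ≤
      ∫ p : V × V, F.rt n t p * clip L (F.W p) ∂((F.ex ν 1).prod (F.ex ν 1)) +
      t * ((1 + 2 * t) * (n * Z ^ 2) + n * Z ^ 2 - n * Z ^ 2) +
      3 * t ^ 2 / (1 - t ^ 2) * ((1 + t) * (n * Z ^ 2) + (1 - t) * (n * Z ^ 2)) := by
    have e := integral_mono_ae iu ((iWT.add iA).add iB) pt
    have e0 := integral_add (iWT.add iA) iB
    have e1 := integral_add iWT iA
    simp only [Pi.add_apply] at e e0 e1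
    rw [e0, e1, F.integral_T ν hn t0 (by linarith) mW] at e
    have vA : ∫ p : V × V, t * ((1 + 2 * t) * F.h p.1 + F.h p.2 - F.N (p.1 - p.2))
        ∂((F.ex ν 1).prod (F.ex ν 1)) = t * ((1 + 2 * t) * (n * Z ^ 2) + n * Z ^ 2 -
          ∫ p : V × V, F.N (p.1 - p.2) ∂((F.ex ν 1).prod (F.ex ν 1))) := by
      have h5 := integral_sub ((i1.const_mul (1 + 2 * t)).add i2) iN
      have h6 := integral_add (i1.const_mul (1 + 2 * t)) i2
      simp only [Pi.add_apply] at h5 h6
      rw [integral_const_mul, h5, h6, integral_const_mul, v1, v2]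
    have vB : ∫ p : V × V, 3 * t ^ 2 / (1 - t ^ 2) * ((1 + t) * F.h p.1 + (1 - t) * F.h p.2)
        ∂((F.ex ν 1).prod (F.ex ν 1)) =
        3 * t ^ 2 / (1 - t ^ 2) * ((1 + t) * (n * Z ^ 2) + (1 - t) * (n * Z ^ 2)) := by
      rw [integral_const_mul]
      have := integral_add (i1.const_mul (1 + t)) (i2.const_mul (1 - t))
      rw [this, integral_const_mul, integral_const_mul, v1, v2]
    rw [vA, vB] at e
    have := mul_le_mul_of_nonneg_left vN t0.le
    linarith
  have s2 : ∫ p : V × V, (F.rt n t p - 1) * clip L (F.W p) ∂((F.ex ν 1).prod (F.ex ν 1)) =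
      ∫ p : V × V, F.rt n t p * clip L (F.W p) ∂((F.ex ν 1).prod (F.ex ν 1)) -
      ∫ p : V × V, clip L (F.W p) ∂((F.ex ν 1).prod (F.ex ν 1)) := by
    rw [← integral_sub irW iW]
    refine integral_congr_ae (Filter.Eventually.of_forall fun p => ?_)
    simp only; ring
  have s3 : ∫ p : V × V, (clip L (F.u t p - F.h (p.1 - p.2)) - clip L (F.u 0 p - F.h (p.1 - p.2)))
        ∂((F.ex ν 1).prod (F.ex ν 1)) = ∫ p : V × V, clip L (F.u t p - F.h (p.1 - p.2))
        ∂((F.ex ν 1).prod (F.ex ν 1)) - ∫ p : V × V, clip L (F.W p) ∂((F.ex ν 1).prod (F.ex ν 1)) :=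
    integral_sub iu iW
  rw [s2, s3]
  have : t * ((1 + 2 * t) * (n * Z ^ 2) + n * Z ^ 2 - n * Z ^ 2) +
      3 * t ^ 2 / (1 - t ^ 2) * ((1 + t) * (n * Z ^ 2) + (1 - t) * (n * Z ^ 2)) =
      (t * (n + 2 * n * t) + 3 * t ^ 2 / (1 - t ^ 2) * (2 * n)) * Z ^ 2 := by ring
  linarith

/-- the limit inequality for a fixed `θ` -/
theorem lim_theta (hn : Module.finrank ℝ V = n) (hM : F.Mom ν n Z) {L θ : ℝ} (hL : 0 ≤ L)
    (θ0 : 0 < θ) (θ1 : θ < 1) :
    2 * θ * ∫ p : V × V, F.gr p.1 p.2 * clip L (2 * F.gr p.1 p.2) ∂((F.eN ν).prod (F.ex ν 2)) ≤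
      ∫ p : V × V, (F.h p.1 - F.h p.2) * clip L (F.W p) ∂((F.ex ν 1).prod (F.ex ν 1)) +
        n * Z ^ 2 := by
  have h3 := Mom.finite_ex F hM (s := 1) one_pos
  have mW : Measurable (fun p => clip L (F.W p)) :=
    (continuous_clip L).measurable.comp F.measurable_W
  have bd : ∀ p, |clip L (F.W p)| ≤ L := fun p => abs_clip_le hL _
  have T1 := (F.ibp ν hM hL).comp (tendsto_nhdsWithin_iff.mpr
    ⟨(show Tendsto (fun t : ℝ => 2 * θ * t) (𝓝[>] 0) (𝓝 0) by
      have : Tendsto (fun t : ℝ => 2 * θ * t) (𝓝 0) (𝓝 (2 * θ * 0)) := by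
        exact (continuous_const.mul continuous_id).tendsto 0
      rw [mul_zero] at this
      exact this.mono_left nhdsWithin_le_nhds),
    by filter_upwards [self_mem_nhdsWithin] with t ht
       have ht : 0 < t := ht
       show 0 < 2 * θ * t
       positivity⟩)
  have T2 := F.dscale ν hM mW bd
  have T3 := F.incr ν hM
  have T4 : Tendsto (fun t : ℝ => (3 - θ * t) / ((1 - t) * (1 - θ - θ * t))) (𝓝[>] 0)
      (𝓝 ((3 - θ * 0) / ((1 - 0) * (1 - θ - θ * 0)))) := by
    apply tendsto_nhdsWithin_of_tendsto_nhds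
    apply ContinuousAt.tendsto
    apply ContinuousAt.div (by fun_prop) (by fun_prop)
    simp only [mul_zero, sub_zero, one_mul]
    linarith
  have T5 : Tendsto (fun t : ℝ => (n + 2 * n * t + 3 * t / (1 - t ^ 2) * (2 * n)) * Z ^ 2) (𝓝[>] 0)
      (𝓝 ((n + 2 * n * 0 + 3 * 0 / (1 - 0 ^ 2) * (2 * n)) * Z ^ 2)) := by
    apply tendsto_nhdsWithin_of_tendsto_nhds
    apply ContinuousAt.tendsto
    apply ContinuousAt.mul _ continuousAt_const
    apply ContinuousAt.add (by fun_prop)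
    apply ContinuousAt.mul _ continuousAt_const
    exact ContinuousAt.div (by fun_prop) (by fun_prop) (by norm_num)
  have T6 := (T2.add T5).add (T4.mul T3)
  have T7 := T1.const_mul (2 * θ)
  have e7 : (∫ p : V × V, (F.h p.1 - F.h p.2) * clip L (F.W p) ∂((F.ex ν 1).prod (F.ex ν 1)) +
      (n + 2 * n * 0 + 3 * 0 / (1 - 0 ^ 2) * (2 * n)) * Z ^ 2) +
      (3 - θ * 0) / ((1 - 0) * (1 - θ - θ * 0)) * 0 =
      ∫ p : V × V, (F.h p.1 - F.h p.2) * clip L (F.W p) ∂((F.ex ν 1).prod (F.ex ν 1)) +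
        n * Z ^ 2 := by ring
  rw [e7] at T6
  refine le_of_tendsto_of_tendsto T7 T6 ?_
  have hev : ∀ᶠ t : ℝ in 𝓝[>] 0, 0 < t ∧ t ≤ 1 / 2 ∧ θ * t < 1 - θ := by
    have h1 : ∀ᶠ t : ℝ in 𝓝[>] 0, t < 1 / 2 :=
      nhdsWithin_le_nhds (Iio_mem_nhds (by norm_num))
    have h2 : ∀ᶠ t : ℝ in 𝓝[>] 0, t < (1 - θ) / θ :=
      nhdsWithin_le_nhds (Iio_mem_nhds (div_pos (by linarith) θ0))
    filter_upwards [self_mem_nhdsWithin, h1, h2] with t ht h1 h2
    refine ⟨ht, h1.le, ?_⟩
    rw [lt_div_iff₀ θ0] at h2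
    linarith
  filter_upwards [hev] with t ⟨t0, t1, ht⟩
  have S1 := F.step ν hM hL θ0 θ1 t0 t1 ht
  have S2 := F.scaled ν hn hM hL t0 t1
  have mhh : Measurable (fun p : V × V => F.h (p.1 - p.2)) :=
    F.measurable_h.comp (measurable_fst.sub measurable_snd)
  have iu1 : Integrable (fun p : V × V => clip L (F.u t p - F.h (p.1 - p.2)) -
      clip L (F.u 0 p - F.h (p.1 - p.2))) ((F.ex ν 1).prod (F.ex ν 1)) :=
    (Integrable.of_bound ((continuous_clip L).measurable.comp
      ((F.measurable_u t).sub mhh)).aestronglyMeasurable L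
      (Filter.Eventually.of_forall fun p => abs_clip_le hL _)).sub
    (Integrable.of_bound ((continuous_clip L).measurable.comp
      ((F.measurable_u 0).sub mhh)).aestronglyMeasurable L
      (Filter.Eventually.of_forall fun p => abs_clip_le hL _))
  have iu2 : Integrable (fun p : V × V => eps θ t * (F.u t p - F.u 0 p))
      ((F.ex ν 1).prod (F.ex ν 1)) :=
    ((F.integrable_u ν hM (by linarith)).sub (F.integrable_u ν hM (by norm_num))).const_mul _
  rw [integral_add iu1 iu2, integral_const_mul] at S1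
  have eu : (∫ p : V × V, (F.gr (p.1 - p.2 + t • (p.1 + p.2)) (p.1 + p.2) -
      F.gr (p.1 - p.2) (p.1 + p.2)) ∂((F.ex ν 1).prod (F.ex ν 1))) =
      ∫ p : V × V, (F.u t p - F.u 0 p) ∂((F.ex ν 1).prod (F.ex ν 1)) := by
    simp only [u, zero_smul, add_zero]
  show 2 * θ * ((2 * θ * t)⁻¹ * ∫ p : V × V,
        (clip L (2 * F.gr (p.1 + (2 * θ * t) • p.2) p.2) - clip L (2 * F.gr p.1 p.2))
          ∂((F.eN ν).prod (F.ex ν 2))) ≤ (t⁻¹ * ∫ p : V × V, (F.rt n t p - 1) * clip L (F.W p)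
          ∂((F.ex ν 1).prod (F.ex ν 1)) + (n + 2 * n * t + 3 * t / (1 - t ^ 2) * (2 * n)) * Z ^ 2) +
          (3 - θ * t) / ((1 - t) * (1 - θ - θ * t)) * ∫ p : V × V,
          (F.gr (p.1 - p.2 + t • (p.1 + p.2)) (p.1 + p.2) -
      F.gr (p.1 - p.2) (p.1 + p.2)) ∂((F.ex ν 1).prod (F.ex ν 1))
  rw [eu]
  set A := ∫ p : V × V, (clip L (2 * F.gr (p.1 + (2 * θ * t) • p.2) p.2) - clip L (2 * F.gr p.1 p.2))
          ∂((F.eN ν).prod (F.ex ν 2))
  set B := ∫ p : V × V, (F.rt n t p - 1) * clip L (F.W p) ∂((F.ex ν 1).prod (F.ex ν 1))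
  set C := ∫ p : V × V, (F.u t p - F.u 0 p) ∂((F.ex ν 1).prod (F.ex ν 1))
  have e1 : 2 * θ * ((2 * θ * t)⁻¹ * A) = t⁻¹ * A := by
    field_simp
  have e2 : A ≤ B + (t * (n + 2 * n * t) + 3 * t ^ 2 / (1 - t ^ 2) * (2 * n)) * Z ^ 2 +
      eps θ t * C := by linarith
  have hτ : 0 < 1 - t ^ 2 := by nlinarith
  have hpos : 0 < (1 - t) * (1 - θ - θ * t) := mul_pos (by linarith) (by linarith)
  have e3 : t⁻¹ * (B + (t * (n + 2 * n * t) + 3 * t ^ 2 / (1 - t ^ 2) * (2 * n)) * Z ^ 2 +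
      eps θ t * C) = (t⁻¹ * B + (n + 2 * n * t + 3 * t / (1 - t ^ 2) * (2 * n)) * Z ^ 2) +
          (3 - θ * t) / ((1 - t) * (1 - θ - θ * t)) * C := by
    unfold eps
    field_simp
  rw [e1, ← e3]
  exact mul_le_mul_of_nonneg_left e2 (by positivity)

theorem main_ineq' (hn : Module.finrank ℝ V = n) (n0 : 0 < n) (hM : F.Mom ν n Z) {L : ℝ}
    (hL : 0 ≤ L) :
    ∫ p : V × V, F.gr p.1 p.2 * clip L (2 * F.gr p.1 p.2) ∂((F.eN ν).prod (F.ex ν 2)) ≤
      (1 / 2) * (L * Real.sqrt (2 * n) + n) * Z ^ 2 := by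
  have h3 := Mom.finite_ex F hM (s := 1) one_pos
  set I := ∫ p : V × V, F.gr p.1 p.2 * clip L (2 * F.gr p.1 p.2) ∂((F.eN ν).prod (F.ex ν 2))
  set X := ∫ p : V × V, (F.h p.1 - F.h p.2) * clip L (F.W p) ∂((F.ex ν 1).prod (F.ex ν 1)) +
        n * Z ^ 2 with hX
  have h1 : 2 * 1 * I ≤ X := by
    have T : Tendsto (fun θ : ℝ => 2 * θ * I) (𝓝[<] 1) (𝓝 (2 * 1 * I)) := by
      apply tendsto_nhdsWithin_of_tendsto_nhds
      exact ((continuous_const.mul continuous_id).mul continuous_const).tendsto 1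
    refine le_of_tendsto T ?_
    have : ∀ᶠ θ : ℝ in 𝓝[<] 1, 0 < θ := nhdsWithin_le_nhds (Ioi_mem_nhds one_pos)
    filter_upwards [self_mem_nhdsWithin, this] with θ hθ1 hθ0
    exact F.lim_theta ν hn hM hL hθ0 hθ1
  -- second moments
  have i11 : Integrable (fun p : V × V => F.h p.1 * F.h p.2) ((F.ex ν 1).prod (F.ex ν 1)) := by
    simpa using Mom.integrable_PP F hM 1 1 one_pos one_pos
  have i20 : Integrable (fun p : V × V => F.h p.1 ^ 2) ((F.ex ν 1).prod (F.ex ν 1)) := by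
    simpa using Mom.integrable_PP F hM 2 0 one_pos one_pos
  have i02 : Integrable (fun p : V × V => F.h p.2 ^ 2) ((F.ex ν 1).prod (F.ex ν 1)) := by
    simpa using Mom.integrable_PP F hM 0 2 one_pos one_pos
  have v11 : ∫ p : V × V, F.h p.1 * F.h p.2 ∂((F.ex ν 1).prod (F.ex ν 1)) = n ^ 2 * Z ^ 2 := by
    have := Mom.integral_PP F hM 1 1 one_pos one_pos
    simp only [pow_one, one_pow, div_one, asc_one] at this
    rw [this]; ring
  have v20 : ∫ p : V × V, F.h p.1 ^ 2 ∂((F.ex ν 1).prod (F.ex ν 1)) = n * (n + 1) * Z ^ 2 := by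
    have := Mom.integral_PP F hM 2 0 one_pos one_pos
    simp only [pow_zero, mul_one, one_pow, div_one, Nat.ascFactorial_zero, Nat.cast_one,
      asc_two] at this
    rw [this]; ring
  have v02 : ∫ p : V × V, F.h p.2 ^ 2 ∂((F.ex ν 1).prod (F.ex ν 1)) = n * (n + 1) * Z ^ 2 := by
    have := Mom.integral_PP F hM 0 2 one_pos one_pos
    simp only [pow_zero, mul_one, one_mul, one_pow, div_one, Nat.ascFactorial_zero, Nat.cast_one,
      asc_two] at this
    rw [this]; ring
  have vuniv : (((F.ex ν 1).prod (F.ex ν 1)).real univ) = Z ^ 2 := by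
    rw [Measure.real, ← univ_prod_univ, Measure.prod_prod, Mom.ex_univ F hM one_pos,
      ← ENNReal.ofReal_mul (by have := hM.Zpos; positivity),
      ENNReal.toReal_ofReal (by have := hM.Zpos; positivity)]
    ring
  obtain ⟨c, hc⟩ : ∃ c, c = Real.sqrt (2 * n) := ⟨_, rfl⟩
  have c0 : 0 < c := by rw [hc]; positivity
  have c2 : c ^ 2 = 2 * n := by rw [hc]; exact Real.sq_sqrt (by positivity)
  have h2 : ∫ p : V × V, (F.h p.1 - F.h p.2) * clip L (F.W p) ∂((F.ex ν 1).prod (F.ex ν 1)) ≤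
      L * c * Z ^ 2 := by
    have mW : Measurable (fun p => clip L (F.W p)) :=
      (continuous_clip L).measurable.comp F.measurable_W
    have bd : ∀ p, |clip L (F.W p)| ≤ L := fun p => abs_clip_le hL _
    have mh : Measurable (fun p : V × V => F.h p.1 - F.h p.2) :=
      (F.measurable_h.comp measurable_fst).sub (F.measurable_h.comp measurable_snd)
    have hb : Integrable (fun p : V × V => L * ((2 * c)⁻¹ * (F.h p.1 ^ 2 + F.h p.2 ^ 2 -
        2 * (F.h p.1 * F.h p.2)) + c / 2)) ((F.ex ν 1).prod (F.ex ν 1)) :=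
      ((((i20.add i02).sub (i11.const_mul 2)).const_mul _).add (integrable_const _)).const_mul _
    have hpt : ∀ p : V × V, |(F.h p.1 - F.h p.2) * clip L (F.W p)| ≤
        L * ((2 * c)⁻¹ * (F.h p.1 ^ 2 + F.h p.2 ^ 2 - 2 * (F.h p.1 * F.h p.2)) + c / 2) := by
      intro p
      rw [abs_mul, mul_comm]
      refine mul_le_mul (bd p) ?_ (abs_nonneg _) hL
      rw [inv_mul_eq_div, div_add_div _ _ (by positivity) (by norm_num), le_div_iff₀ (by positivity)]
      have := sq_nonneg (|F.h p.1 - F.h p.2| - c)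
      have := sq_abs (F.h p.1 - F.h p.2)
      nlinarith
    have hi : Integrable (fun p : V × V => (F.h p.1 - F.h p.2) * clip L (F.W p))
        ((F.ex ν 1).prod (F.ex ν 1)) :=
      hb.mono' (mh.mul mW).aestronglyMeasurable (Filter.Eventually.of_forall fun p => by
        rw [Real.norm_eq_abs]; exact hpt p)
    refine (integral_mono hi hb fun p => (le_abs_self _).trans (hpt p)).trans (le_of_eq ?_)
    have e1 := integral_add ((((i20.add i02).sub (i11.const_mul 2)).const_mul (2 * c)⁻¹))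
      (integrable_const (μ := (F.ex ν 1).prod (F.ex ν 1)) (c / 2))
    have e2 := integral_sub (i20.add i02) (i11.const_mul 2)
    have e3 := integral_add i20 i02
    simp only [Pi.add_apply, Pi.sub_apply] at e1 e2 e3
    rw [integral_const_mul, e1, integral_const_mul, e2, e3, integral_const_mul, v11, v20, v02,
      integral_const, vuniv, smul_eq_mul]
    field_simp
    rw [c2]; ring
  rw [hX] at h1
  rw [← hc]
  linarith

theorem mean_slope' (hn : Module.finrank ℝ V = n) (n0 : 0 < n) (hM : F.Mom ν n Z) :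
    ∫⁻ p : V × V, ENNReal.ofReal |F.gr p.1 p.2| ∂((F.eN ν).prod (F.ex ν 2)) ≤
      ENNReal.ofReal ((1 + Real.sqrt 2) / 2 * Real.sqrt n * Z ^ 2) := by
  have h1 := F.eN_finite ν hM
  have h2 := Mom.finite_ex F hM (s := 2) two_pos
  have ih : Integrable (fun p : V × V => F.h p.2) ((F.eN ν).prod (F.ex ν 2)) := by
    have := (Mom.integrable_pow F hM 1 (s := 2) two_pos).comp_snd (F.eN ν)
    simpa using this
  have ig : Integrable (fun p : V × V => |F.gr p.1 p.2|) ((F.eN ν).prod (F.ex ν 2)) := by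
    refine ih.mono' F.measurable_gr_pair.abs.aestronglyMeasurable ?_
    filter_upwards [F.ae_QQs ν hM] with p ⟨hp, hs⟩
    rw [Real.norm_eq_abs, abs_abs]
    exact Sup.abs_le F hs hp
  set r := Real.sqrt n with hr
  have r0 : 0 < r := by rw [hr]; positivity
  have r2 : r ^ 2 = n := by rw [hr]; exact Real.sq_sqrt (by positivity)
  set L := 2 * r with hL
  have L0 : 0 ≤ L := by positivity
  have mc : Measurable (fun p : V × V => clip L (2 * F.gr p.1 p.2)) :=
    (continuous_clip L).measurable.comp (F.measurable_gr_pair.const_mul 2)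
  have ic : Integrable (fun p : V × V => F.gr p.1 p.2 * clip L (2 * F.gr p.1 p.2))
      ((F.eN ν).prod (F.ex ν 2)) := by
    refine (ig.const_mul L).mono' (F.measurable_gr_pair.mul mc).aestronglyMeasurable
      (Filter.Eventually.of_forall fun p => ?_)
    rw [Real.norm_eq_abs, abs_mul, mul_comm]
    exact mul_le_mul_of_nonneg_right (abs_clip_le L0 _) (abs_nonneg _)
  have key : ∫ p : V × V, (L * |F.gr p.1 p.2| - L ^ 2 / 8) ∂((F.eN ν).prod (F.ex ν 2)) ≤
      ∫ p : V × V, F.gr p.1 p.2 * clip L (2 * F.gr p.1 p.2) ∂((F.eN ν).prod (F.ex ν 2)) := by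
    refine integral_mono ((ig.const_mul L).sub (integrable_const _)) ic fun p => ?_
    have := mul_clip_ge L0 (2 * F.gr p.1 p.2)
    rw [abs_mul, abs_two] at this
    show L * |F.gr p.1 p.2| - L ^ 2 / 8 ≤ F.gr p.1 p.2 * clip L (2 * F.gr p.1 p.2)
    nlinarith
  rw [integral_sub (ig.const_mul L) (integrable_const _), integral_const_mul, integral_const,
    smul_eq_mul] at key
  have hu : ((F.eN ν).prod (F.ex ν 2)).real univ ≤ Z ^ 2 := by
    have := F.QQ_univ_le ν hM
    rw [Measure.real]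
    exact ENNReal.toReal_le_of_le_ofReal (by positivity) this
  have hm := F.main_ineq' ν hn n0 hM L0
  have hs : Real.sqrt (2 * n) = Real.sqrt 2 * r := by
    rw [Real.sqrt_mul (by norm_num)]
  rw [hs] at hm
  have fin : ∫ p : V × V, |F.gr p.1 p.2| ∂((F.eN ν).prod (F.ex ν 2)) ≤
      (1 + Real.sqrt 2) / 2 * r * Z ^ 2 := by
    set J := ∫ p : V × V, |F.gr p.1 p.2| ∂((F.eN ν).prod (F.ex ν 2))
    have e1 : ((F.eN ν).prod (F.ex ν 2)).real univ * (L ^ 2 / 8) ≤ Z ^ 2 * (L ^ 2 / 8) := by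
      gcongr
    have e2 : L * J ≤ L * ((1 + Real.sqrt 2) / 2 * r * Z ^ 2) := by
      have : L * ((1 + Real.sqrt 2) / 2 * r * Z ^ 2) =
          Z ^ 2 * (L ^ 2 / 8) + 1 / 2 * (L * (Real.sqrt 2 * r) + n) * Z ^ 2 := by
        rw [← r2, hL]; ring
      rw [this]
      linarith
    exact le_of_mul_le_mul_left e2 (by positivity)
  rw [← ofReal_integral_eq_lintegral_ofReal ig (Filter.Eventually.of_forall fun p => abs_nonneg _)]
  exact ENNReal.ofReal_le_ofReal fin

end Frame

end Pool.Agent.FR
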