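import Pool.Agent.Lib.MP_725e58_gt.FR.Pointwise

/-! The exponential measures on the cone and on the whole space: definitions. -/

set_option autoImplicit false

namespace Pool.Agent.FR

open MeasureTheory Set Filter Topology
open scoped ENNReal NNReal

namespace Frame

variable {V : Type*} [NormedAddCommGroup V] [NormedSpace ℝ V] (F : Frame V)
variable [MeasurableSpace V] (ν : Measure V)

/-- exponential law with rate `s` on the cone `G` (not normalised) -/
noncomputable def ex (s : ℝ) : Measure V :=
  (ν.restrict F.G).withDensity (fun a => ENNReal.ofReal (Real.exp (-(s * F.h a))))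

/-- the measure with density `exp (-N)` -/
noncomputable def eN : Measure V :=
  ν.withDensity (fun y => ENNReal.ofReal (Real.exp (-F.N y)))

/-- Gamma moments of the exponential laws on the cone: `n` is the dimension, `Z` the mass of
`exp (-h)` on `G`. -/
structure Mom (n : ℕ) (Z : ℝ) : Prop where
  Zpos : 0 < Z
  mom : ∀ (k : ℕ) (s : ℝ), 0 < s →
    ∫⁻ a, ENNReal.ofReal (F.h a ^ k) ∂(F.ex ν s) =
      ENNReal.ofReal (Z * (n.ascFactorial k : ℝ) / s ^ (n + k))

/-- density of the image of `ex 1 × ex 1` under `(a, b) ↦ ((1+t) a, (1-t) b)` -/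
noncomputable def rt (n : ℕ) (t : ℝ) (p : V × V) : ℝ :=
  ((1 - t ^ 2) ^ n)⁻¹ * Real.exp (t / (1 + t) * F.h p.1 - t / (1 - t) * F.h p.2)

end Frame

end Pool.Agent.FR
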