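import Pool.Agent.Lib.MP_725e58_gt.FR.Meas

/-! Consequences of the Gamma moments. -/

set_option autoImplicit false

namespace Pool.Agent.FR

open MeasureTheory Set Filter Topology
open scoped ENNReal NNReal

namespace Frame

variable {V : Type*} [NormedAddCommGroup V] [NormedSpace ℝ V] (F : Frame V)
variable [MeasurableSpace V] [BorelSpace V] (ν : Measure V)

lemma measurable_h : Measurable (fun a : V => F.h a) := F.h.continuous.measurable

lemma measurableSet_G : MeasurableSet F.G := F.closed.measurableSet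

lemma measurable_ex_density (s : ℝ) :
    Measurable (fun a => ENNReal.ofReal (Real.exp (-(s * F.h a)))) :=
  (Real.measurable_exp.comp ((F.measurable_h.const_mul s).neg)).ennreal_ofReal

lemma ex_ae_mem (s : ℝ) : ∀ᵐ a ∂(F.ex ν s), a ∈ F.G := by
  have h1 : F.ex ν s ≪ ν.restrict F.G := withDensity_absolutelyContinuous _ _
  exact h1.ae_le (ae_restrict_mem F.measurableSet_G)

omit [BorelSpace V] in
lemma ex_ac (s : ℝ) : F.ex ν s ≪ ν :=
  (withDensity_absolutelyContinuous _ _).trans Measure.restrict_le_self.absolutelyContinuous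

lemma lintegral_ex (s : ℝ) {f : V → ℝ≥0∞} (hf : Measurable f) :
    ∫⁻ a, f a ∂(F.ex ν s) = ∫⁻ a in F.G, ENNReal.ofReal (Real.exp (-(s * F.h a))) * f a ∂ν := by
  rw [ex, lintegral_withDensity_eq_lintegral_mul _ (F.measurable_ex_density s) hf]
  rfl

/-- multiplying by `exp (c h)` changes the rate -/
lemma lintegral_ex_exp (s c : ℝ) {f : V → ℝ≥0∞} (hf : Measurable f) :
    ∫⁻ a, ENNReal.ofReal (Real.exp (c * F.h a)) * f a ∂(F.ex ν s) = ∫⁻ a, f a ∂(F.ex ν (s - c)) := by
  have hm : Measurable (fun a => ENNReal.ofReal (Real.exp (c * F.h a))) :=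
    (Real.measurable_exp.comp (F.measurable_h.const_mul c)).ennreal_ofReal
  have h1 := F.lintegral_ex ν s (hm.mul hf)
  simp only [Pi.mul_apply] at h1
  rw [h1, F.lintegral_ex ν (s - c) hf]
  refine lintegral_congr fun a => ?_
  rw [← mul_assoc, ← ENNReal.ofReal_mul (Real.exp_nonneg _), ← Real.exp_add]
  congr 3
  ring

variable {ν} {n : ℕ} {Z : ℝ}

omit [BorelSpace V] in
lemma Mom.ex_univ (hM : F.Mom ν n Z) {s : ℝ} (hs : 0 < s) :
    F.ex ν s univ = ENNReal.ofReal (Z / s ^ n) := by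
  have := hM.mom 0 s hs
  simpa using this

omit [BorelSpace V] in
lemma Mom.finite_ex (hM : F.Mom ν n Z) {s : ℝ} (hs : 0 < s) : IsFiniteMeasure (F.ex ν s) :=
  ⟨by rw [Mom.ex_univ F hM hs]; exact ENNReal.ofReal_lt_top⟩

lemma Mom.integrable_pow (hM : F.Mom ν n Z) (k : ℕ) {s : ℝ} (hs : 0 < s) :
    Integrable (fun a => F.h a ^ k) (F.ex ν s) := by
  refine ⟨(F.measurable_h.pow_const k).aestronglyMeasurable, ?_⟩
  rw [hasFiniteIntegral_iff_ofReal]
  · rw [hM.mom k s hs]; exact ENNReal.ofReal_lt_top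
  · filter_upwards [F.ex_ae_mem ν s] with a ha
    exact pow_nonneg (F.h_nonneg ha) k

lemma Mom.integral_pow (hM : F.Mom ν n Z) (k : ℕ) {s : ℝ} (hs : 0 < s) :
    ∫ a, F.h a ^ k ∂(F.ex ν s) = Z * (n.ascFactorial k : ℝ) / s ^ (n + k) := by
  rw [integral_eq_lintegral_of_nonneg_ae, hM.mom k s hs, ENNReal.toReal_ofReal]
  · have := hM.Zpos
    positivity
  · filter_upwards [F.ex_ae_mem ν s] with a ha
    exact pow_nonneg (F.h_nonneg ha) k
  · exact (F.measurable_h.pow_const k).aestronglyMeasurable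

end Frame

end Pool.Agent.FR
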