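import Pool.Agent.Lib.MP_725e58_gt.FR.Frame

/-! The pointwise slope comparison. -/

set_option autoImplicit false

namespace Pool.Agent.FR

/-- truncation to `[-L, L]` -/
noncomputable def clip (L x : ℝ) : ℝ := max (-L) (min L x)

lemma clip_mono (L : ℝ) {x y : ℝ} (h : x ≤ y) : clip L x ≤ clip L y := by
  unfold clip; gcongr

lemma clip_add_le (L : ℝ) {x e : ℝ} (he : 0 ≤ e) : clip L (x + e) ≤ clip L x + e := by
  unfold clip
  rcases le_total L (x + e) with h1 | h1 <;> rcases le_total L x with h2 | h2 <;>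
    rcases le_total (-L) (x + e) with h3 | h3 <;> rcases le_total (-L) x with h4 | h4 <;>
    rcases le_total (-L) L with h5 | h5 <;>
    simp only [min_eq_left, min_eq_right, max_eq_left, max_eq_right, h1, h2, h3, h4, h5] <;>
    linarith

lemma abs_clip_le {L : ℝ} (hL : 0 ≤ L) (x : ℝ) : |clip L x| ≤ L := by
  rw [abs_le]
  exact ⟨le_max_left _ _, max_le (by linarith) (min_le_left _ _)⟩

lemma continuous_clip (L : ℝ) : Continuous (clip L) := by
  unfold clip; fun_prop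

/-- `x * clip L x ≥ L |x| - L ^ 2 / 4`. -/
lemma mul_clip_ge {L : ℝ} (hL : 0 ≤ L) (x : ℝ) : L * |x| - L ^ 2 / 4 ≤ x * clip L x := by
  unfold clip
  rcases le_total L x with h1 | h1
  · rw [min_eq_left h1, max_eq_right (by linarith), abs_of_nonneg (hL.trans h1)]
    nlinarith
  · rw [min_eq_right h1]
    rcases le_total (-L) x with h2 | h2
    · rw [max_eq_right h2, ← sq_abs L, ← abs_mul_abs_self x]
      rw [abs_of_nonneg hL]
      nlinarith [sq_nonneg (|x| - L / 2)]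
    · rw [max_eq_left h2, abs_of_nonpos (by linarith)]
      nlinarith

namespace Frame

variable {V : Type*} [NormedAddCommGroup V] [NormedSpace ℝ V] (F : Frame V)

/-- The key inequality between the slopes at `y`, at `y + 2 θ t g` and at `y + t S`, where
`y = a - b` is a minimal decomposition and `S = (a + g) + (b + g)`. -/
theorem pointwise {y a b g : V} {φ ψ χ : V →L[ℝ] ℝ} {t θ : ℝ} (ha : a ∈ F.G) (hb : b ∈ F.G)
    (hy : y = a - b) (hN : F.N y = F.h a + F.h b) (hφ : F.Sup φ y)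
    (hψ : F.Sup ψ (y + (2 * θ * t) • g)) (hχ : F.Sup χ (y + t • ((a + g) + (b + g))))
    (t0 : 0 < t) (t1 : t ≤ 1 / 2) (θ1 : θ < 1) :
    φ ((a + g) + (b + g)) ≤ χ ((a + g) + (b + g)) ∧
      φ ((a + g) + (b + g)) = F.h y + 2 * φ g ∧
      2 * (ψ g - φ g) * ((1 - t) * (1 - θ - θ * t)) ≤
        (1 - θ + 2 * t) * (χ ((a + g) + (b + g)) - φ ((a + g) + (b + g))) := by
  have φa : φ a = F.h a := by
    have h1 := hφ.le_h F ha
    have h2 := hφ.neg_h_le F hb
    have h3 := hφ.2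
    rw [hN, hy, map_sub] at h3
    linarith
  have φb : φ b = -F.h b := by
    have h1 := hφ.le_h F ha
    have h2 := hφ.neg_h_le F hb
    have h3 := hφ.2
    rw [hN, hy, map_sub] at h3
    linarith
  have hhy : F.h y = F.h a - F.h b := by rw [hy, map_sub]
  have φy : φ y = F.h a + F.h b := by rw [hφ.2, hN]
  have ψy : ψ y = ψ a - ψ b := by rw [hy, map_sub]
  have χy : χ y = χ a - χ b := by rw [hy, map_sub]
  have hφS : φ ((a + g) + (b + g)) = F.h a - F.h b + 2 * φ g := by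
    rw [map_add, map_add, map_add, φa, φb]; ring
  have hχS : χ ((a + g) + (b + g)) = χ a + χ b + 2 * χ g := by
    rw [map_add, map_add, map_add]; ring
  have hψS : ψ ((a + g) + (b + g)) = ψ a + ψ b + 2 * ψ g := by
    rw [map_add, map_add, map_add]; ring
  have P1 := hψ.le_h F ha
  have P2 := hψ.neg_h_le F hb
  have Q1 := hχ.le_h F ha
  have Q2 := hχ.neg_h_le F hb
  -- the four subgradient inequalities
  have e1 : φ y + (2 * θ * t) * φ g ≤ ψ y + (2 * θ * t) * ψ g := by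
    have h1 := hφ.1 (y + (2 * θ * t) • g)
    rw [← hψ.2] at h1
    simpa [map_add, map_smul, smul_eq_mul] using h1
  have e2 : φ y + t * φ ((a + g) + (b + g)) ≤ χ y + t * χ ((a + g) + (b + g)) := by
    have h1 := hφ.1 (y + t • ((a + g) + (b + g)))
    rw [← hχ.2, map_add, map_add, map_smul, map_smul, smul_eq_mul, smul_eq_mul] at h1
    exact h1
  have e3 : ψ y + t * ψ ((a + g) + (b + g)) ≤ χ y + t * χ ((a + g) + (b + g)) := by
    have h1 := hψ.1 (y + t • ((a + g) + (b + g)))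
    rw [← hχ.2, map_add, map_add, map_smul, map_smul, smul_eq_mul, smul_eq_mul] at h1
    exact h1
  have e4 : χ y + (2 * θ * t) * χ g ≤ ψ y + (2 * θ * t) * ψ g := by
    have h1 := hχ.1 (y + (2 * θ * t) • g)
    rw [← hψ.2] at h1
    simpa [map_add, map_smul, smul_eq_mul] using h1
  have e5 : χ y ≤ φ y := by
    have h1 := hχ.1 y
    rwa [← hφ.2] at h1
  rw [hφS, hχS] at e2
  rw [hψS, hχS] at e3
  rw [ψy, φy] at e1
  rw [χy, φy] at e2
  rw [ψy, χy] at e3
  rw [χy, ψy] at e4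
  rw [χy, φy] at e5
  refine ⟨?_, by rw [hφS, hhy], ?_⟩
  · rw [hφS, hχS]
    have : 0 ≤ t * (χ a + χ b + 2 * χ g - (F.h a - F.h b + 2 * φ g)) := by nlinarith
    have := (mul_nonneg_iff_of_pos_left t0).mp this
    linarith
  · rw [hφS, hχS]
    set A := F.h a with hA
    set B := F.h b with hB
    obtain ⟨p, hp⟩ : ∃ p, p = ψ g - φ g := ⟨_, rfl⟩
    obtain ⟨q, hq⟩ : ∃ q, q = χ g - φ g := ⟨_, rfl⟩
    obtain ⟨p1, hp1⟩ : ∃ p1, p1 = A - ψ a := ⟨_, rfl⟩
    obtain ⟨p2, hp2⟩ : ∃ p2, p2 = B + ψ b := ⟨_, rfl⟩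
    obtain ⟨q1, hq1⟩ : ∃ q1, q1 = A - χ a := ⟨_, rfl⟩
    obtain ⟨q2, hq2⟩ : ∃ q2, q2 = B + χ b := ⟨_, rfl⟩
    have p1n : 0 ≤ p1 := by linarith
    have p2n : 0 ≤ p2 := by linarith
    have q1n : 0 ≤ q1 := by linarith
    have q2n : 0 ≤ q2 := by linarith
    have f1 : p1 + p2 ≤ (2 * θ * t) * p := by rw [hp1, hp2, hp]; linarith
    have f2 : (1 + t) * q1 + (1 - t) * q2 ≤ 2 * t * q := by rw [hq1, hq2, hq]; linarith
    have f3 : t * (2 * (1 - θ) * (p - q)) ≤ t * (p1 - q1 + q2 - p2) := by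
      rw [hp1, hp2, hp, hq1, hq2, hq]; linarith
    have f4 : 2 * (1 - θ) * (p - q) ≤ p1 - q1 + q2 - p2 := le_of_mul_le_mul_left f3 t0
    have s2 : p1 ≤ (2 * θ * t) * p := by linarith
    have s3 : (1 - t) * q2 ≤ 2 * t * q := by nlinarith
    have s3' : q1 ≤ 2 * t * q := by nlinarith
    have qn : 0 ≤ q := by
      have : 0 ≤ 2 * t * q := le_trans (by nlinarith) f2
      have h2t : 0 < 2 * t := by linarith
      exact (mul_nonneg_iff_of_pos_left h2t).mp this
    have g1 : (1 - θ) * (1 - t) * (p - q) ≤ (1 - t) * (θ * t) * p + t * q := by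
      have : (1 - t) * (2 * (1 - θ) * (p - q)) ≤ (1 - t) * (p1 + q2) := by
        apply mul_le_mul_of_nonneg_left _ (by linarith)
        linarith
      nlinarith
    have g2 : 2 * q * (1 - t) ≤ χ a + χ b + 2 * χ g - (A - B + 2 * φ g) := by
      have : χ a + χ b + 2 * χ g - (A - B + 2 * φ g) = 2 * q - q1 + q2 := by
        rw [hq, hq1, hq2]; ring
      rw [this]; nlinarith
    have g3 : 2 * q * ((1 - θ) * (1 - t) + t) ≤ (1 - θ + 2 * t) * (2 * q * (1 - t)) := by
      have : 0 ≤ 2 * q * (t * (1 - 2 * t)) := by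
        have h1 : 0 ≤ 1 - 2 * t := by linarith
        positivity
      nlinarith
    have g4 : (1 - θ + 2 * t) * (2 * q * (1 - t)) ≤
        (1 - θ + 2 * t) * (χ a + χ b + 2 * χ g - (A - B + 2 * φ g)) :=
      mul_le_mul_of_nonneg_left g2 (by linarith)
    rw [← hp]
    nlinarith

end Frame

end Pool.Agent.FR
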