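import Pool.Agent.Lib.MP_725e58_gt.FR.Conc41
import Pool.Agent.Lib.MP_725e58_gt.FR.Conc
import Pool.Agent.Lib.MP_725e58_gt.Tow.Susp

/-! (K4) for the concrete frame: the flux in the direction `(x, 1)` bounds the volume of the
reflection body of `K` at `x`. -/

set_option autoImplicit false

namespace Pool.Agent.FR

open MeasureTheory Set Filter Topology
open scoped ENNReal NNReal Nat
open Pool.Agent.Lib.MP_725e58_gt.Tow (RB RB_compact)

section K4

variable {E : Type*} [NormedAddCommGroup E] [NormedSpace ℝ E] [FiniteDimensional ℝ E]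

variable [MeasurableSpace E] [BorelSpace E] (μ : Measure E) [μ.IsAddHaarMeasure]

/-- (K4) -/
theorem frameOf_slope {K : Set E} (hc : IsCompact K) (hv : Convex ℝ K)
    (hi : (interior K).Nonempty) (x : E) :
    ENNReal.ofReal (2 * (Module.finrank ℝ E).factorial) * μ (RB K x) ≤
      ∫⁻ y, ENNReal.ofReal |(frameOf K hc hv hi).gr y (x, 1)|
        ∂((frameOf K hc hv hi).eN (μ.prod (volume : Measure ℝ))) := by
  refine (frameOf K hc hv hi).slope_ge' μ ?_ ?_ x (RB_compact hc hv x).measurableSet
  · intro k hk
    exact ⟨zero_le_one, k, hk, (one_smul ℝ k).symm⟩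
  · intro p
    rfl

end K4

end Pool.Agent.FR
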